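import Pool.Agent.Lib.MP_17a322_ntLH.T4R

/-! Residues of powers. -/

namespace LVH

open Finset

variable {K : Type} [Field K] {p : ℕ} {π : Pl K p}

open Classical in
/-- the residue (junk outside of the valuation ring) -/
noncomputable def res (π : Pl K p) (x : K) : ZMod p := if h : x ∈ π.V then π.ρ ⟨x, h⟩ else 0

theorem rd_res {x : K} (h : x ∈ π.V) : Rd π x (res π x) := by
  unfold res
  rw [dif_pos h]
  exact ⟨h, rfl⟩

theorem Rd.zpow [Fact p.Prime] {x : K} {a : ZMod p} (hx : Rd π x a) (h0 : x⁻¹ ∈ π.V) (n : ℤ) :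
    Rd π (x ^ n) (a ^ n) := by
  obtain ⟨m, rfl | rfl⟩ := n.eq_nat_or_neg
  · rw [zpow_natCast, zpow_natCast]
    exact hx.pow m
  · rw [zpow_neg, zpow_neg, zpow_natCast, zpow_natCast, ← inv_pow, ← inv_pow]
    exact (hx.inv h0).pow m

theorem pow_mod [Fact p.Prime] {a : ZMod p} (ha : a ≠ 0) {L : ℕ} (hL : p - 1 ∣ L) (hL0 : 1 ≤ L) (n : ℤ) :
    a ^ n = a ^ (n % (L : ℤ)).toNat := by
  have h1 : a ^ L = 1 := by
    obtain ⟨q, rfl⟩ := hL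
    rw [pow_mul, ZMod.pow_card_sub_one_eq_one ha, one_pow]
  have hL' : (0 : ℤ) < L := by exact_mod_cast hL0
  have h2 : ((n % (L : ℤ)).toNat : ℤ) = n % (L : ℤ) := Int.toNat_of_nonneg (Int.emod_nonneg _ hL'.ne')
  rw [← zpow_natCast, h2]
  conv_lhs => rw [← Int.mul_ediv_add_emod n L]
  rw [zpow_add₀ ha, zpow_mul, zpow_natCast, h1, one_zpow, one_mul]

theorem Rd.prod_zpow [Fact p.Prime] {r : ℕ} {g : Fin r → K} (hg : ∀ m, g m ≠ 0)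
    (h1 : ∀ m, g m ∈ π.V ∧ (g m)⁻¹ ∈ π.V) {L : ℕ} (hL : p - 1 ∣ L) (hL0 : 1 ≤ L) (n : Fin r → ℤ) :
    Rd π (∏ m, g m ^ n m) (∏ m, res π (g m) ^ (n m % (L : ℤ)).toNat) := by
  refine Rd.prod _ fun m _ => ?_
  have h2 := rd_res (h1 m).1
  rw [← pow_mod (h2.ne (hg m) (h1 m).2) hL hL0]
  exact h2.zpow (h1 m).2 _

theorem res_ne [Fact p.Prime] {x : K} (hx0 : x ≠ 0) (h : x ∈ π.V) (h0 : x⁻¹ ∈ π.V) : res π x ≠ 0 :=
  (rd_res h).ne hx0 h0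

end LVH
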