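import Pool.Agent.Lib.MP_17a322_ntLH.PDefs
import Pool.Agent.Lib.MP_10e784_ag.EL.ELMer

/-!
# LEAF T3A: the primes of degree one

PROOF.  `EL.mer` of `Pool/Agent/Lib/MP_10e784_ag/EL/ELMer.lean` (see its namespace): the sum of `log N P / N P` over the prime ideals `P` with `N P ≤ x` prime is `log x + O(1)`; take the difference for `x` and `y`; at most `n = [K : ℚ]` prime ideals have norm `p` (their product divides `(p)`, of norm `p ^ n`).
-/

namespace LVH

open Finset NumberField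

open Classical in
theorem d1_sum (K : Type) [Field K] [NumberField K] : ∃ C : ℝ, 0 < C ∧ ∀ y x : ℝ, 2 ≤ y → y ≤ x →
    1 / (Module.finrank ℚ K : ℝ) * Real.log (x / y) - C ≤
      ∑ p ∈ (Ioc ⌊y⌋₊ ⌊x⌋₊).filter (fun p => p.Prime ∧ D1 K p), Real.log p / (p : ℝ) := by
  obtain ⟨A, hA, h⟩ := EL.mer K
  have hn0 : 0 < Module.finrank ℚ K := Module.finrank_pos
  have hn1 : (1 : ℝ) ≤ Module.finrank ℚ K := by exact_mod_cast hn0
  have hnR : (0 : ℝ) < Module.finrank ℚ K := by linarith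
  refine ⟨2 * A, by positivity, fun y x hy hyx => ?_⟩
  have hy0 : (0 : ℝ) ≤ y := by linarith
  have hx0 : (0 : ℝ) ≤ x := by linarith
  have h1 := abs_le.1 (h x (hy.trans hyx))
  have h2 := abs_le.1 (h y hy)
  set sx := (EL.PP K x).filter (fun P => (Ideal.absNorm P).Prime) with hsx
  set sy := (EL.PP K y).filter (fun P => (Ideal.absNorm P).Prime) with hsy
  have hsub : sy ⊆ sx := by
    intro P hP
    rw [hsy, mem_filter] at hP
    rw [hsx, mem_filter]
    obtain ⟨h3, h4, h5⟩ := (EL.mem_PP hy0).1 hP.1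
    exact ⟨(EL.mem_PP hx0).2 ⟨h3, h4, h5.trans hyx⟩, hP.2⟩
  have h3 := sum_sdiff (f := fun P : Ideal (𝓞 K) => Real.log (Ideal.absNorm P : ℕ) / (Ideal.absNorm P : ℕ)) hsub
  have hmaps : ∀ P ∈ sx \ sy, Ideal.absNorm P ∈
      (Ioc ⌊y⌋₊ ⌊x⌋₊).filter (fun p => p.Prime ∧ D1 K p) := by
    intro P hP
    rw [mem_sdiff, hsx, hsy, mem_filter, mem_filter, EL.mem_PP hx0, EL.mem_PP hy0] at hP
    obtain ⟨⟨⟨h4, h5, h6⟩, h7⟩, h8⟩ := hP
    have h9 : y < ((Ideal.absNorm P : ℕ) : ℝ) := by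
      by_contra h10
      exact h8 ⟨⟨h4, h5, not_lt.1 h10⟩, h7⟩
    rw [mem_filter, mem_Ioc]
    exact ⟨⟨(Nat.floor_lt hy0).2 h9, Nat.le_floor h6⟩, h7, P, rfl⟩
  have h4 : ∑ P ∈ sx \ sy, Real.log (Ideal.absNorm P : ℕ) / (Ideal.absNorm P : ℕ) ≤
      Module.finrank ℚ K * ∑ p ∈ (Ioc ⌊y⌋₊ ⌊x⌋₊).filter (fun p => p.Prime ∧ D1 K p), Real.log p / (p : ℝ) := by
    rw [← sum_fiberwise_of_maps_to hmaps, mul_sum]
    refine sum_le_sum fun q hq => ?_
    have hqp : q.Prime := (mem_filter.1 hq).2.1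
    have h5 : ∑ P ∈ (sx \ sy).filter (fun P => Ideal.absNorm P = q),
        Real.log (Ideal.absNorm P : ℕ) / (Ideal.absNorm P : ℕ) =
        (((sx \ sy).filter (fun P => Ideal.absNorm P = q)).card : ℝ) * (Real.log q / (q : ℝ)) := by
      rw [sum_congr rfl (g := fun _ => Real.log q / (q : ℝ)) (fun P hP => by rw [(mem_filter.1 hP).2]),
        sum_const, nsmul_eq_mul]
    rw [h5]
    refine mul_le_mul_of_nonneg_right ?_ (div_nonneg (Real.log_natCast_nonneg _) (Nat.cast_nonneg _))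
    have h6 := PT.primes_above_le K q hqp ((sx \ sy).filter (fun P => Ideal.absNorm P = q)) (by
      intro P hP
      obtain ⟨h7, h8⟩ := mem_filter.1 hP
      rw [mem_sdiff, hsx, mem_filter, EL.mem_PP hx0] at h7
      refine ⟨h7.1.1.1, ?_⟩
      rw [← h8]
      exact Ideal.absNorm_mem P)
    exact_mod_cast h6
  have h5 : Real.log (x / y) = Real.log x - Real.log y := Real.log_div (by linarith) (by linarith)
  have h6 : Real.log (x / y) - 2 * A ≤ Module.finrank ℚ K *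
      ∑ p ∈ (Ioc ⌊y⌋₊ ⌊x⌋₊).filter (fun p => p.Prime ∧ D1 K p), Real.log p / (p : ℝ) := by
    rw [h5]
    linarith [h1.1, h2.2]
  have h7 : 1 / (Module.finrank ℚ K : ℝ) * Real.log (x / y) - 1 / (Module.finrank ℚ K : ℝ) * (2 * A) ≤
      ∑ p ∈ (Ioc ⌊y⌋₊ ⌊x⌋₊).filter (fun p => p.Prime ∧ D1 K p), Real.log p / (p : ℝ) := by
    have h8 := mul_le_mul_of_nonneg_left h6 (by positivity : (0 : ℝ) ≤ 1 / (Module.finrank ℚ K : ℝ))
    rw [← mul_assoc, one_div_mul_cancel hnR.ne', one_mul] at h8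
    linarith [h8]
  have h8 : 1 / (Module.finrank ℚ K : ℝ) * (2 * A) ≤ 2 * A := by
    rw [one_div]
    exact mul_le_of_le_one_left (by positivity) (inv_le_one_of_one_le₀ hn1)
  linarith

end LVH
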