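import Pool.Agent.Lib.MP_17a322_ntLH.PDefs

/-!
# LEAF T5: an element is a unit at almost all places

PROOF.  There is an integer `m ≠ 0` with `m g` and `m g⁻¹` integral over `ℤ`; let `M = |m|`.  For `p > M` prime, `ρ m ≠ 0`, so `m⁻¹ ∈ V` by `π.ker`; `V` is integrally closed in `K` and contains `m g`, `m g⁻¹`.
-/

namespace LVH

open Finset NumberField

private theorem T5_int {K : Type} [Field K] (V : ValuationSubring K) (x : K)
    (hx : IsIntegral ℤ x) : x ∈ V := by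
  have h1 : IsIntegral V x := hx.tower_top
  obtain ⟨y, hy⟩ := IsIntegrallyClosed.isIntegral_iff.mp h1
  rw [← hy]
  exact y.2

private theorem T5_inv {K : Type} [Field K] {p : ℕ} (m : ℤ) (hm : m ≠ 0)
    (hp : m.natAbs < p) (π : Pl K p) : (m : K)⁻¹ ∈ π.V := by
  by_contra h
  have h1 : ((m : π.V) : K) = (m : K) := by
    push_cast
    rfl
  have h2 := π.ker (m : π.V) (by rw [h1]; exact h)
  rw [map_intCast, ZMod.intCast_zmod_eq_zero_iff_dvd] at h2
  have h3 := Nat.le_of_dvd (Int.natAbs_pos.mpr hm) (Int.natCast_dvd.mp h2)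
  omega

theorem unit_pl (K : Type) [Field K] [NumberField K] {g : K} (hg : g ≠ 0) : ∃ M : ℕ, ∀ p : ℕ, p.Prime → M < p →
    ∀ π : Pl K p, g ∈ π.V ∧ g⁻¹ ∈ π.V := by
  classical
  obtain ⟨m, hm, h⟩ := exists_integral_multiples ℤ ℚ ({g, g⁻¹} : Finset K)
  refine ⟨m.natAbs, fun p _ hp π => ?_⟩
  have hi := T5_inv m hm hp π
  have hm0 : (m : K) ≠ 0 := Int.cast_ne_zero.mpr hm
  have key : ∀ x : K, IsIntegral ℤ (m • x) → x ∈ π.V := by
    intro x hx
    have h1 := π.V.mul_mem _ _ hi (T5_int π.V _ hx)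
    rwa [zsmul_eq_mul, inv_mul_cancel_left₀ hm0] at h1
  exact ⟨key g (h g (by simp)), key g⁻¹ (h g⁻¹ (by simp))⟩

end LVH
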