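import Pool.Agent.Lib.MP_17a322_ntLH.PDefs

/-!
# LEAF E1: values of forms

PROOF.  `mon_smul`: the multiset `α` has `m` elements; `fv_smul`, `fv_zero` from it.  `ev`: products of forms are forms (`fv_mul`: `c γ = ∑ α, ∑ β, if α.append β = γ then a α * b β else 0`), a linear form with coefficients `w` is a form of degree one.  For `x ∈ T` and each `x' ∈ T`, `x' ≠ x`, there is a linear form vanishing at `x'` and not at `x` (`x` and `x'` are linearly independent: `i, k` with `x i x' k ≠ x k x' i`, the form `x' k X_i - x' i X_k`), and one `l` not vanishing at `x`; the product of these, with a suitable power of `l`, is a form of degree `m` (as `card T - 1 ≤ m`), not zero at `x` and zero at the other points of `T`.  Add suitable multiples of these forms.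
-/

namespace LVH

open Finset

theorem mon_smul {R ι : Type} [CommRing R] {m : ℕ} (l : R) (x : ι → R) (α : Sym ι m) :
    mon (l • x) α = l ^ m * mon x α := by
  unfold mon
  have h1 : (α : Multiset ι).map (l • x) = (α : Multiset ι).map fun i => l * x i := rfl
  rw [h1, Multiset.prod_map_mul, Multiset.map_const', Multiset.prod_replicate]
  congr 2
  exact α.2

theorem fv_smul {R ι : Type} [CommRing R] [Fintype ι] [DecidableEq ι] {m : ℕ} (a : Sym ι m → R) (l : R) (x : ι → R) :
    fv a (l • x) = l ^ m * fv a x := by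
  unfold fv
  rw [Finset.mul_sum]
  exact Finset.sum_congr rfl fun α _ => by rw [mon_smul, mul_left_comm]

theorem fv_zero {R ι : Type} [CommRing R] [Fintype ι] [DecidableEq ι] {m : ℕ} (hm : 1 ≤ m) (a : Sym ι m → R) :
    fv a (0 : ι → R) = 0 := by
  have h1 := fv_smul a (0 : R) (0 : ι → R)
  rw [smul_zero, zero_pow (by omega), zero_mul] at h1
  exact h1

private theorem E1_mon_append {R ι : Type} [CommRing R] {m n : ℕ} (x : ι → R) (α : Sym ι m) (β : Sym ι n) :
    mon x (α.append β) = mon x α * mon x β := by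
  unfold mon
  rw [Sym.coe_append, Multiset.map_add, Multiset.prod_add]

private theorem E1_mul {R ι : Type} [CommRing R] [Fintype ι] [DecidableEq ι] {m n : ℕ} (a : Sym ι m → R)
    (b : Sym ι n → R) : ∃ c : Sym ι (m + n) → R, ∀ x, fv c x = fv a x * fv b x := by
  refine ⟨fun γ => ∑ α : Sym ι m, ∑ β : Sym ι n, if α.append β = γ then a α * b β else 0, fun x => ?_⟩
  unfold fv
  rw [Finset.sum_mul_sum]
  have h1 : ∀ γ : Sym ι (m + n), (∑ α : Sym ι m, ∑ β : Sym ι n, if α.append β = γ then a α * b β else 0) * mon x γ =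
      ∑ α : Sym ι m, ∑ β : Sym ι n, if α.append β = γ then a α * b β * mon x (α.append β) else 0 := by
    intro γ
    rw [Finset.sum_mul]
    refine Finset.sum_congr rfl fun α _ => ?_
    rw [Finset.sum_mul]
    refine Finset.sum_congr rfl fun β _ => ?_
    by_cases h : α.append β = γ
    · rw [if_pos h, if_pos h, h]
    · rw [if_neg h, if_neg h, zero_mul]
  rw [Finset.sum_congr rfl fun γ _ => h1 γ, Finset.sum_comm]
  refine Finset.sum_congr rfl fun α _ => ?_
  rw [Finset.sum_comm]
  refine Finset.sum_congr rfl fun β _ => ?_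
  rw [Finset.sum_ite_eq, if_pos (Finset.mem_univ _), E1_mon_append]
  ring

private theorem E1_lin {R ι : Type} [CommRing R] [Fintype ι] [DecidableEq ι] (w : ι → R) :
    ∃ c : Sym ι 1 → R, ∀ x, fv c x = ∑ i, w i * x i := by
  refine ⟨fun α => w (Sym.oneEquiv.symm α), fun x => ?_⟩
  unfold fv
  rw [← Equiv.sum_comp (Sym.oneEquiv (α := ι)) (fun α => w (Sym.oneEquiv.symm α) * mon x α)]
  refine Finset.sum_congr rfl fun i _ => ?_
  rw [Equiv.symm_apply_apply]
  congr 1
  unfold mon
  change (Multiset.map x {i}).prod = x i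
  rw [Multiset.map_singleton, Multiset.prod_singleton]

private theorem E1_sep {F ι : Type} [Field F] [Fintype ι] [DecidableEq ι] {x y : ι → F} (hx : x ≠ 0)
    (h : ∀ l : F, l • x ≠ y) : ∃ w : ι → F, ∑ i, w i * x i ≠ 0 ∧ ∑ i, w i * y i = 0 := by
  obtain ⟨i, hi⟩ := Function.ne_iff.1 hx
  have hi' : x i ≠ 0 := hi
  have hk : ∃ k, x i * y k ≠ x k * y i := by
    by_contra hcon
    have hcon' : ∀ k, x i * y k = x k * y i := fun k => by
      by_contra h1
      exact hcon ⟨k, h1⟩
    refine h (y i / x i) (funext fun k => ?_)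
    rw [Pi.smul_apply, smul_eq_mul, div_mul_eq_mul_div, div_eq_iff hi', mul_comm (y i), ← hcon' k, mul_comm]
  obtain ⟨k, hk⟩ := hk
  refine ⟨fun j => (if j = i then y k else 0) - (if j = k then y i else 0), ?_, ?_⟩
  · have h1 : ∑ j, ((if j = i then y k else 0) - (if j = k then y i else 0)) * x j = y k * x i - y i * x k := by
      simp only [sub_mul, ite_mul, zero_mul, Finset.sum_sub_distrib, Finset.sum_ite_eq', Finset.mem_univ, if_true]
    rw [h1]
    intro h2
    exact hk (by rw [mul_comm, sub_eq_zero.1 h2, mul_comm])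
  · have h1 : ∑ j, ((if j = i then y k else 0) - (if j = k then y i else 0)) * y j = y k * y i - y i * y k := by
      simp only [sub_mul, ite_mul, zero_mul, Finset.sum_sub_distrib, Finset.sum_ite_eq', Finset.mem_univ, if_true]
    rw [h1, mul_comm, sub_self]

private theorem E1_pow {F ι : Type} [Field F] [Fintype ι] [DecidableEq ι] {x : ι → F} (hx : x ≠ 0) (m : ℕ) :
    ∃ a : Sym ι m → F, fv a x ≠ 0 := by
  induction m with
  | zero =>
    refine ⟨fun _ => 1, ?_⟩
    unfold fv
    have h1 : ∀ α : Sym ι 0, (1 : F) * mon x α = 1 := by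
      intro α
      unfold mon
      have h2 : (α : Multiset ι) = 0 := Multiset.card_eq_zero.1 α.2
      rw [h2, Multiset.map_zero, Multiset.prod_zero, one_mul]
    rw [Finset.sum_congr rfl fun α _ => h1 α, Finset.sum_const, Finset.card_univ]
    have h3 : Fintype.card (Sym ι 0) = 1 := Fintype.card_unique
    rw [h3, one_smul]
    exact one_ne_zero
  | succ m ih =>
    obtain ⟨a, ha⟩ := ih
    obtain ⟨i, hi⟩ := Function.ne_iff.1 hx
    obtain ⟨b, hb⟩ := E1_lin (fun j => if j = i then (1 : F) else 0)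
    obtain ⟨c, hc⟩ := E1_mul a b
    refine ⟨c, ?_⟩
    rw [hc, hb]
    simp only [ite_mul, one_mul, zero_mul, Finset.sum_ite_eq', Finset.mem_univ, if_true]
    exact mul_ne_zero ha hi

private theorem E1_prod {F ι : Type} [Field F] [Fintype ι] [DecidableEq ι] {x : ι → F} (hx : x ≠ 0)
    (S : Finset (ι → F)) (hS : ∀ y ∈ S, ∀ l : F, l • x ≠ y) :
    ∀ m, S.card ≤ m → ∃ a : Sym ι m → F, fv a x ≠ 0 ∧ ∀ y ∈ S, fv a y = 0 := by
  classical
  induction S using Finset.induction_on with
  | empty =>
    intro m _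
    obtain ⟨a, ha⟩ := E1_pow hx m
    exact ⟨a, ha, fun y hy => absurd hy (Finset.notMem_empty y)⟩
  | insert y S hy ih =>
    intro m hm
    rw [Finset.card_insert_of_notMem hy] at hm
    obtain ⟨m, rfl⟩ : ∃ n, m = n + 1 := ⟨m - 1, by omega⟩
    obtain ⟨a, ha, ha'⟩ := ih (fun z hz => hS z (Finset.mem_insert_of_mem hz)) m (by omega)
    obtain ⟨w, hw, hw'⟩ := E1_sep hx (hS y (Finset.mem_insert_self y S))
    obtain ⟨b, hb⟩ := E1_lin w
    obtain ⟨c, hc⟩ := E1_mul a b
    refine ⟨c, ?_, fun z hz => ?_⟩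
    · rw [hc, hb]
      exact mul_ne_zero ha hw
    · rw [hc, hb]
      rcases Finset.mem_insert.1 hz with h | h
      · rw [h, hw', mul_zero]
      · rw [ha' z h, zero_mul]

theorem ev {F ι : Type} [Field F] [Fintype ι] [DecidableEq ι] (m : ℕ) (T : Finset (ι → F)) (hT : NP T)
    (hc : T.card ≤ m + 1) (v : (ι → F) → F) : ∃ a : Sym ι m → F, ∀ x ∈ T, fv a x = v x := by
  classical
  have h1 : ∀ x : ι → F, ∃ a : Sym ι m → F, x ∈ T → fv a x = v x ∧ ∀ y ∈ T, y ≠ x → fv a y = 0 := by
    intro x
    by_cases hx : x ∈ T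
    · obtain ⟨a, ha, ha'⟩ := E1_prod (hT x hx).1 (T.erase x)
        (fun y hy l => (hT x hx).2 y (Finset.mem_of_mem_erase hy) (Finset.ne_of_mem_erase hy).symm l) m (by
          rw [Finset.card_erase_of_mem hx]
          omega)
      refine ⟨(v x / fv a x) • a, fun _ => ⟨?_, fun y hy hyx => ?_⟩⟩
      · have h2 : fv ((v x / fv a x) • a) x = (v x / fv a x) * fv a x := by
          unfold fv
          rw [Finset.mul_sum]
          exact Finset.sum_congr rfl fun α _ => by rw [Pi.smul_apply, smul_eq_mul, mul_assoc]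
        rw [h2, div_mul_cancel₀ _ ha]
      · have h2 : fv ((v x / fv a x) • a) y = (v x / fv a x) * fv a y := by
          have h3 : ∀ t : F, fv (t • a) y = t * fv a y := by
            intro t
            unfold fv
            rw [Finset.mul_sum]
            exact Finset.sum_congr rfl fun α _ => by rw [Pi.smul_apply, smul_eq_mul, mul_assoc]
          exact h3 _
        rw [h2, ha' y (Finset.mem_erase.2 ⟨hyx, hy⟩), mul_zero]
    · exact ⟨0, fun h => absurd h hx⟩
  choose a ha using h1
  refine ⟨∑ y ∈ T, a y, fun x hx => ?_⟩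
  have h2 : fv (∑ y ∈ T, a y) x = ∑ y ∈ T, fv (a y) x := by
    unfold fv
    rw [Finset.sum_comm]
    refine Finset.sum_congr rfl fun α _ => ?_
    rw [Finset.sum_apply, Finset.sum_mul]
  rw [h2, Finset.sum_eq_single x]
  · exact (ha x hx).1
  · intro y hy hyx
    exact (ha y hy).2 x hx hyx.symm
  · exact fun h => absurd hx h

end LVH
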