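import Pool.Agent.Lib.MP_17a322_ntLH.PDefs

/-!
# LEAF T4: the place of a prime ideal of norm `p`

PROOF.  `P` with `absNorm P = p` prime is a nonzero prime ideal (`Ideal.isPrime_of_irreducible_absNorm`); `v` the height one prime, `V = (v.valuation K).valuationSubring` (or `valuationSubringAtPrime`), `ρ` the composite of `V → residue field of V` with an isomorphism of the residue field with `ZMod p`: the map `𝓞 K → residue field of V` is surjective with kernel `P`, so that the residue field has `p` elements (`x = a / b` with `b ∉ P` for `x ∈ V`), use `ZMod.ringEquivOfPrime` or a count.  An element of `V` whose inverse is not in `V` is in the maximal ideal.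
-/

namespace LVH

open Finset NumberField

private theorem T4_unit {K Γ : Type} [Field K] [LinearOrderedCommGroupWithZero Γ] (v : Valuation K Γ)
    (x : v.valuationSubring) : IsUnit x ↔ v (x : K) = 1 := by
  have hx : v (x : K) ≤ 1 := x.2
  constructor
  · rintro ⟨u, rfl⟩
    have h1 : v ((u : v.valuationSubring) : K) * v (((u⁻¹ : v.valuationSubringˣ) : v.valuationSubring) : K) = 1 := by
      rw [← map_mul]
      have h2 : ((u : v.valuationSubring) : K) * (((u⁻¹ : v.valuationSubringˣ) : v.valuationSubring) : K) = 1 := by
        have h3 := congrArg (fun y : v.valuationSubring => (y : K)) u.mul_inv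
        exact h3
      rw [h2, map_one]
    have h4 : v (((u⁻¹ : v.valuationSubringˣ) : v.valuationSubring) : K) ≤ 1 :=
      ((u⁻¹ : v.valuationSubringˣ) : v.valuationSubring).2
    exact eq_one_of_one_le_mul_left hx h4 h1.ge
  · intro h
    have h0 : (x : K) ≠ 0 := by
      intro h0
      rw [h0, map_zero] at h
      exact zero_ne_one h
    have h1 : (x : K)⁻¹ ∈ v.valuationSubring := by
      show v (x : K)⁻¹ ≤ 1
      rw [map_inv₀, h, inv_one]
    exact IsUnit.of_mul_eq_one ⟨(x : K)⁻¹, h1⟩ (Subtype.ext (mul_inv_cancel₀ h0))

private theorem T4_card (K : Type) [Field K] [NumberField K] (v : IsDedekindDomain.HeightOneSpectrum (𝓞 K)) :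
    Nat.card (IsLocalRing.ResidueField (v.valuation K).valuationSubring) = Ideal.absNorm v.asIdeal := by
  set V := (v.valuation K).valuationSubring with hV
  have hmem : ∀ x : V, x ∈ IsLocalRing.maximalIdeal V ↔ v.valuation K (x : K) < 1 := by
    intro x
    rw [IsLocalRing.mem_maximalIdeal, mem_nonunits_iff, T4_unit]
    have hx : v.valuation K (x : K) ≤ 1 := x.2
    constructor
    · intro h
      exact lt_of_le_of_ne hx h
    · intro h h1
      exact h.ne h1
  let j : 𝓞 K →+* V := (algebraMap (𝓞 K) K).codRestrict V fun x => v.valuation_le_one x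
  have hj : ∀ x, ((j x : V) : K) = algebraMap (𝓞 K) K x := fun x => rfl
  let φ : 𝓞 K →+* IsLocalRing.ResidueField V := (IsLocalRing.residue V).comp j
  have hsurj : Function.Surjective φ := by
    intro y
    obtain ⟨x, rfl⟩ := IsLocalRing.residue_surjective y
    obtain ⟨a, ha⟩ := v.exists_valuation_sub_lt_of_integer (x := (x : K)) x.2 1
    refine ⟨a, ?_⟩
    show IsLocalRing.residue V (j a) = IsLocalRing.residue V x
    rw [← sub_eq_zero, ← map_sub, IsLocalRing.residue_eq_zero_iff, hmem]
    exact ha
  have hker : RingHom.ker φ = v.asIdeal := by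
    ext a
    rw [RingHom.mem_ker]
    show IsLocalRing.residue V (j a) = 0 ↔ _
    rw [IsLocalRing.residue_eq_zero_iff, hmem, hj]
    exact v.valuation_lt_one_iff_mem a
  rw [← Nat.card_congr (RingHom.quotientKerEquivOfSurjective hsurj).toEquiv, hker, Ideal.absNorm_apply,
    Submodule.cardQuot_apply]

theorem exists_pl (K : Type) [Field K] [NumberField K] {p : ℕ} (hp : p.Prime) (h : D1 K p) : Nonempty (Pl K p) := by
  obtain ⟨P, hP⟩ := h
  have hprime : P.IsPrime := Ideal.isPrime_of_irreducible_absNorm (by
    rw [hP]
    exact hp)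
  have hne : P ≠ ⊥ := by
    rintro rfl
    rw [Ideal.absNorm_bot] at hP
    exact hp.ne_zero hP.symm
  let v : IsDedekindDomain.HeightOneSpectrum (𝓞 K) := ⟨P, hprime, hne⟩
  have hc : Nat.card (IsLocalRing.ResidueField (v.valuation K).valuationSubring) = p := by
    rw [T4_card K v]
    exact hP
  have hfin : Finite (IsLocalRing.ResidueField (v.valuation K).valuationSubring) :=
    Nat.finite_of_card_ne_zero (by
      rw [hc]
      exact hp.ne_zero)
  let _ := Fintype.ofFinite (IsLocalRing.ResidueField (v.valuation K).valuationSubring)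
  have hc' : Fintype.card (IsLocalRing.ResidueField (v.valuation K).valuationSubring) = p := by
    rw [← Nat.card_eq_fintype_card]
    exact hc
  let e := ZMod.ringEquivOfPrime (IsLocalRing.ResidueField (v.valuation K).valuationSubring) hp hc'
  refine ⟨⟨(v.valuation K).valuationSubring,
    (e.symm : _ →+* ZMod p).comp (IsLocalRing.residue (v.valuation K).valuationSubring), fun x hx => ?_⟩⟩
  have h1 : IsLocalRing.residue (v.valuation K).valuationSubring x = 0 := by
    rw [IsLocalRing.residue_eq_zero_iff, IsLocalRing.mem_maximalIdeal, mem_nonunits_iff, T4_unit]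
    intro h1
    apply hx
    show v.valuation K (x : K)⁻¹ ≤ 1
    rw [map_inv₀, h1, inv_one]
  rw [RingHom.comp_apply, h1, map_zero]

end LVH
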