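import Mathlib

/-!
# LEAF F8: small facts on finite places

PROOF.  `fin_ne`: Mathlib (`FinitePlace.hasFiniteMulSupport` or similar).  `exists_M0`: the product of the `absNorm` of the maximal ideals.  `place_coprime`: `v m ≤ 1`; if `v m < 1`, then `1 = a p + b m` has `v 1 < 1` by the ultrametric inequality.
-/

namespace LVH

open NumberField

private theorem F8_lt {K : Type} [Field K] [NumberField K] (v : FinitePlace K) (n : ℕ) :
    v (n : K) < 1 ↔ ((n : ℕ) : 𝓞 K) ∈ v.maximalIdeal.asIdeal := by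
  rw [← FinitePlace.norm_lt_one_iff_mem K, FinitePlace.norm_embedding_eq, map_natCast (algebraMap (𝓞 K) K)]

private theorem F8_le {K : Type} [Field K] [NumberField K] (v : FinitePlace K) (n : ℕ) : v (n : K) ≤ 1 := by
  have h := FinitePlace.norm_le_one K v.maximalIdeal (n : 𝓞 K)
  rwa [FinitePlace.norm_embedding_eq, map_natCast (algebraMap (𝓞 K) K)] at h

theorem fin_ne (K : Type) [Field K] [NumberField K] {x : K} (hx : x ≠ 0) : {v : FinitePlace K | v x ≠ 1}.Finite := by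
  exact FinitePlace.hasFiniteMulSupport hx

theorem exists_M0 (K : Type) [Field K] [NumberField K] (S : Finset (FinitePlace K)) :
    ∃ M : ℕ, M ≠ 0 ∧ ∀ v ∈ S, v (M : K) < 1 := by
  classical
  refine ⟨∏ v ∈ S, Ideal.absNorm v.maximalIdeal.asIdeal, ?_, ?_⟩
  · rw [Finset.prod_ne_zero_iff]
    intro v _
    exact Ideal.absNorm_eq_zero_iff.not.mpr v.maximalIdeal.ne_bot
  · intro v hv
    have h1 : ((∏ v ∈ S, Ideal.absNorm v.maximalIdeal.asIdeal : ℕ) : 𝓞 K) ∈ v.maximalIdeal.asIdeal := by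
      rw [← Finset.mul_prod_erase S _ hv, Nat.cast_mul]
      exact Ideal.mul_mem_right _ _ (Ideal.absNorm_mem _)
    exact (F8_lt v _).2 h1

theorem place_coprime (K : Type) [Field K] [NumberField K] (v : FinitePlace K) {p : ℕ} (hp : p.Prime)
    (hv : v (p : K) < 1) {m : ℕ} (hm : ¬ p ∣ m) : v (m : K) = 1 := by
  have h1 : ((p : ℕ) : 𝓞 K) ∈ v.maximalIdeal.asIdeal := (F8_lt v p).1 hv
  by_contra h2
  have h3 : v (m : K) < 1 := lt_of_le_of_ne (F8_le v m) h2
  have h4 : ((m : ℕ) : 𝓞 K) ∈ v.maximalIdeal.asIdeal := (F8_lt v m).1 h3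
  have h5 : IsCoprime ((p : ℤ)) (m : ℤ) := Nat.isCoprime_iff_coprime.2 ((Nat.Prime.coprime_iff_not_dvd hp).2 hm)
  obtain ⟨a, b, hab⟩ := h5
  refine v.maximalIdeal.isPrime.ne_top ((Ideal.eq_top_iff_one _).2 ?_)
  have h6 : (1 : 𝓞 K) = (a : 𝓞 K) * (p : ℕ) + (b : 𝓞 K) * (m : ℕ) := by
    have h7 := congrArg (fun n : ℤ => (n : 𝓞 K)) hab
    push_cast at h7
    exact h7.symm
  rw [h6]
  exact Ideal.add_mem _ (Ideal.mul_mem_left _ _ h1) (Ideal.mul_mem_left _ _ h4)

theorem place_int (K : Type) [Field K] [NumberField K] (v : FinitePlace K) (x : 𝓞 K) : v (x : K) ≤ 1 := by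
  rw [← FinitePlace.norm_embedding_eq]
  exact FinitePlace.norm_le_one K v.maximalIdeal x

theorem place_add (K : Type) [Field K] [NumberField K] (v : FinitePlace K) (x y : K) : v (x + y) ≤ max (v x) (v y) := by
  exact FinitePlace.add_le v x y

end LVH
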