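import Pool.Agent.Lib.MP_17a322_ntLH.PDefs

/-!
# LEAF F4: the finite place under a residue map

PROOF.  `π.V` contains `𝓞 K` (it is integrally closed in `K`).  `P = {x ∈ 𝓞 K | ρ x = 0}` is a prime ideal containing `p`, so nonzero; `v` its finite place (`FinitePlace.mk`), `v p < 1`.  If `v x ≤ 1` then `x = a / b` with `a, b ∈ 𝓞 K`, `b ∉ P` (e.g. by `IsDedekindDomain.HeightOneSpectrum` / localization at `P`), so `ρ b ≠ 0`, and `b⁻¹ ∈ V` by `π.ker`, `x ∈ V`.
-/

namespace LVH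

open NumberField

theorem pl_place (K : Type) [Field K] [NumberField K] {p : ℕ} (hp : p.Prime) (π : Pl K p) :
    ∃ v : FinitePlace K, v (p : K) < 1 ∧ ∀ x : K, v x ≤ 1 → x ∈ π.V := by
  have : Fact p.Prime := ⟨hp⟩
  have hint : ∀ x : 𝓞 K, algebraMap (𝓞 K) K x ∈ π.V := by
    intro x
    have h1 : IsIntegral ℤ (algebraMap (𝓞 K) K x) := x.2
    have h2 : IsIntegral π.V (algebraMap (𝓞 K) K x) := h1.tower_top
    obtain ⟨y, hy⟩ := IsIntegrallyClosed.algebraMap_eq_of_integral h2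
    rw [← hy]
    exact y.2
  let j : 𝓞 K →+* π.V := (algebraMap (𝓞 K) K).codRestrict π.V hint
  let φ : 𝓞 K →+* ZMod p := π.ρ.comp j
  have hprime : (RingHom.ker φ).IsPrime := RingHom.ker_isPrime φ
  have hpm : (p : 𝓞 K) ∈ RingHom.ker φ := by
    rw [RingHom.mem_ker, map_natCast]
    exact ZMod.natCast_self p
  have hne : RingHom.ker φ ≠ ⊥ := by
    intro h
    rw [h, Ideal.mem_bot] at hpm
    exact hp.ne_zero (by exact_mod_cast hpm)
  let v : IsDedekindDomain.HeightOneSpectrum (𝓞 K) := ⟨RingHom.ker φ, hprime, hne⟩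
  refine ⟨FinitePlace.mk v, ?_, fun x hx => ?_⟩
  · have h1 := (FinitePlace.norm_lt_one_iff_mem K v (p : 𝓞 K)).2 hpm
    rw [map_natCast] at h1
    rw [FinitePlace.mk_apply]
    exact h1
  · rw [FinitePlace.mk_apply, FinitePlace.norm_embedding'] at hx
    have h1 : v.valuation K x ≤ 1 := by
      rw [← WithZeroMulInt.toNNReal_le_one_iff (HeightOneSpectrum.one_lt_absNorm_nnreal v)]
      exact_mod_cast hx
    obtain ⟨n, d, hd⟩ := v.exists_primeCompl_mul_eq_of_integer x h1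
    have hd1 : φ d.1 ≠ 0 := fun h => d.2 ((RingHom.mem_ker).2 h)
    have hd0 : algebraMap (𝓞 K) K d.1 ≠ 0 := by
      intro h
      apply hd1
      have h2 : (d.1 : 𝓞 K) = 0 := by
        apply FaithfulSMul.algebraMap_injective (𝓞 K) K
        rw [h, map_zero]
      rw [h2, map_zero]
    have hdi : (algebraMap (𝓞 K) K d.1)⁻¹ ∈ π.V := by
      by_contra hcon
      exact hd1 (π.ker (j d.1) hcon)
    have hx2 : x = algebraMap (𝓞 K) K n * (algebraMap (𝓞 K) K d.1)⁻¹ := by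
      rw [← hd, mul_assoc, mul_inv_cancel₀ hd0, mul_one]
    rw [hx2]
    exact π.V.mul_mem _ _ (hint n) hdi

end LVH
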