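import Pool.Agent.Lib.MP_17a322_ntLH.PDefs

/-!
# LEAF E5A: representatives of the lines

PROOF.  The relation `∃ l ≠ 0, l • x = x'` on the nonzero vectors is an equivalence; `T` the set of the chosen representatives (`Quotient.out`).
-/

namespace LVH

open Finset

theorem reps (p : ℕ) [Fact p.Prime] (ι : Type) [Fintype ι] : ∃ T : Finset (ι → ZMod p), NP T ∧
    ∀ x : ι → ZMod p, x ≠ 0 → ∃ t ∈ T, ∃ l : ZMod p, l ≠ 0 ∧ l • t = x := by
  classical
  let s : Setoid (ι → ZMod p) :=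
    { r := fun x y => ∃ l : ZMod p, l ≠ 0 ∧ l • x = y
      iseqv := {
        refl := fun x => ⟨1, one_ne_zero, one_smul _ x⟩
        symm := by
          rintro x y ⟨l, hl, h⟩
          exact ⟨l⁻¹, inv_ne_zero hl, by rw [← h, smul_smul, inv_mul_cancel₀ hl, one_smul]⟩
        trans := by
          rintro x y z ⟨l, hl, h⟩ ⟨k, hk, g⟩
          exact ⟨k * l, mul_ne_zero hk hl, by rw [← g, ← h, smul_smul]⟩ } }
  have hout : ∀ x : ι → ZMod p, ∃ l : ZMod p, l ≠ 0 ∧ l • (Quotient.out (Quotient.mk s x)) = x :=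
    fun x => Quotient.mk_out (s := s) x
  have hmk : ∀ x : ι → ZMod p, Quotient.mk s (Quotient.out (Quotient.mk s x)) = Quotient.mk s x :=
    fun x => Quotient.out_eq _
  refine ⟨univ.filter fun x => x ≠ 0 ∧ Quotient.out (Quotient.mk s x) = x, ?_, ?_⟩
  · intro x hx
    rw [mem_filter] at hx
    refine ⟨hx.2.1, fun x' hx' hne l hl => hne ?_⟩
    rw [mem_filter] at hx'
    have hl0 : l ≠ 0 := by
      rintro rfl
      exact hx'.2.1 (by rw [← hl, zero_smul])
    have h1 : Quotient.mk s x = Quotient.mk s x' := Quotient.sound (s := s) ⟨l, hl0, hl⟩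
    rw [← hx.2.2, h1, hx'.2.2]
  · intro x hx
    obtain ⟨l, hl, h⟩ := hout x
    refine ⟨Quotient.out (Quotient.mk s x), mem_filter.2 ⟨mem_univ _, ?_, ?_⟩, l, hl, h⟩
    · intro h0
      exact hx (by rw [← h, h0, smul_zero])
    · rw [hmk x]

end LVH
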