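import Mathlib

/-!
# LEAF F1: coprime coordinates

PROOF.  The class group is finite; choose for each class a nonzero integral ideal in it; `S0` is `S` together with the finite places dividing one of these ideals.  For `x ≠ 0` let `J` be the fractional ideal generated by the `x i` and `I` the chosen ideal in the class of `J⁻¹`: `J I = (m)` is principal; `l = m⁻¹`: the fractional ideal of `l x` is `I⁻¹`, and `⨆ i, v (l * x i) = 1` for `v` not dividing `I`.
Elementary variant: after multiplication with an integer the `x i` are in `𝓞 K`; `J` the ideal generated by them.  For `v ∉ S0`: `v m = ⨆ i, v (x i)` as `J I = (m)` and `v` does not divide `I`.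
-/

namespace LVH

open NumberField

/-- An integral element has absolute value at most one. -/
private theorem F1_le_one {K : Type} [Field K] [NumberField K] (v : FinitePlace K) (c : 𝓞 K) :
    v (algebraMap (𝓞 K) K c) ≤ 1 := by
  rw [← FinitePlace.norm_embedding_eq]
  exact FinitePlace.norm_le_one K v.maximalIdeal c

/-- The elements of the ideal generated by the `a i` have absolute value at most that of the largest `a i`. -/
private theorem F1_span {K : Type} [Field K] [NumberField K] (v : FinitePlace K) {ι : Type} [Fintype ι]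
    (a : ι → 𝓞 K) (t : ℝ) (ht : 0 ≤ t) (ha : ∀ i, v (algebraMap (𝓞 K) K (a i)) ≤ t) (m : 𝓞 K)
    (hm : m ∈ Ideal.span (Set.range a)) : v (algebraMap (𝓞 K) K m) ≤ t := by
  refine Submodule.span_induction (p := fun y _ => v (algebraMap (𝓞 K) K y) ≤ t) ?_ ?_ ?_ ?_ hm
  · rintro _ ⟨i, rfl⟩
    exact ha i
  · show v (algebraMap (𝓞 K) K 0) ≤ t
    rw [map_zero, map_zero]
    exact ht
  · intro y z _ _ hy hz
    show v (algebraMap (𝓞 K) K (y + z)) ≤ t
    rw [map_add]
    exact (FinitePlace.add_le v _ _).trans (max_le hy hz)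
  · intro c y _ hy
    show v (algebraMap (𝓞 K) K (c * y)) ≤ t
    rw [map_mul, map_mul]
    exact (mul_le_mul (F1_le_one v c) hy (apply_nonneg v _) zero_le_one).trans (one_mul t).le

/-- For an integral vector. -/
private theorem F1_int {K : Type} [Field K] [NumberField K] (v : FinitePlace K) {ι : Type} [Fintype ι]
    (a : ι → 𝓞 K) (b m : 𝓞 K) (I : Ideal (𝓞 K)) (hb : b ∈ I) (hvb : v (algebraMap (𝓞 K) K b) = 1) (hm0 : m ≠ 0)
    (hJ : Ideal.span (Set.range a) * I = Ideal.span {m}) :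
    (⨆ i, v ((algebraMap (𝓞 K) K m)⁻¹ * algebraMap (𝓞 K) K (a i))) = 1 := by
  have hmK : algebraMap (𝓞 K) K m ≠ 0 := by
    intro h
    exact hm0 (FaithfulSMul.algebraMap_injective (𝓞 K) K (h.trans (map_zero (algebraMap (𝓞 K) K)).symm))
  have hvm : 0 < v (algebraMap (𝓞 K) K m) := FinitePlace.pos_iff.2 hmK
  have hbd : ∀ i, v (algebraMap (𝓞 K) K (a i)) ≤ v (algebraMap (𝓞 K) K m) := by
    intro i
    have h1 : a i * b ∈ Ideal.span (Set.range a) * I :=
      Ideal.mul_mem_mul (Ideal.subset_span ⟨i, rfl⟩) hb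
    rw [hJ, Ideal.mem_span_singleton'] at h1
    obtain ⟨c, hc⟩ := h1
    have h2 : v (algebraMap (𝓞 K) K (a i * b)) = v (algebraMap (𝓞 K) K (c * m)) := by rw [hc]
    rw [map_mul, map_mul, map_mul, map_mul, hvb, mul_one] at h2
    rw [h2]
    exact (mul_le_mul_of_nonneg_right (F1_le_one v c) hvm.le).trans (one_mul _).le
  have hmem : m ∈ Ideal.span (Set.range a) := by
    have h1 : m ∈ Ideal.span (Set.range a) * I := by
      rw [hJ]
      exact Ideal.mem_span_singleton_self m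
    exact (Ideal.mul_le_left : Ideal.span (Set.range a) * I ≤ Ideal.span (Set.range a)) h1
  have hne : Nonempty ι := by
    by_contra h
    rw [not_nonempty_iff] at h
    have h1 := F1_span v a 0 le_rfl (fun i => h.elim i) m hmem
    linarith
  obtain ⟨i0, hi0⟩ := Finite.exists_max (fun i => v (algebraMap (𝓞 K) K (a i)))
  have h3 : v (algebraMap (𝓞 K) K m) ≤ v (algebraMap (𝓞 K) K (a i0)) := F1_span v a _ (apply_nonneg v _) hi0 m hmem
  have h4 : ∀ i, v ((algebraMap (𝓞 K) K m)⁻¹ * algebraMap (𝓞 K) K (a i)) =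
      (v (algebraMap (𝓞 K) K m))⁻¹ * v (algebraMap (𝓞 K) K (a i)) := fun i => by
    rw [map_mul, map_inv₀]
  refine le_antisymm (ciSup_le fun i => ?_) ?_
  · rw [h4, inv_mul_le_iff₀ hvm, mul_one]
    exact hbd i
  · refine le_trans ?_ (le_ciSup (Set.finite_range _).bddAbove i0)
    rw [h4, le_inv_mul_iff₀ hvm, mul_one]
    exact h3

theorem scale (K : Type) [Field K] [NumberField K] (S : Finset (FinitePlace K)) : ∃ S0 : Finset (FinitePlace K),
    S ⊆ S0 ∧ ∀ (ι : Type) [Fintype ι] (x : ι → K), x ≠ 0 →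
      ∃ l : K, l ≠ 0 ∧ ∀ v : FinitePlace K, v ∉ S0 → (⨆ i, v (l * x i)) = 1 := by
  classical
  have hrep : ∀ c : ClassGroup (𝓞 K), ∃ (I : nonZeroDivisors (Ideal (𝓞 K))) (b : 𝓞 K), b ≠ 0 ∧ b ∈ (I : Ideal (𝓞 K)) ∧
      ClassGroup.mk0 I = c := by
    intro c
    obtain ⟨I, hI⟩ := ClassGroup.mk0_surjective c
    obtain ⟨b, hb, hb0⟩ := Submodule.exists_mem_ne_zero_of_ne_bot (nonZeroDivisors.ne_zero I.2)
    exact ⟨I, b, hb0, hb, hI⟩
  choose I b hb0 hbI hc using hrep
  have hfin : ∀ c, {v : FinitePlace K | v (algebraMap (𝓞 K) K (b c)) ≠ 1}.Finite := fun c =>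
    FinitePlace.hasFiniteMulSupport_int (hb0 c)
  refine ⟨S ∪ Finset.univ.biUnion (fun c => (hfin c).toFinset), Finset.subset_union_left, ?_⟩
  intro ι _ x hx
  obtain ⟨⟨D, hD⟩, hDx⟩ := IsLocalization.exist_integer_multiples_of_finite (nonZeroDivisors (𝓞 K)) x
  choose a ha using hDx
  have hD0 : D ≠ 0 := nonZeroDivisors.ne_zero hD
  have hDK : algebraMap (𝓞 K) K D ≠ 0 := by
    intro h
    exact hD0 (FaithfulSMul.algebraMap_injective (𝓞 K) K (h.trans (map_zero (algebraMap (𝓞 K) K)).symm))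
  have ha' : ∀ i, algebraMap (𝓞 K) K (a i) = algebraMap (𝓞 K) K D * x i := by
    intro i
    have h := ha i
    rw [Algebra.smul_def] at h
    exact h
  have hJ0 : Ideal.span (Set.range a) ≠ ⊥ := by
    intro h
    apply hx
    funext i
    have h1 : a i ∈ Ideal.span (Set.range a) := Ideal.subset_span ⟨i, rfl⟩
    rw [h, Ideal.mem_bot] at h1
    have h2 := ha' i
    rw [h1, map_zero] at h2
    exact (mul_eq_zero.1 h2.symm).resolve_left hDK
  obtain ⟨J, hJ⟩ : ∃ J : nonZeroDivisors (Ideal (𝓞 K)), (J : Ideal (𝓞 K)) = Ideal.span (Set.range a) :=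
    ⟨⟨_, mem_nonZeroDivisors_of_ne_zero hJ0⟩, rfl⟩
  have h1 : ClassGroup.mk0 (J * I (ClassGroup.mk0 J)⁻¹) = 1 := by
    rw [map_mul, hc, mul_inv_cancel]
  have h2 : ((J * I (ClassGroup.mk0 J)⁻¹ : nonZeroDivisors (Ideal (𝓞 K))) : Ideal (𝓞 K)).IsPrincipal :=
    (ClassGroup.mk0_eq_one_iff (J * I (ClassGroup.mk0 J)⁻¹).2).1 h1
  obtain ⟨m, hm⟩ := h2
  have hm' : Ideal.span (Set.range a) * (I (ClassGroup.mk0 J)⁻¹ : Ideal (𝓞 K)) = Ideal.span {m} := by
    rw [← hJ]
    exact hm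
  have hm0 : m ≠ 0 := by
    rintro rfl
    have h3 : ((J * I (ClassGroup.mk0 J)⁻¹ : nonZeroDivisors (Ideal (𝓞 K))) : Ideal (𝓞 K)) ≠ 0 :=
      nonZeroDivisors.ne_zero (J * I (ClassGroup.mk0 J)⁻¹).2
    apply h3
    rw [hm]
    exact Ideal.span_singleton_eq_bot.2 rfl
  have hmK : algebraMap (𝓞 K) K m ≠ 0 := by
    intro h
    exact hm0 (FaithfulSMul.algebraMap_injective (𝓞 K) K (h.trans (map_zero (algebraMap (𝓞 K) K)).symm))
  refine ⟨(algebraMap (𝓞 K) K m)⁻¹ * algebraMap (𝓞 K) K D, mul_ne_zero (inv_ne_zero hmK) hDK, fun v hv => ?_⟩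
  have hvb : v (algebraMap (𝓞 K) K (b (ClassGroup.mk0 J)⁻¹)) = 1 := by
    by_contra h
    apply hv
    rw [Finset.mem_union]
    right
    rw [Finset.mem_biUnion]
    exact ⟨(ClassGroup.mk0 J)⁻¹, Finset.mem_univ _, (hfin _).mem_toFinset.2 h⟩
  have h3 := F1_int v a (b (ClassGroup.mk0 J)⁻¹) m (I (ClassGroup.mk0 J)⁻¹) (hbI _) hvb hm0 hm'
  rw [← h3]
  refine iSup_congr fun i => ?_
  rw [ha' i, mul_assoc]

end LVH
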