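import Pool.Agent.Lib.MP_17a322_ntLH.PDefs

/-! The residue relation is compatible with the ring operations. -/

namespace LVH

open Finset

variable {K : Type} [Field K] {p : ℕ} {π : Pl K p}

theorem Rd.add {x y : K} {a b : ZMod p} (hx : Rd π x a) (hy : Rd π y b) : Rd π (x + y) (a + b) := by
  obtain ⟨h1, rfl⟩ := hx
  obtain ⟨h2, rfl⟩ := hy
  exact ⟨π.V.add_mem _ _ h1 h2, map_add π.ρ ⟨x, h1⟩ ⟨y, h2⟩⟩

theorem Rd.mul {x y : K} {a b : ZMod p} (hx : Rd π x a) (hy : Rd π y b) : Rd π (x * y) (a * b) := by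
  obtain ⟨h1, rfl⟩ := hx
  obtain ⟨h2, rfl⟩ := hy
  exact ⟨π.V.mul_mem _ _ h1 h2, map_mul π.ρ ⟨x, h1⟩ ⟨y, h2⟩⟩

theorem Rd.zero : Rd π (0 : K) 0 := ⟨π.V.zero_mem, map_zero π.ρ⟩

theorem Rd.one : Rd π (1 : K) 1 := ⟨π.V.one_mem, map_one π.ρ⟩

theorem Rd.int (n : ℤ) : Rd π (n : K) (n : ZMod p) := by
  have h : ((n : π.V) : K) = n := by push_cast; rfl
  refine ⟨h ▸ (n : π.V).2, ?_⟩
  have h2 : (⟨(n : K), h ▸ (n : π.V).2⟩ : π.V) = (n : π.V) := Subtype.ext h.symm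
  rw [h2, map_intCast]

theorem Rd.pow {x : K} {a : ZMod p} (hx : Rd π x a) (n : ℕ) : Rd π (x ^ n) (a ^ n) := by
  induction n with
  | zero => simpa using Rd.one
  | succ n ih => rw [pow_succ, pow_succ]; exact ih.mul hx

theorem Rd.sum {τ : Type} (T : Finset τ) {x : τ → K} {a : τ → ZMod p} (h : ∀ t ∈ T, Rd π (x t) (a t)) :
    Rd π (∑ t ∈ T, x t) (∑ t ∈ T, a t) := by
  classical
  induction T using Finset.induction_on with
  | empty => simpa using Rd.zero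
  | insert t T ht ih =>
    rw [sum_insert ht, sum_insert ht]
    exact (h t (mem_insert_self _ _)).add (ih fun i hi => h i (mem_insert_of_mem hi))

theorem Rd.prod {τ : Type} (T : Finset τ) {x : τ → K} {a : τ → ZMod p} (h : ∀ t ∈ T, Rd π (x t) (a t)) :
    Rd π (∏ t ∈ T, x t) (∏ t ∈ T, a t) := by
  classical
  induction T using Finset.induction_on with
  | empty => simpa using Rd.one
  | insert t T ht ih =>
    rw [prod_insert ht, prod_insert ht]
    exact (h t (mem_insert_self _ _)).mul (ih fun i hi => h i (mem_insert_of_mem hi))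

theorem Rd.mprod {τ : Type} (T : Multiset τ) {x : τ → K} {a : τ → ZMod p} (h : ∀ t, Rd π (x t) (a t)) :
    Rd π (T.map x).prod (T.map a).prod := by
  induction T using Multiset.induction_on with
  | empty => simpa using Rd.one
  | cons t T ih =>
    rw [Multiset.map_cons, Multiset.map_cons, Multiset.prod_cons, Multiset.prod_cons]
    exact (h t).mul ih

theorem Rd.mon {ι : Type} {m : ℕ} {x : ι → K} {a : ι → ZMod p} (h : ∀ t, Rd π (x t) (a t)) (α : Sym ι m) :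
    Rd π (LVH.mon x α) (LVH.mon a α) := Rd.mprod _ h

theorem Rd.unique [Fact p.Prime] {x : K} {a b : ZMod p} (h : Rd π x a) (h' : Rd π x b) : a = b := by
  obtain ⟨h1, rfl⟩ := h
  obtain ⟨h2, rfl⟩ := h'
  rfl

theorem Rd.inv [Fact p.Prime] {x : K} {a : ZMod p} (hx : Rd π x a) (h0 : x⁻¹ ∈ π.V) : Rd π x⁻¹ a⁻¹ := by
  rcases eq_or_ne x 0 with rfl | hx0
  · have : a = 0 := hx.unique Rd.zero
    subst this
    rw [inv_zero, inv_zero]
    exact Rd.zero
  have h1 : Rd π x⁻¹ (π.ρ ⟨x⁻¹, h0⟩) := ⟨h0, rfl⟩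
  have h2 := hx.mul h1
  rw [mul_inv_cancel₀ hx0] at h2
  have h3 := h2.unique Rd.one
  rwa [eq_inv_of_mul_eq_one_right h3] at h1

/-- an element which is a unit at the place has a nonzero residue -/
theorem Rd.ne [Fact p.Prime] {x : K} (hx0 : x ≠ 0) {a : ZMod p} (hx : Rd π x a) (h0 : x⁻¹ ∈ π.V) : a ≠ 0 := by
  intro ha
  subst ha
  have h1 : Rd π x⁻¹ (π.ρ ⟨x⁻¹, h0⟩) := ⟨h0, rfl⟩
  have h2 := hx.mul h1
  rw [mul_inv_cancel₀ hx0, zero_mul] at h2
  exact one_ne_zero (Rd.one.unique h2 : (1 : ZMod p) = 0)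

end LVH
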