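import Pool.Agent.Lib.MP_17a322_ntLH.Defs

/-! Interface definitions of the proof. -/

namespace LVH

open Finset NumberField

/-- a place of `K` with residue field the prime field -/
structure Pl (K : Type) [Field K] (p : ℕ) where
  /-- the valuation ring -/
  V : ValuationSubring K
  /-- the residue map -/
  ρ : V →+* ZMod p
  /-- the residue map vanishes on the maximal ideal -/
  ker : ∀ x : V, (x : K)⁻¹ ∉ V → ρ x = 0

/-- `x` is integral at the place and has residue `a` -/
def Rd {K : Type} [Field K] {p : ℕ} (π : Pl K p) (x : K) (a : ZMod p) : Prop := ∃ h : x ∈ π.V, π.ρ ⟨x, h⟩ = a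

/-- there is a prime ideal of norm `p` -/
def D1 (K : Type) [Field K] [NumberField K] (p : ℕ) : Prop := ∃ P : Ideal (𝓞 K), Ideal.absNorm P = p

open Classical in
/-- the primes `p` in `(x / Q, x]` of degree one in `K` such that all prime factors of `p - 1` are at most
`x ^ (1 / A)` -/
noncomputable def SP (K : Type) [Field K] [NumberField K] (A Q x : ℝ) : Finset ℕ :=
  (Ioc ⌊x / Q⌋₊ ⌊x⌋₊).filter fun p => p.Prime ∧ D1 K p ∧ ∀ q : ℕ, q.Prime → q ∣ p - 1 → (q : ℝ) ^ A ≤ x

open Classical in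
/-- the primes `p ≤ t` such that `p - 1` has a prime factor `q` with `q ^ A > x` -/
noncomputable def badm (A x t : ℝ) : Finset ℕ :=
  (Icc 1 ⌊t⌋₊).filter fun p => p.Prime ∧ ∃ q : ℕ, q.Prime ∧ q ∣ p - 1 ∧ x < (q : ℝ) ^ A

/-- pairwise non-proportional nonzero vectors -/
def NP {F ι : Type} [Field F] (T : Finset (ι → F)) : Prop :=
  ∀ x ∈ T, x ≠ 0 ∧ ∀ x' ∈ T, x ≠ x' → ∀ l : F, l • x ≠ x'

/-- the local condition: a point with the given units, or a point at infinity -/
def RR {p j s e : ℕ} (d : Fin s → ℕ) (ω : Fin e → ZMod p) (u : Fin j → ZMod p) (y : Fin s → ZMod p) :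
    Set (Mo j d × Fin e → ZMod p) :=
  {c | (∃ z : Fin s → ZMod p, ∀ i, Fv (co ω c) i (Sum.elim u z) = y i) ∨
    ∃ z : Fin s → ZMod p, z ≠ 0 ∧ ∀ i, Fv (co ω c) i (Sum.elim (fun _ => 0) z) = 0}

end LVH
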