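import Pool.Agent.Lib.MP_17a322_ntLH.F2

/-!
# LEAF F2U: the rank of the group of `S`-units

PROOF.  As F2 (copy its proof), with numbers: `r0` the number of generators of the unit group of `𝓞 K` (independent of `S0`); the image in `S0 → ℤ` is a submodule of a free module of rank `card S0` over a principal ideal domain, so it has at most `card S0` generators (`Submodule.nonempty_basis_of_pid` / `Submodule.finrank_le`).
-/

namespace LVH

open NumberField

open IsDedekindDomain IsDedekindDomain.HeightOneSpectrum in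
private theorem F2U_val {K : Type} [Field K] [NumberField K] (v : HeightOneSpectrum (𝓞 K)) (x : K)
    (h : FinitePlace.mk v x = 1) : v.valuation K x = 1 := by
  rw [FinitePlace.mk_apply, FinitePlace.norm_embedding'] at h
  have h1 : WithZeroMulInt.toNNReal (NumberField.HeightOneSpectrum.absNorm_ne_zero v)
      (v.valuation K x) = 1 := by
    exact_mod_cast h
  exact (WithZeroMulInt.toNNReal_eq_one_iff _ (NumberField.HeightOneSpectrum.absNorm_ne_zero v)
    (NumberField.HeightOneSpectrum.one_lt_absNorm_nnreal v).ne').mp h1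

open IsDedekindDomain IsDedekindDomain.HeightOneSpectrum in
private theorem F2U_unit {K : Type} [Field K] [NumberField K] (u : Kˣ)
    (h : ∀ v : HeightOneSpectrum (𝓞 K), v.valuation K (u : K) = 1) :
    ∃ e : (𝓞 K)ˣ, Units.map (algebraMap (𝓞 K) K : 𝓞 K →* K) e = u := by
  obtain ⟨a, ha⟩ := mem_integers_of_valuation_le_one (R := 𝓞 K) K (u : K) fun v => (h v).le
  obtain ⟨b, hb⟩ := mem_integers_of_valuation_le_one (R := 𝓞 K) K ((u⁻¹ : Kˣ) : K) fun v => by
    have h1 : v.valuation K ((u⁻¹ : Kˣ) : K) = 1 := by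
      rw [Units.val_inv_eq_inv_val, map_inv₀, h v, inv_one]
    exact h1.le
  have hab : a * b = 1 := by
    apply FaithfulSMul.algebraMap_injective (𝓞 K) K
    rw [map_mul, ha, hb, map_one, Units.mul_inv]
  exact ⟨⟨a, b, hab, by rw [mul_comm]; exact hab⟩, Units.ext ha⟩

/-- a submodule with finitely generated image and kernel, with numbers -/
private theorem F2U_gen {A : Type} [AddCommGroup A] (s : Submodule ℤ A) {t : ℕ} {ι : Type} [Fintype ι]
    (f : A →ₗ[ℤ] (ι → ℤ)) (e : Fin t → A) (hes : ∀ i, e i ∈ s)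
    (hk : ∀ u ∈ s, f u = 0 → ∃ c : Fin t → ℤ, u = ∑ i, c i • e i) :
    ∃ (r : ℕ) (g : Fin r → A), r ≤ t + Fintype.card ι ∧ (∀ m, g m ∈ s) ∧
      ∀ u ∈ s, ∃ n : Fin r → ℤ, u = ∑ m, n m • g m := by
  classical
  obtain ⟨n, ⟨b⟩⟩ := Submodule.nonempty_basis_of_pid (Pi.basisFun ℤ ι) (s.map f)
  have hn : n ≤ Fintype.card ι := by
    have h1 := Module.finrank_eq_card_basis b
    have h2 := Submodule.finrank_le (s.map f)
    rw [h1, Fintype.card_fin, Module.finrank_fintype_fun_eq_card] at h2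
    exact h2
  have h1 : ∀ j : Fin n, ∃ a ∈ s, f a = (b j : ι → ℤ) := fun j => Submodule.mem_map.1 (b j).2
  choose a has hfa using h1
  refine ⟨t + n, fun m => Sum.elim e a (finSumFinEquiv.symm m), Nat.add_le_add_left hn t, ?_, ?_⟩
  · intro m
    show Sum.elim e a (finSumFinEquiv.symm m) ∈ s
    rcases finSumFinEquiv.symm m with i | j
    · exact hes i
    · exact has j
  · intro u hu
    have hfu : f u ∈ s.map f := Submodule.mem_map_of_mem hu
    obtain ⟨c, hc⟩ : ∃ c : Fin n → ℤ, f u = ∑ j, c j • f (a j) := by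
      refine ⟨fun j => b.repr ⟨f u, hfu⟩ j, ?_⟩
      have h2 := congrArg (fun z : s.map f => (z : ι → ℤ)) (b.sum_repr ⟨f u, hfu⟩)
      have h3 : ((∑ j, b.repr ⟨f u, hfu⟩ j • b j : s.map f) : ι → ℤ) =
          ∑ j, b.repr ⟨f u, hfu⟩ j • (b j : ι → ℤ) := by
        rw [Submodule.coe_sum]
        exact Finset.sum_congr rfl fun j _ => rfl
      have h4 : f u = ((∑ j, b.repr ⟨f u, hfu⟩ j • b j : s.map f) : ι → ℤ) := h2.symm
      refine (h4.trans h3).trans (Finset.sum_congr rfl fun j _ => ?_)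
      rw [hfa]
    obtain ⟨d, hd⟩ := hk (u - ∑ j, c j • a j)
      (s.sub_mem hu (s.sum_mem fun j _ => s.smul_mem _ (has j))) (by
        rw [map_sub, map_sum, hc, sub_eq_zero]
        exact Finset.sum_congr rfl fun j _ => (map_smul f _ _).symm)
    refine ⟨fun m => Sum.elim d c (finSumFinEquiv.symm m), ?_⟩
    rw [Equiv.sum_comp finSumFinEquiv.symm (fun x => Sum.elim d c x • Sum.elim e a x), Fintype.sum_sum_type]
    show u = ∑ i, d i • e i + ∑ j, c j • a j
    rw [← hd, sub_add_cancel]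

theorem sunit_rank (K : Type) [Field K] [NumberField K] : ∃ r0 : ℕ, ∀ S0 : Finset (FinitePlace K),
    ∃ (r : ℕ) (g : Fin r → K), r ≤ r0 + S0.card ∧ (∀ m, g m ≠ 0 ∧ ∀ v : FinitePlace K, v ∉ S0 → v (g m) = 1) ∧
      ∀ u : K, u ≠ 0 → (∀ v : FinitePlace K, v ∉ S0 → v u = 1) → ∃ n : Fin r → ℤ, u = ∏ m, g m ^ n m := by
  classical
  have hfgU : (⊤ : Submodule ℤ (Additive (𝓞 K)ˣ)).FG := IsNoetherian.noetherian _
  obtain ⟨t, e, he⟩ := Submodule.fg_iff_exists_fin_generating_family.mp hfgU
  refine ⟨t, fun S0 => ?_⟩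
  let f0 : Additive Kˣ →+ (S0 → ℤ) :=
    { toFun := fun u v => Multiplicative.toAdd
        (IsDedekindDomain.HeightOneSpectrum.valuationOfNeZero (K := K) v.1.maximalIdeal
          (Additive.toMul u))
      map_zero' := by
        funext v
        show Multiplicative.toAdd (IsDedekindDomain.HeightOneSpectrum.valuationOfNeZero (K := K)
          v.1.maximalIdeal (1 : Kˣ)) = 0
        rw [map_one]
        rfl
      map_add' := fun a b => by
        funext v
        show Multiplicative.toAdd (IsDedekindDomain.HeightOneSpectrum.valuationOfNeZero (K := K)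
          v.1.maximalIdeal (Additive.toMul a * Additive.toMul b)) = _
        rw [map_mul]
        rfl }
  let s : Submodule ℤ (Additive Kˣ) :=
    { carrier := {u | ∀ v : FinitePlace K, v ∉ S0 → v ((Additive.toMul u : Kˣ) : K) = 1}
      zero_mem' := fun v _ => by
        show v ((1 : Kˣ) : K) = 1
        rw [Units.val_one, map_one]
      add_mem' := fun {a b} ha hb v hv => by
        show v ((Additive.toMul a * Additive.toMul b : Kˣ) : K) = 1
        rw [Units.val_mul, map_mul, ha v hv, hb v hv, one_mul]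
      smul_mem' := fun n a ha v hv => by
        show v (((Additive.toMul a : Kˣ) ^ n : Kˣ) : K) = 1
        rw [Units.val_zpow_eq_zpow_val, map_zpow₀, ha v hv, one_zpow] }
  let g0 : Additive (𝓞 K)ˣ →+ Additive Kˣ :=
    MonoidHom.toAdditive (Units.map (algebraMap (𝓞 K) K : 𝓞 K →* K))
  have hunit : ∀ (w : (𝓞 K)ˣ) (v : FinitePlace K), v ((w : 𝓞 K) : K) = 1 := by
    intro w v
    have h1 : v ((w : 𝓞 K) : K) ≤ 1 :=
      FinitePlace.norm_embedding_eq v _ ▸ FinitePlace.norm_le_one K v.maximalIdeal _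
    have h2 : v (((w⁻¹ : (𝓞 K)ˣ) : 𝓞 K) : K) ≤ 1 :=
      FinitePlace.norm_embedding_eq v _ ▸ FinitePlace.norm_le_one K v.maximalIdeal _
    have h3 : v ((w : 𝓞 K) : K) * v (((w⁻¹ : (𝓞 K)ˣ) : 𝓞 K) : K) = 1 := by
      rw [← map_mul, ← map_mul, Units.mul_inv, map_one, map_one]
    have h4 : 0 ≤ v ((w : 𝓞 K) : K) := apply_nonneg _ _
    nlinarith
  obtain ⟨r, g, hr, hgs, hg⟩ := F2U_gen s f0.toIntLinearMap (fun i => g0 (e i)) (fun i v _ => hunit _ v) (by
    intro u hu1 hu2
    have h2 : ∀ v : IsDedekindDomain.HeightOneSpectrum (𝓞 K),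
        v.valuation K ((Additive.toMul u : Kˣ) : K) = 1 := by
      intro v
      by_cases hv : FinitePlace.mk v ∈ S0
      · have h3 : f0 u = 0 := hu2
        have h4 := congrFun h3 ⟨FinitePlace.mk v, hv⟩
        have h5 : IsDedekindDomain.HeightOneSpectrum.valuationOfNeZero (K := K)
            (FinitePlace.mk v).maximalIdeal (Additive.toMul u) = 1 := h4
        rw [FinitePlace.maximalIdeal_mk] at h5
        rw [← IsDedekindDomain.HeightOneSpectrum.valuationOfNeZero_eq, h5]
        rfl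
      · exact F2U_val v _ (hu1 _ hv)
    obtain ⟨w, hw⟩ := F2U_unit (Additive.toMul u) h2
    have h3 : Additive.ofMul w ∈ Submodule.span ℤ (Set.range e) := he ▸ Submodule.mem_top
    rw [Submodule.mem_span_range_iff_exists_fun] at h3
    obtain ⟨c, hc⟩ := h3
    refine ⟨c, ?_⟩
    have h4 : u = g0 (Additive.ofMul w) := congrArg Additive.ofMul hw.symm
    rw [h4, ← hc, map_sum]
    exact Finset.sum_congr rfl fun i _ => map_zsmul g0 _ _)
  rw [Fintype.card_coe] at hr
  refine ⟨r, fun m => ((Additive.toMul (g m) : Kˣ) : K), hr, fun m => ⟨Units.ne_zero _, hgs m⟩, ?_⟩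
  intro u hu hS
  obtain ⟨c, hc⟩ := hg (Additive.ofMul (Units.mk0 u hu)) hS
  refine ⟨c, ?_⟩
  have h2 : Units.mk0 u hu = ∏ m, (Additive.toMul (g m) : Kˣ) ^ c m := by
    have h3 := congrArg Additive.toMul hc
    rw [toMul_ofMul, toMul_sum] at h3
    rw [h3]
    exact Finset.prod_congr rfl fun m _ => (toMul_zsmul _ _)
  have h3 := congrArg (fun z : Kˣ => (z : K)) h2
  rw [Units.coe_prod] at h3
  refine (show u = _ from h3).trans (Finset.prod_congr rfl fun m _ => ?_)
  rw [Units.val_zpow_eq_zpow_val]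

end LVH
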