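import Mathlib

/-!
# LEAF F3: the `S`-integers of small norm up to `S`-units

PROOF.  For `w` as in the last clause let `I w` be the product of the `v ^ ord_v w` over the `v ∉ S0`, an ideal of `𝓞 K` of norm at most `X` (its logarithm is the sum in the statement).  The number of ideals of norm at most `X` is at most `A X ^ A ≤ X ^ B` (crude bound: there are at most `n = [K : ℚ]` primes over each prime number and the number of ideals of norm `m` is at most the number of `n`-tuples of numbers with product `m`; or the asymptotic formula in Mathlib, or `Pool/Agent/Lib/MP_10e784_ag/EL`).  For each ideal which is an `I w` choose one such `w`; `W` the set of the chosen elements; `m` the norm of `I w`.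
-/

namespace LVH

open NumberField

/-- the number of ideals of bounded norm -/
private theorem F3_count (K : Type) [Field K] [NumberField K] : ∃ B : ℝ, 0 < B ∧ ∀ X : ℝ, 2 ≤ X →
    (Nat.card {I : Ideal (𝓞 K) // (Ideal.absNorm I : ℝ) ≤ X} : ℝ) ≤ X ^ B := by
  have ht := NumberField.Ideal.tendsto_norm_le_div_atTop K
  obtain ⟨L, hL⟩ : ∃ L : ℝ, Filter.Tendsto (fun s : ℝ =>
      (Nat.card {I : Ideal (𝓞 K) // (Ideal.absNorm I : ℝ) ≤ s} : ℝ) / s) Filter.atTop (nhds L) := ⟨_, ht⟩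
  obtain ⟨X1, hX1⟩ := Filter.eventually_atTop.1 (hL.eventually_le_const (show L < L + 1 by linarith))
  obtain ⟨X2, hX2⟩ : ∃ X2 : ℝ, X2 = max X1 2 := ⟨_, rfl⟩
  have hX22 : 2 ≤ X2 := by rw [hX2]; exact le_max_right _ _
  obtain ⟨b, hb⟩ := pow_unbounded_of_one_lt
    (max (L + 1) (Nat.card {I : Ideal (𝓞 K) // (Ideal.absNorm I : ℝ) ≤ X2} : ℝ)) (one_lt_two (α := ℝ))
  have hb1 : L + 1 ≤ 2 ^ b := (le_max_left _ _).trans hb.le
  have hb2 : (Nat.card {I : Ideal (𝓞 K) // (Ideal.absNorm I : ℝ) ≤ X2} : ℝ) ≤ 2 ^ b := (le_max_right _ _).trans hb.le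
  refine ⟨(b + 1 : ℕ), by positivity, fun X hX => ?_⟩
  rw [Real.rpow_natCast]
  have hX0 : (0 : ℝ) < X := by linarith
  have h2X : (2 : ℝ) ^ b ≤ X ^ b := pow_le_pow_left₀ (by norm_num) hX b
  rcases le_total X X2 with h | h
  · have hfin : Finite {I : Ideal (𝓞 K) // (Ideal.absNorm I : ℝ) ≤ X2} := by
      refine Set.Finite.to_subtype (s := {I : Ideal (𝓞 K) | (Ideal.absNorm I : ℝ) ≤ X2}) ?_
      refine (Ideal.finite_setOfPred_absNorm_le (S := 𝓞 K) ⌊X2⌋₊).subset ?_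
      intro I hI
      exact Nat.le_floor hI
    have h1 : Nat.card {I : Ideal (𝓞 K) // (Ideal.absNorm I : ℝ) ≤ X} ≤
        Nat.card {I : Ideal (𝓞 K) // (Ideal.absNorm I : ℝ) ≤ X2} :=
      Nat.card_le_card_of_injective (fun I => ⟨I.1, I.2.trans h⟩) (fun I J hIJ => Subtype.ext (Subtype.mk.inj hIJ))
    calc (Nat.card {I : Ideal (𝓞 K) // (Ideal.absNorm I : ℝ) ≤ X} : ℝ) ≤
          (Nat.card {I : Ideal (𝓞 K) // (Ideal.absNorm I : ℝ) ≤ X2} : ℝ) := by exact_mod_cast h1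
      _ ≤ 2 ^ b := hb2
      _ ≤ X ^ b := h2X
      _ ≤ X ^ (b + 1) := pow_le_pow_right₀ (by linarith) (by omega)
  · have h1 := hX1 X ((le_max_left X1 2).trans (hX2 ▸ h))
    rw [div_le_iff₀ hX0] at h1
    calc (Nat.card {I : Ideal (𝓞 K) // (Ideal.absNorm I : ℝ) ≤ X} : ℝ) ≤ (L + 1) * X := h1
      _ ≤ X ^ b * X := mul_le_mul_of_nonneg_right (hb1.trans h2X) hX0.le
      _ = X ^ (b + 1) := (pow_succ _ _).symm

private theorem F3_one_lt {K : Type} [Field K] [NumberField K] (v : FinitePlace K) :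
    (1 : ℝ) < (Ideal.absNorm v.maximalIdeal.asIdeal : ℝ) := by
  exact_mod_cast NumberField.HeightOneSpectrum.one_lt_absNorm v.maximalIdeal

/-- the values of a finite place are powers of the norm -/
private theorem F3_pow {K : Type} [Field K] [NumberField K] (v : FinitePlace K) (w : K) (hw : w ≠ 0) (h : v w ≤ 1) :
    ∃ n : ℕ, v w = ((Ideal.absNorm v.maximalIdeal.asIdeal : ℝ)⁻¹) ^ n := by
  have hN := F3_one_lt v
  have hN0 : (0 : ℝ) < (Ideal.absNorm v.maximalIdeal.asIdeal : ℝ) := by linarith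
  have hx : v.maximalIdeal.valuation K w ≠ 0 := (Valuation.ne_zero_iff _).2 hw
  obtain ⟨k, hk⟩ : ∃ k : ℤ, v w = (Ideal.absNorm v.maximalIdeal.asIdeal : ℝ) ^ k := by
    refine ⟨(WithZero.unzero hx).toAdd, ?_⟩
    rw [← FinitePlace.norm_embedding_eq, FinitePlace.norm_embedding', WithZeroMulInt.toNNReal_neg_apply _ hx]
    push_cast
    rfl
  have hk0 : k ≤ 0 := by
    by_contra hcon
    push Not at hcon
    have h1 := one_lt_zpow₀ hN hcon
    rw [← hk] at h1
    linarith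
  refine ⟨(-k).toNat, ?_⟩
  rw [hk, inv_pow, ← zpow_natCast, ← zpow_neg]
  congr 1
  omega

/-- the exponents are determined by the ideal -/
private theorem F3_le {K : Type} [Field K] [NumberField K] {T : Finset (FinitePlace K)} {n n' : FinitePlace K → ℕ}
    (h : ∏ v ∈ T, v.maximalIdeal.asIdeal ^ n v = ∏ v ∈ T, v.maximalIdeal.asIdeal ^ n' v) (v : FinitePlace K)
    (hv : v ∈ T) : n v ≤ n' v := by
  classical
  have hp : Prime v.maximalIdeal.asIdeal := v.maximalIdeal.prime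
  have h1 : v.maximalIdeal.asIdeal ^ n v ∣ ∏ v ∈ T, v.maximalIdeal.asIdeal ^ n v :=
    Finset.dvd_prod_of_mem (fun v : FinitePlace K => v.maximalIdeal.asIdeal ^ n v) hv
  rw [h, ← Finset.mul_prod_erase _ _ hv] at h1
  have h2 : ¬ v.maximalIdeal.asIdeal ∣ ∏ u ∈ T.erase v, u.maximalIdeal.asIdeal ^ n' u := by
    intro h3
    obtain ⟨u, hu, h4⟩ := hp.exists_mem_finset_dvd h3
    have h5 := hp.dvd_of_dvd_pow h4
    have h6 : u.maximalIdeal.asIdeal ≤ v.maximalIdeal.asIdeal := Ideal.le_of_dvd h5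
    have h7 := u.maximalIdeal.isMaximal.eq_of_le v.maximalIdeal.isPrime.ne_top h6
    have h8 : u.maximalIdeal = v.maximalIdeal := IsDedekindDomain.HeightOneSpectrum.ext h7
    exact (Finset.mem_erase.1 hu).1 ((FinitePlace.maximalIdeal_inj u v).1 h8)
  have h3 := hp.pow_dvd_of_dvd_mul_right (n v) h2 h1
  exact (pow_dvd_pow_iff hp.ne_zero hp.not_isUnit).1 h3

private theorem F3_inj {K : Type} [Field K] [NumberField K] {T T' : Finset (FinitePlace K)} {n n' : FinitePlace K → ℕ}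
    (hn : ∀ v, v ∉ T → n v = 0) (hn' : ∀ v, v ∉ T' → n' v = 0)
    (h : ∏ v ∈ T, v.maximalIdeal.asIdeal ^ n v = ∏ v ∈ T', v.maximalIdeal.asIdeal ^ n' v) (v : FinitePlace K) :
    n v = n' v := by
  classical
  have h1 : ∏ v ∈ T, v.maximalIdeal.asIdeal ^ n v = ∏ v ∈ T ∪ T', v.maximalIdeal.asIdeal ^ n v := by
    refine Finset.prod_subset Finset.subset_union_left fun v _ hv => ?_
    rw [hn v hv, pow_zero]
  have h2 : ∏ v ∈ T', v.maximalIdeal.asIdeal ^ n' v = ∏ v ∈ T ∪ T', v.maximalIdeal.asIdeal ^ n' v := by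
    refine Finset.prod_subset Finset.subset_union_right fun v _ hv => ?_
    rw [hn' v hv, pow_zero]
  rw [h1, h2] at h
  by_cases hv : v ∈ T ∪ T'
  · exact le_antisymm (F3_le h v hv) (F3_le h.symm v hv)
  · rw [Finset.mem_union] at hv
    push Not at hv
    rw [hn v hv.1, hn' v hv.2]

open Classical in
/-- the ideal of an element -/
private theorem F3_ideal {K : Type} [Field K] [NumberField K] (S0 : Finset (FinitePlace K)) (w : K) (hw : w ≠ 0)
    (hv : ∀ v : FinitePlace K, v ∉ S0 → v w ≤ 1) :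
    ∃ (n : FinitePlace K → ℕ) (T : Finset (FinitePlace K)),
      (∀ v, v ∉ S0 → v w = ((Ideal.absNorm v.maximalIdeal.asIdeal : ℝ)⁻¹) ^ n v) ∧ (∀ v, v ∉ T → n v = 0) ∧
      (∑ᶠ v : FinitePlace K, if v ∈ S0 then 0 else - Real.log (v w)) =
        Real.log (Ideal.absNorm (∏ v ∈ T, v.maximalIdeal.asIdeal ^ n v)) := by
  have h1 : ∀ v : FinitePlace K, ∃ n : ℕ, (v ∉ S0 → v w = ((Ideal.absNorm v.maximalIdeal.asIdeal : ℝ)⁻¹) ^ n) ∧
      (v ∈ S0 → n = 0) ∧ (v w = 1 → n = 0) := by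
    intro v
    by_cases hvS : v ∈ S0
    · exact ⟨0, fun h => absurd hvS h, fun _ => rfl, fun _ => rfl⟩
    · obtain ⟨n, hn⟩ := F3_pow v w hw (hv v hvS)
      refine ⟨n, fun _ => hn, fun h => absurd h hvS, fun h => ?_⟩
      rw [hn, inv_pow, inv_eq_one] at h
      by_contra hn0
      have h2 := one_lt_pow₀ (F3_one_lt v) hn0
      linarith
  choose n hn1 hn2 hn3 using h1
  have hfin : (Function.mulSupport fun v : FinitePlace K => v w).Finite := FinitePlace.hasFiniteMulSupport hw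
  have hT : ∀ v, v ∉ hfin.toFinset → n v = 0 := by
    intro v hv
    rw [Set.Finite.mem_toFinset, Function.notMem_mulSupport] at hv
    exact hn3 v hv
  refine ⟨n, hfin.toFinset, fun v => hn1 v, hT, ?_⟩
  rw [finsum_eq_sum_of_support_subset (s := hfin.toFinset), map_prod, Nat.cast_prod, Real.log_prod]
  · refine Finset.sum_congr rfl fun v _ => ?_
    rw [map_pow, Nat.cast_pow, Real.log_pow]
    by_cases hvS : v ∈ S0
    · rw [if_pos hvS, hn2 v hvS]
      simp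
    · rw [if_neg hvS, hn1 v hvS, inv_pow, Real.log_inv, Real.log_pow]
      ring
  · intro v _
    rw [map_pow, Nat.cast_pow]
    have := F3_one_lt v
    positivity
  · intro v hv
    rw [Function.mem_support] at hv
    rw [Set.Finite.coe_toFinset, Function.mem_mulSupport]
    intro h
    refine hv ?_
    split_ifs
    · rfl
    · rw [h, Real.log_one, neg_zero]

open Classical in
theorem ideal_reps (K : Type) [Field K] [NumberField K] : ∃ B : ℝ, 0 < B ∧
    (∀ X : ℝ, 2 ≤ X → (Nat.card {I : Ideal (𝓞 K) // (Ideal.absNorm I : ℝ) ≤ X} : ℝ) ≤ X ^ B) ∧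
    ∀ (S0 : Finset (FinitePlace K)) (X : ℝ), 2 ≤ X → ∃ W : Finset K, (W.card : ℝ) ≤ X ^ B ∧
      (∀ g ∈ W, g ≠ 0 ∧ ∃ m : ℕ, m ≠ 0 ∧ (m : ℝ) ≤ X ∧ ∀ v : FinitePlace K, v ∉ S0 → v (m : K) = 1 → v g = 1) ∧
      ∀ w : K, w ≠ 0 → (∀ v : FinitePlace K, v ∉ S0 → v w ≤ 1) →
        (∑ᶠ v : FinitePlace K, if v ∈ S0 then 0 else - Real.log (v w)) ≤ Real.log X →
          ∃ g ∈ W, ∀ v : FinitePlace K, v ∉ S0 → v w = v g := by
  obtain ⟨B, hB, hcount⟩ := F3_count K
  refine ⟨B, hB, hcount, fun S0 X hX => ?_⟩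
  have hX0 : (0 : ℝ) < X := by linarith
  obtain ⟨P, hP⟩ : ∃ P : K → Prop, ∀ w, P w ↔ (w ≠ 0 ∧ (∀ v : FinitePlace K, v ∉ S0 → v w ≤ 1) ∧
    (∑ᶠ v : FinitePlace K, if v ∈ S0 then 0 else - Real.log (v w)) ≤ Real.log X) := ⟨_, fun _ => Iff.rfl⟩
  have h1 : ∀ w : K, ∃ (n : FinitePlace K → ℕ) (T : Finset (FinitePlace K)), P w →
      (∀ v, v ∉ S0 → v w = ((Ideal.absNorm v.maximalIdeal.asIdeal : ℝ)⁻¹) ^ n v) ∧ (∀ v, v ∉ T → n v = 0) ∧
      (∑ᶠ v : FinitePlace K, if v ∈ S0 then 0 else - Real.log (v w)) =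
        Real.log (Ideal.absNorm (∏ v ∈ T, v.maximalIdeal.asIdeal ^ n v)) := by
    intro w
    by_cases hw : P w
    · obtain ⟨n, T, h⟩ := F3_ideal S0 w ((hP w).1 hw).1 ((hP w).1 hw).2.1
      exact ⟨n, T, fun _ => h⟩
    · exact ⟨0, ∅, fun h => absurd h hw⟩
  choose n T hnT using h1
  obtain ⟨I, hI⟩ : ∃ I : K → Ideal (𝓞 K), ∀ w, I w = ∏ v ∈ T w, v.maximalIdeal.asIdeal ^ n w v := ⟨_, fun _ => rfl⟩
  have hI0 : ∀ w, Ideal.absNorm (I w) ≠ 0 := by
    intro w
    rw [hI w, map_prod, Finset.prod_ne_zero_iff]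
    intro v _
    rw [map_pow]
    refine pow_ne_zero _ ?_
    have h2 := F3_one_lt v
    intro h3
    rw [h3, Nat.cast_zero] at h2
    linarith
  have hIX : ∀ w, P w → (Ideal.absNorm (I w) : ℝ) ≤ X := by
    intro w hw
    have h2 := ((hP w).1 hw).2.2
    rw [(hnT w hw).2.2, ← hI w] at h2
    exact (Real.log_le_log_iff (by exact_mod_cast Nat.pos_of_ne_zero (hI0 w)) hX0).1 h2
  have hfin : {J : Ideal (𝓞 K) | (Ideal.absNorm J : ℝ) ≤ X}.Finite := by
    refine (Ideal.finite_setOfPred_absNorm_le (S := 𝓞 K) ⌊X⌋₊).subset ?_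
    intro J hJ
    exact Nat.le_floor hJ
  have hrep : ∀ J : Ideal (𝓞 K), ∃ g : K, (∃ w, P w ∧ I w = J) → P g ∧ I g = J := by
    intro J
    by_cases h : ∃ w, P w ∧ I w = J
    · obtain ⟨w, hw⟩ := h
      exact ⟨w, fun _ => hw⟩
    · exact ⟨0, fun h' => absurd h' h⟩
  choose rep hrep using hrep
  refine ⟨(hfin.toFinset.filter fun J => ∃ w, P w ∧ I w = J).image rep, ?_, ?_, ?_⟩
  · refine le_trans ?_ (hcount X hX)
    have h2 : Nat.card {J : Ideal (𝓞 K) // (Ideal.absNorm J : ℝ) ≤ X} = hfin.toFinset.card :=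
      Nat.card_eq_card_finite_toFinset hfin
    rw [h2]
    exact_mod_cast Finset.card_image_le.trans (Finset.card_filter_le _ _)
  · intro g hg
    obtain ⟨J, hJ, rfl⟩ := Finset.mem_image.1 hg
    obtain ⟨hJ1, hJ2⟩ := hrep J (Finset.mem_filter.1 hJ).2
    refine ⟨((hP _).1 hJ1).1, Ideal.absNorm (I (rep J)), hI0 _, hIX _ hJ1, fun v hv hm => ?_⟩
    rw [(hnT _ hJ1).1 v hv]
    have h3 : n (rep J) v = 0 := by
      by_contra h4
      have h5 : v ∈ T (rep J) := by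
        by_contra h6
        exact h4 ((hnT _ hJ1).2.1 v h6)
      have h6 : v.maximalIdeal.asIdeal ∣ I (rep J) := by
        rw [hI]
        exact (dvd_pow_self _ h4).trans
          (Finset.dvd_prod_of_mem (fun v : FinitePlace K => v.maximalIdeal.asIdeal ^ n (rep J) v) h5)
      have h7 : ((Ideal.absNorm (I (rep J)) : ℕ) : 𝓞 K) ∈ v.maximalIdeal.asIdeal :=
        Ideal.le_of_dvd h6 (Ideal.absNorm_mem _)
      have h8 := (FinitePlace.norm_lt_one_iff_mem K v.maximalIdeal _).2 h7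
      rw [map_natCast, FinitePlace.norm_embedding_eq, hm] at h8
      exact lt_irrefl _ h8
    rw [h3, pow_zero]
  · intro w hw hv hs
    have hPw : P w := (hP w).2 ⟨hw, hv, hs⟩
    obtain ⟨hg1, hg2⟩ := hrep (I w) ⟨w, hPw, rfl⟩
    refine ⟨rep (I w), Finset.mem_image.2 ⟨I w, Finset.mem_filter.2
      ⟨hfin.mem_toFinset.2 (hIX w hPw), ⟨w, hPw, rfl⟩⟩, rfl⟩, fun v hvS => ?_⟩
    have hg3 := (hI (rep (I w))).symm.trans (hg2.trans (hI w))
    have h3 := F3_inj (hnT _ hg1).2.1 (hnT w hPw).2.1 hg3 v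
    rw [(hnT w hPw).1 v hvS, (hnT _ hg1).1 v hvS, h3]

end LVH
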