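import Pool.Agent.Lib.MP_17a322_ntLH.F8

/-!
# LEAF F9: the places of small norm

PROOF.  `exists_M1`: the product over `S` of the norms `Ideal.absNorm v.maximalIdeal.asIdeal`.  `card_places`: `v ↦ v.maximalIdeal.asIdeal` is injective.
-/

namespace LVH

open NumberField

private theorem F9_lt {K : Type} [Field K] [NumberField K] (v : FinitePlace K) (n : ℕ) :
    v (n : K) < 1 ↔ ((n : ℕ) : 𝓞 K) ∈ v.maximalIdeal.asIdeal := by
  rw [← FinitePlace.norm_lt_one_iff_mem K, FinitePlace.norm_embedding_eq, map_natCast (algebraMap (𝓞 K) K)]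

theorem exists_M1 (K : Type) [Field K] [NumberField K] (S : Finset (FinitePlace K)) :
    ∃ M : ℕ, M ≠ 0 ∧ (∀ v ∈ S, v (M : K) < 1) ∧
      Real.log M ≤ ∑ v ∈ S, Real.log (Ideal.absNorm v.maximalIdeal.asIdeal : ℝ) := by
  classical
  have h0 : ∀ v : FinitePlace K, Ideal.absNorm v.maximalIdeal.asIdeal ≠ 0 := fun v =>
    Ideal.absNorm_eq_zero_iff.not.mpr v.maximalIdeal.ne_bot
  refine ⟨∏ v ∈ S, Ideal.absNorm v.maximalIdeal.asIdeal, ?_, ?_, ?_⟩
  · rw [Finset.prod_ne_zero_iff]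
    intro v _
    exact h0 v
  · intro v hv
    have h1 : ((∏ v ∈ S, Ideal.absNorm v.maximalIdeal.asIdeal : ℕ) : 𝓞 K) ∈ v.maximalIdeal.asIdeal := by
      rw [← Finset.mul_prod_erase S _ hv, Nat.cast_mul]
      exact Ideal.mul_mem_right _ _ (Ideal.absNorm_mem _)
    exact (F9_lt v _).2 h1
  · rw [Nat.cast_prod, Real.log_prod fun v _ => Nat.cast_ne_zero.2 (h0 v)]

theorem card_places (K : Type) [Field K] [NumberField K] (S : Finset (FinitePlace K)) (y : ℝ)
    (h : ∀ v ∈ S, (Ideal.absNorm v.maximalIdeal.asIdeal : ℝ) ≤ y) :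
    S.card ≤ Nat.card {I : Ideal (𝓞 K) // (Ideal.absNorm I : ℝ) ≤ y} := by
  have hf : {I : Ideal (𝓞 K) | (Ideal.absNorm I : ℝ) ≤ y}.Finite := by
    refine (Ideal.finite_setOfPred_absNorm_le (S := 𝓞 K) ⌊y⌋₊).subset ?_
    intro I hI
    exact Nat.le_floor hI
  have : Finite {I : Ideal (𝓞 K) // (Ideal.absNorm I : ℝ) ≤ y} := hf.to_subtype
  have h1 : Nat.card S ≤ Nat.card {I : Ideal (𝓞 K) // (Ideal.absNorm I : ℝ) ≤ y} := by
    refine Nat.card_le_card_of_injective (fun v : S => ⟨v.1.maximalIdeal.asIdeal, h v.1 v.2⟩) ?_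
    intro v w hvw
    have h2 : v.1.maximalIdeal.asIdeal = w.1.maximalIdeal.asIdeal := congrArg Subtype.val hvw
    exact Subtype.ext (FinitePlace.maximalIdeal_injective (IsDedekindDomain.HeightOneSpectrum.ext h2))
  rwa [Nat.card_eq_fintype_card, Fintype.card_coe] at h1

end LVH
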