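import Pool.Agent.Lib.MP_17a322_ntLH.E1

/-!
# LEAF E2: the number of forms with given values

PROOF.  The additive map `a ↦ (fv a x)_(x ∈ T)` from `Sym ι m → ZMod p` to `T → ZMod p` is surjective by `ev`; all fibres have the same number of elements.
-/

namespace LVH

open Finset

/-- the values at the points of `T` -/
private def E2_ev {p : ℕ} {ι : Type} [Fintype ι] [DecidableEq ι] (m : ℕ) (T : Finset (ι → ZMod p)) :
    (Sym ι m → ZMod p) →+ (T → ZMod p) where
  toFun a x := fv a x.1
  map_zero' := by
    funext x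
    simp [fv]
  map_add' a b := by
    funext x
    simp only [fv, Pi.add_apply, add_mul, sum_add_distrib]

private theorem E2_fiber {G H : Type} [AddCommGroup G] [AddCommGroup H] [Finite G] [Finite H] (f : G →+ H)
    (hf : Function.Surjective f) (y : H) : Nat.card {a // f a = y} * Nat.card H = Nat.card G := by
  obtain ⟨a0, ha0⟩ := hf y
  have h1 : Nat.card {a // f a = y} = Nat.card f.ker := by
    refine Nat.card_congr
      { toFun := fun a => ⟨a.1 - a0, by rw [AddMonoidHom.mem_ker, map_sub, a.2, ha0, sub_self]⟩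
        invFun := fun b => ⟨b.1 + a0, by rw [map_add, AddMonoidHom.mem_ker.1 b.2, zero_add, ha0]⟩
        left_inv := fun a => Subtype.ext (sub_add_cancel _ _)
        right_inv := fun b => Subtype.ext (add_sub_cancel_right _ _) }
  have h2 : Nat.card H = f.ker.index := by
    rw [AddSubgroup.index_ker, AddMonoidHom.range_eq_top.2 hf]
    exact (Nat.card_congr (AddSubgroup.topEquiv (G := H)).toEquiv).symm
  rw [h1, h2]
  exact f.ker.card_mul_index

theorem cnt {p : ℕ} [Fact p.Prime] {ι : Type} [Fintype ι] [DecidableEq ι] (m : ℕ) (T : Finset (ι → ZMod p)) (hT : NP T)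
    (hc : T.card ≤ m + 1) (v : (ι → ZMod p) → ZMod p) :
    Nat.card {a : Sym ι m → ZMod p // ∀ x ∈ T, fv a x = v x} * p ^ T.card = p ^ Fintype.card (Sym ι m) := by
  classical
  have hsurj : Function.Surjective (E2_ev m T) := by
    intro w
    obtain ⟨a, ha⟩ := ev m T hT hc fun x => if h : x ∈ T then w ⟨x, h⟩ else 0
    refine ⟨a, ?_⟩
    funext x
    show fv a x.1 = w x
    rw [ha x.1 x.2, dif_pos x.2]
  have h1 := E2_fiber (E2_ev m T) hsurj fun x => v x.1
  have h2 : Nat.card {a : Sym ι m → ZMod p // ∀ x ∈ T, fv a x = v x} =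
      Nat.card {a : Sym ι m → ZMod p // E2_ev m T a = fun x => v x.1} := by
    refine Nat.card_congr (Equiv.subtypeEquivRight fun a => ?_)
    constructor
    · intro h
      funext x
      exact h x.1 x.2
    · intro h x hx
      exact congrFun h ⟨x, hx⟩
  rw [Nat.card_fun, Nat.card_fun, Nat.card_zmod, Nat.card_eq_fintype_card (α := T), Fintype.card_coe,
    Nat.card_eq_fintype_card (α := Sym ι m)] at h1
  rw [h2]
  exact h1

end LVH
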