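import Pool.Agent.Lib.MP_17a322_ntLH.E4A

/-!
# LEAF E4B: three-wise independence

PROOF.  For `U ⊆ T` with at most three elements, `#{a | ∀ t ∈ U, X t a ∈ Y t} * p ^ #U = #Ω ∏_(t ∈ U) #(Y t)` (sum of `h` over the `v` in the product of the `Y t`).  For `a` let `n` be the number of `t ∈ T` with `X t a ∈ Y t`; if `n ≥ 1` then `1 ≤ n - choose n 2 + choose n 3` (Bonferroni; `choose n k` is the number of `U ∈ T.powersetCard k` with `∀ t ∈ U, X t a ∈ Y t`), and the right side is `≥ 0` for `n = 0`.  Sum over `a` and use `esym_le` with `f t = #(Y t) / p`, `D / p`.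
-/

namespace LVH

open Finset

private theorem E4B_choose (n : ℕ) : (n : ℤ) ≤ 1 + (n.choose 2 : ℤ) := by
  induction n with
  | zero => simp
  | succ n ih =>
    have h1 : (n + 1).choose 2 = n + n.choose 2 := by
      rw [Nat.choose_succ_succ' n 1, Nat.choose_one_right]
    rw [h1]
    push_cast
    rcases Nat.eq_zero_or_pos n with rfl | hn
    · simp
    · have : (1 : ℤ) ≤ n := by exact_mod_cast hn
      have h2 : (0 : ℤ) ≤ (n.choose 2 : ℤ) := Int.natCast_nonneg _
      linarith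

private theorem E4B_bonf (n : ℕ) : (if 0 < n then 1 else 0 : ℤ) ≤ n - n.choose 2 + n.choose 3 := by
  induction n with
  | zero => simp
  | succ n ih =>
    have h1 : (n + 1).choose 2 = n + n.choose 2 := by
      rw [Nat.choose_succ_succ' n 1, Nat.choose_one_right]
    have h2 : (n + 1).choose 3 = n.choose 2 + n.choose 3 := Nat.choose_succ_succ' n 2
    have h3 := E4B_choose n
    rw [if_pos (Nat.succ_pos n), h1, h2]
    push_cast
    rcases Nat.eq_zero_or_pos n with rfl | hn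
    · simp
    · rw [if_pos hn] at ih
      linarith

/-- The number of the `a` with `X t a ∈ Y t` for all `t ∈ U`. -/
private theorem E4B_count {Ω τ : Type} [Fintype Ω] [DecidableEq τ] [DecidableEq Ω] (p : ℕ) [NeZero p] (X : τ → Ω → ZMod p)
    (U : Finset τ) (h : ∀ v : τ → ZMod p, Nat.card {a : Ω // ∀ t ∈ U, X t a = v t} * p ^ U.card = Fintype.card Ω)
    (Y : τ → Finset (ZMod p)) :
    (univ.filter fun a : Ω => ∀ t ∈ U, X t a ∈ Y t).card * p ^ U.card = Fintype.card Ω * ∏ t ∈ U, (Y t).card := by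
  classical
  have h1 : (univ.filter fun a : Ω => ∀ t ∈ U, X t a ∈ Y t).card =
      ∑ v ∈ U.pi Y, (univ.filter fun a : Ω => ∀ t, ∀ ht : t ∈ U, X t a = v t ht).card := by
    rw [← card_biUnion]
    · congr 1
      ext a
      rw [mem_filter, mem_biUnion]
      constructor
      · rintro ⟨-, ha⟩
        exact ⟨fun t _ => X t a, mem_pi.2 fun t ht => ha t ht, mem_filter.2 ⟨mem_univ _, fun t _ => rfl⟩⟩
      · rintro ⟨v, hv, ha⟩
        refine ⟨mem_univ _, fun t ht => ?_⟩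
        rw [(mem_filter.1 ha).2 t ht]
        exact mem_pi.1 hv t ht
    · intro v _ w _ hvw
      rw [Function.onFun, disjoint_left]
      intro a ha hb
      apply hvw
      funext t ht
      rw [← (mem_filter.1 ha).2 t ht, (mem_filter.1 hb).2 t ht]
  rw [h1, sum_mul]
  have h2 : ∀ v ∈ U.pi Y, (univ.filter fun a : Ω => ∀ t, ∀ ht : t ∈ U, X t a = v t ht).card * p ^ U.card =
      Fintype.card Ω := by
    intro v _
    rw [← h fun t => if ht : t ∈ U then v t ht else 0]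
    congr 1
    rw [Nat.card_eq_fintype_card, Fintype.card_subtype]
    congr 1
    refine filter_congr fun a _ => forall_congr' fun t => forall_congr' fun ht => ?_
    rw [dif_pos ht]
  rw [sum_congr rfl h2, sum_const, card_pi, smul_eq_mul, mul_comm]

theorem bonf {Ω τ : Type} [Fintype Ω] [DecidableEq τ] (p : ℕ) [NeZero p] (X : τ → Ω → ZMod p) (T : Finset τ)
    (h : ∀ U ⊆ T, U.card ≤ 3 → ∀ v : τ → ZMod p, Nat.card {a : Ω // ∀ t ∈ U, X t a = v t} * p ^ U.card = Fintype.card Ω)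
    (Y : τ → Finset (ZMod p)) (D : ℝ) (hD : ∀ t ∈ T, ((Y t).card : ℝ) ≤ D)
    (hY : (∑ t ∈ T, ((Y t).card : ℝ)) ≤ 3 / 2 * p) (hD0 : 0 ≤ D) :
    (Nat.card {a : Ω // ∃ t ∈ T, X t a ∈ Y t} : ℝ) ≤ (15 / 16 + D / p) * Fintype.card Ω := by
  classical
  have hp : (0 : ℝ) < p := by exact_mod_cast Nat.pos_of_ne_zero (NeZero.ne p)
  obtain ⟨f, hf⟩ : ∃ f : τ → ℝ, f = fun t => ((Y t).card : ℝ) / p := ⟨_, rfl⟩
  -- the numbers of the `a` which satisfy the conditions in `U`
  have hN : ∀ U ⊆ T, U.card ≤ 3 → (((univ.filter fun a : Ω => ∀ t ∈ U, X t a ∈ Y t).card : ℕ) : ℝ) =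
      Fintype.card Ω * ∏ t ∈ U, f t := by
    intro U hU hU3
    have h1 := E4B_count p X U (h U hU hU3) Y
    have h2 : (((univ.filter fun a : Ω => ∀ t ∈ U, X t a ∈ Y t).card : ℕ) : ℝ) * (p : ℝ) ^ U.card =
        Fintype.card Ω * ∏ t ∈ U, ((Y t).card : ℝ) := by exact_mod_cast h1
    have h3 : ∏ t ∈ U, f t = (∏ t ∈ U, ((Y t).card : ℝ)) / (p : ℝ) ^ U.card := by
      rw [hf, prod_div_distrib, prod_const]
    rw [h3, mul_div_assoc', eq_div_iff (pow_pos hp _).ne', h2]
  -- Bonferroni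
  have hB : ∀ a : Ω, (if ∃ t ∈ T, X t a ∈ Y t then 1 else 0 : ℤ) ≤
      ∑ t ∈ T, (if X t a ∈ Y t then 1 else 0 : ℤ) -
        ∑ U ∈ T.powersetCard 2, (if ∀ t ∈ U, X t a ∈ Y t then 1 else 0 : ℤ) +
        ∑ U ∈ T.powersetCard 3, (if ∀ t ∈ U, X t a ∈ Y t then 1 else 0 : ℤ) := by
    intro a
    obtain ⟨S, hS⟩ : ∃ S : Finset τ, S = T.filter fun t => X t a ∈ Y t := ⟨_, rfl⟩
    have h1 : ∑ t ∈ T, (if X t a ∈ Y t then 1 else 0 : ℤ) = S.card := by
      rw [hS, sum_boole]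
    have h2 : ∀ k, ∑ U ∈ T.powersetCard k, (if ∀ t ∈ U, X t a ∈ Y t then 1 else 0 : ℤ) = S.card.choose k := by
      intro k
      rw [sum_boole, ← card_powersetCard]
      congr 1
      congr 1
      ext U
      rw [mem_filter, mem_powersetCard, mem_powersetCard, hS]
      constructor
      · rintro ⟨⟨h3, h4⟩, h5⟩
        exact ⟨fun t ht => mem_filter.2 ⟨h3 ht, h5 t ht⟩, h4⟩
      · rintro ⟨h3, h4⟩
        exact ⟨⟨fun t ht => (mem_filter.1 (h3 ht)).1, h4⟩, fun t ht => (mem_filter.1 (h3 ht)).2⟩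
    rw [h1, h2, h2]
    have h3 : (∃ t ∈ T, X t a ∈ Y t) ↔ 0 < S.card := by
      rw [card_pos, hS]
      constructor
      · rintro ⟨t, ht, h4⟩
        exact ⟨t, mem_filter.2 ⟨ht, h4⟩⟩
      · rintro ⟨t, ht⟩
        exact ⟨t, mem_filter.1 ht⟩
    have h4 := E4B_bonf S.card
    by_cases h5 : 0 < S.card
    · rw [if_pos (h3.2 h5)]
      rwa [if_pos h5] at h4
    · rw [if_neg fun h6 => h5 (h3.1 h6)]
      rwa [if_neg h5] at h4
  have hsum := sum_le_sum fun a (_ : a ∈ (univ : Finset Ω)) => hB a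
  rw [sum_add_distrib, sum_sub_distrib, sum_comm (s := univ) (t := T), sum_comm (s := univ) (t := T.powersetCard 2),
    sum_comm (s := univ) (t := T.powersetCard 3)] at hsum
  simp only [sum_boole] at hsum
  have hsum' : ((univ.filter fun a : Ω => ∃ t ∈ T, X t a ∈ Y t).card : ℝ) ≤
      ∑ t ∈ T, ((univ.filter fun a : Ω => X t a ∈ Y t).card : ℝ) -
        ∑ U ∈ T.powersetCard 2, ((univ.filter fun a : Ω => ∀ t ∈ U, X t a ∈ Y t).card : ℝ) +
        ∑ U ∈ T.powersetCard 3, ((univ.filter fun a : Ω => ∀ t ∈ U, X t a ∈ Y t).card : ℝ) := by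
    exact_mod_cast hsum
  have e1 : ∑ t ∈ T, ((univ.filter fun a : Ω => X t a ∈ Y t).card : ℝ) = Fintype.card Ω * ∑ t ∈ T, f t := by
    rw [mul_sum]
    refine sum_congr rfl fun t ht => ?_
    have h1 := hN {t} (singleton_subset_iff.2 ht) (by rw [card_singleton]; norm_num)
    rw [prod_singleton] at h1
    rw [← h1]
    congr 2
    ext a
    simp
  have e2 : ∀ k ≤ 3, ∑ U ∈ T.powersetCard k, ((univ.filter fun a : Ω => ∀ t ∈ U, X t a ∈ Y t).card : ℝ) =
      Fintype.card Ω * ∑ U ∈ T.powersetCard k, ∏ t ∈ U, f t := by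
    intro k hk
    rw [mul_sum]
    refine sum_congr rfl fun U hU => ?_
    obtain ⟨h1, h2⟩ := mem_powersetCard.1 hU
    exact hN U h1 (by omega)
  rw [e1, e2 2 (by norm_num), e2 3 le_rfl] at hsum'
  have hes := esym_le T f (D / p) (fun t _ => by rw [hf]; positivity)
    (fun t ht => by rw [hf]; exact div_le_div_of_nonneg_right (hD t ht) hp.le) (by
      rw [hf, ← sum_div, div_le_iff₀ hp]
      exact hY) (div_nonneg hD0 hp.le)
  have hcard : Nat.card {a : Ω // ∃ t ∈ T, X t a ∈ Y t} = (univ.filter fun a : Ω => ∃ t ∈ T, X t a ∈ Y t).card := by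
    rw [Nat.card_eq_fintype_card, Fintype.card_subtype]
  rw [hcard]
  refine hsum'.trans ?_
  have h9 := mul_le_mul_of_nonneg_left hes (Nat.cast_nonneg (α := ℝ) (Fintype.card Ω))
  linarith

end LVH
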