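import Mathlib

/-! Integral points on the complement of hypersurfaces: forms with coefficients in a lattice, the definitions of the
final statement. -/

namespace LVH

open Finset

/-- the variables: `j` coordinates which have to be units and `s` free coordinates -/
abbrev Vr (j s : ℕ) : Type := Fin j ⊕ Fin s

/-- the index set of the coefficients of `s` forms in these variables, the `i`-th of degree `d i`; the monomials of
degree `m` are the multisets of `m` variables -/
abbrev Mo (j : ℕ) {s : ℕ} (d : Fin s → ℕ) : Type := (i : Fin s) × Sym (Vr j s) (d i)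

/-- the value at `x` of the monomial `α` -/
def mon {R ι : Type} [CommRing R] {m : ℕ} (x : ι → R) (α : Sym ι m) : R := ((α : Multiset ι).map x).prod

/-- the value at `x` of the form of degree `m` with coefficients `a` -/
def fv {R ι : Type} [CommRing R] [Fintype ι] [DecidableEq ι] {m : ℕ} (a : Sym ι m → R) (x : ι → R) : R :=
  ∑ α : Sym ι m, a α * mon x α

/-- the coefficients `∑ k, c (t, k) ω k` in the lattice spanned by the `ω k` -/
def co {R τ : Type} [CommRing R] {e : ℕ} (ω : Fin e → R) (c : τ × Fin e → R) (t : τ) : R := ∑ k, c (t, k) * ω k

/-- the value at `x` of the `i`-th form -/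
def Fv {R : Type} [CommRing R] {j s : ℕ} {d : Fin s → ℕ} (a : Mo j d → R) (i : Fin s) (x : Vr j s → R) : R :=
  fv (fun α => a ⟨i, α⟩) x

end LVH
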