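import Mathlib

/-!
# LEAF E4A: the real inequality

PROOF.  By induction on `T` (or by `Finset.powersetCard_succ_insert`): `2 e₂ = e₁² - ∑ f²` and `6 e₃ ≤ e₁³` for nonnegative `f` (`6 e₃ = e₁³ - 3 e₁ ∑ f² + 2 ∑ f³`).  So `e₁ - e₂ + e₃ ≤ e₁ - e₁² / 2 + e₁³ / 6 + e₁ D / 2`, and `e - e² / 2 + e³ / 6` is increasing, at `3 / 2` it is `15 / 16`.
-/

namespace LVH

open Finset

private theorem E4A_step {τ : Type} [DecidableEq τ] {T : Finset τ} {a : τ} (ha : a ∉ T) (f : τ → ℝ) (k : ℕ) :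
    ∑ U ∈ (insert a T).powersetCard (k + 1), ∏ t ∈ U, f t =
      ∑ U ∈ T.powersetCard (k + 1), ∏ t ∈ U, f t + f a * ∑ U ∈ T.powersetCard k, ∏ t ∈ U, f t := by
  rw [Finset.powersetCard_succ_insert ha, Finset.sum_union, Finset.sum_image, Finset.mul_sum]
  · refine congrArg _ (Finset.sum_congr rfl fun U hU => ?_)
    have h1 : a ∉ U := fun h => ha ((Finset.mem_powersetCard.1 hU).1 h)
    rw [Finset.prod_insert h1]
  · intro U hU U' hU' h
    have h1 : a ∉ U := fun h => ha ((Finset.mem_powersetCard.1 hU).1 h)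
    have h2 : a ∉ U' := fun h => ha ((Finset.mem_powersetCard.1 hU').1 h)
    rw [← Finset.erase_insert h1, ← Finset.erase_insert h2]
    exact congrArg (fun V => V.erase a) h
  · rw [Finset.disjoint_left]
    intro U hU hU'
    obtain ⟨V, _, rfl⟩ := Finset.mem_image.1 hU'
    exact ha ((Finset.mem_powersetCard.1 hU).1 (Finset.mem_insert_self a V))

private theorem E4A_one {τ : Type} [DecidableEq τ] (T : Finset τ) (f : τ → ℝ) :
    ∑ U ∈ T.powersetCard 1, ∏ t ∈ U, f t = ∑ t ∈ T, f t := by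
  rw [Finset.powersetCard_one, Finset.sum_map]
  refine Finset.sum_congr rfl fun t _ => ?_
  exact Finset.prod_singleton f t

private theorem E4A_two {τ : Type} [DecidableEq τ] (T : Finset τ) (f : τ → ℝ) :
    2 * ∑ U ∈ T.powersetCard 2, ∏ t ∈ U, f t = (∑ t ∈ T, f t) ^ 2 - ∑ t ∈ T, f t ^ 2 := by
  induction T using Finset.induction_on with
  | empty =>
    rw [Finset.powersetCard_eq_empty.2 (by simp)]
    simp
  | insert a T ha ih =>
    rw [E4A_step ha, E4A_one, Finset.sum_insert ha, Finset.sum_insert ha]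
    linear_combination ih

private theorem E4A_three {τ : Type} [DecidableEq τ] (T : Finset τ) (f : τ → ℝ) (h0 : ∀ t ∈ T, 0 ≤ f t) :
    6 * ∑ U ∈ T.powersetCard 3, ∏ t ∈ U, f t ≤ (∑ t ∈ T, f t) ^ 3 := by
  induction T using Finset.induction_on with
  | empty =>
    rw [Finset.powersetCard_eq_empty.2 (by simp)]
    simp
  | insert a T ha ih =>
    have h1 := ih fun t ht => h0 t (Finset.mem_insert_of_mem ht)
    have h2 := E4A_two T f
    have ha0 : 0 ≤ f a := h0 a (Finset.mem_insert_self a T)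
    have hs : 0 ≤ ∑ t ∈ T, f t := Finset.sum_nonneg fun t ht => h0 t (Finset.mem_insert_of_mem ht)
    have hq : 0 ≤ ∑ t ∈ T, f t ^ 2 := Finset.sum_nonneg fun t _ => sq_nonneg (f t)
    rw [E4A_step ha, Finset.sum_insert ha]
    have h3 : f a * (2 * ∑ U ∈ T.powersetCard 2, ∏ t ∈ U, f t) ≤ f a * (∑ t ∈ T, f t) ^ 2 := by
      rw [h2]
      exact mul_le_mul_of_nonneg_left (by linarith) ha0
    have h4 : 0 ≤ f a ^ 2 * (∑ t ∈ T, f t) := mul_nonneg (sq_nonneg _) hs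
    have h5 : 0 ≤ f a ^ 3 := pow_nonneg ha0 3
    nlinarith [h1, h3, h4, h5]

theorem esym_le {τ : Type} [DecidableEq τ] (T : Finset τ) (f : τ → ℝ) (D : ℝ) (h0 : ∀ t ∈ T, 0 ≤ f t)
    (hD : ∀ t ∈ T, f t ≤ D) (h1 : ∑ t ∈ T, f t ≤ 3 / 2) (hD0 : 0 ≤ D) :
    ∑ t ∈ T, f t - ∑ U ∈ T.powersetCard 2, ∏ t ∈ U, f t + ∑ U ∈ T.powersetCard 3, ∏ t ∈ U, f t ≤ 15 / 16 + D := by
  have h2 := E4A_two T f
  have h3 := E4A_three T f h0
  have hs : 0 ≤ ∑ t ∈ T, f t := Finset.sum_nonneg h0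
  have hq : ∑ t ∈ T, f t ^ 2 ≤ D * ∑ t ∈ T, f t := by
    rw [Finset.mul_sum]
    refine Finset.sum_le_sum fun t ht => ?_
    rw [sq]
    exact mul_le_mul_of_nonneg_right (hD t ht) (h0 t ht)
  have hq' : D * ∑ t ∈ T, f t ≤ D * (3 / 2) := mul_le_mul_of_nonneg_left h1 hD0
  generalize ∑ t ∈ T, f t = e at *
  have h4 : e - e ^ 2 / 2 + e ^ 3 / 6 ≤ 15 / 16 := by
    nlinarith [mul_nonneg (sub_nonneg.2 h1) (sq_nonneg (e - 3 / 4)), sub_nonneg.2 h1]
  nlinarith [h2, h3, hq, hq', h4]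

end LVH
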