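import Pool.Agent.Lib.MP_17a322_ntLH.E2

/-!
# LEAF E5B: the mean number of points

PROOF.  Exchange the sums: for `z` with `x = (u, z) ≠ 0` the number of the `b` is `∏ i, p ^ (card - 1)` by `cnt` with `T = {x}`, that is `card / p ^ #τ`; if `x = 0` (then `j = 0`, so there is some `i`, and `fv (b i) 0 = 0 ≠ y i` by `fv_zero`) there is none.  There are `p ^ s` vectors `z` and `s = #τ + 1`.
-/

namespace LVH

open Finset

private theorem E5B_N {p : ℕ} [Fact p.Prime] {τ ι : Type} [Fintype τ] [DecidableEq τ] [Fintype ι] [DecidableEq ι] (d : τ → ℕ)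
    (x : ι → ZMod p) (hx : x ≠ 0) (y : τ → ZMod p) :
    Nat.card {b : (i : τ) → Sym ι (d i) → ZMod p // ∀ i, fv (b i) x = y i} * p ^ Fintype.card τ =
      Fintype.card ((i : τ) → Sym ι (d i) → ZMod p) := by
  have e : {b : (i : τ) → Sym ι (d i) → ZMod p // ∀ i, fv (b i) x = y i} ≃
      ((i : τ) → {a : Sym ι (d i) → ZMod p // fv a x = y i}) :=
    Equiv.subtypePiEquivPi (p := fun {i : τ} (b : Sym ι (d i) → ZMod p) => fv b x = y i)
  have hT : NP ({x} : Finset (ι → ZMod p)) := by
    intro y hy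
    rw [Finset.mem_singleton] at hy
    refine ⟨hy ▸ hx, fun y' hy' hne => ?_⟩
    rw [Finset.mem_singleton] at hy'
    exact absurd (hy.trans hy'.symm) hne
  have h1 : ∀ i : τ, Nat.card {a : Sym ι (d i) → ZMod p // fv a x = y i} * p = p ^ Fintype.card (Sym ι (d i)) := by
    intro i
    have h := cnt (p := p) (ι := ι) (d i) {x} hT (by rw [Finset.card_singleton]; omega) fun _ => y i
    rw [Finset.card_singleton, pow_one] at h
    rw [← h]
    refine congrArg (fun n => n * p) (Nat.card_congr (Equiv.subtypeEquivRight fun a => ?_))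
    constructor
    · intro h x' hx'
      rw [Finset.mem_singleton] at hx'
      rw [hx']
      exact h
    · intro h
      exact h x (Finset.mem_singleton_self x)
  have h2 : Fintype.card ((i : τ) → Sym ι (d i) → ZMod p) = ∏ i, p ^ Fintype.card (Sym ι (d i)) := by
    rw [Fintype.card_pi]
    refine Finset.prod_congr rfl fun i _ => ?_
    rw [Fintype.card_fun, ZMod.card]
  have h3 : p ^ Fintype.card τ = ∏ _i : τ, p := by
    rw [Finset.prod_const, Finset.card_univ]
  rw [Nat.card_congr e, Nat.card_pi, h2, h3, ← Finset.prod_mul_distrib]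
  exact Finset.prod_congr rfl fun i _ => h1 i

theorem mean {p : ℕ} [Fact p.Prime] {τ : Type} [Fintype τ] [DecidableEq τ] {j s : ℕ} (d : τ → ℕ) (hd : ∀ i, 1 ≤ d i)
    (hs : Fintype.card τ + 1 = s) (hj : 1 ≤ j ∨ Nonempty τ) (u : Fin j → ZMod p) (hu : ∀ l, u l ≠ 0)
    (y : τ → ZMod p) (hy : ∀ i, y i ≠ 0) :
    ∑ b : (i : τ) → Sym (Vr j s) (d i) → ZMod p,
      Nat.card {z : Fin s → ZMod p // ∀ i, fv (b i) (Sum.elim u z : Vr j s → ZMod p) = y i} ≤
        p * Fintype.card ((i : τ) → Sym (Vr j s) (d i) → ZMod p) := by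
  classical
  have key : ∀ z : Fin s → ZMod p, Nat.card {b : (i : τ) → Sym (Vr j s) (d i) → ZMod p //
      ∀ i, fv (b i) (Sum.elim u z : Vr j s → ZMod p) = y i} * p ^ Fintype.card τ ≤
      Fintype.card ((i : τ) → Sym (Vr j s) (d i) → ZMod p) := by
    intro z
    by_cases hx : (Sum.elim u z : Vr j s → ZMod p) = 0
    · rcases hj with hj | hj
      · have h := congrFun hx (Sum.inl ⟨0, hj⟩)
        exact absurd h (hu ⟨0, hj⟩)
      · obtain ⟨i⟩ := hj
        have h0 : IsEmpty {b : (i : τ) → Sym (Vr j s) (d i) → ZMod p //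
            ∀ i, fv (b i) (Sum.elim u z : Vr j s → ZMod p) = y i} := by
          refine ⟨fun b => ?_⟩
          have h := (congrArg (fv (b.1 i)) hx.symm).trans (b.2 i)
          rw [fv_zero (hd i)] at h
          exact hy i h.symm
        rw [Nat.card_of_isEmpty, zero_mul]
        exact Nat.zero_le _
    · exact (E5B_N d _ hx y).le
  have hp : 0 < p ^ Fintype.card τ := pow_pos (Fact.out : p.Prime).pos _
  refine Nat.le_of_mul_le_mul_right ?_ hp
  have h1 : ∑ b : (i : τ) → Sym (Vr j s) (d i) → ZMod p,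
      Nat.card {z : Fin s → ZMod p // ∀ i, fv (b i) (Sum.elim u z : Vr j s → ZMod p) = y i} =
      ∑ z : Fin s → ZMod p, Nat.card {b : (i : τ) → Sym (Vr j s) (d i) → ZMod p //
        ∀ i, fv (b i) (Sum.elim u z : Vr j s → ZMod p) = y i} := by
    rw [← Nat.card_sigma, ← Nat.card_sigma]
    exact Nat.card_congr ⟨fun q => ⟨q.2.1, q.1, q.2.2⟩, fun q => ⟨q.2.1, q.1, q.2.2⟩, fun _ => rfl, fun _ => rfl⟩
  rw [h1, Finset.sum_mul]
  refine (Finset.sum_le_sum fun z _ => key z).trans ?_
  rw [Finset.sum_const, Finset.card_univ, Fintype.card_fun, ZMod.card, Fintype.card_fin, smul_eq_mul, ← hs, pow_succ]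
  refine le_of_eq ?_
  ring

end LVH
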