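import Pool.Agent.Lib.MP_17a322_ntLH.E2
import Pool.Agent.Lib.MP_17a322_ntLH.E4B
import Pool.Agent.Lib.MP_17a322_ntLH.E5A
import Pool.Agent.Lib.MP_17a322_ntLH.E5C

/-!
# LEAF E5D: the last form

PROOF.  `T` from `reps`; `Y t` the image of `Lm u y b t` under `l ↦ y0 * (l ^ m)⁻¹`.  A point `x = (u, z)` as in the statement is not zero (`j ≥ 1` and `u l ≠ 0`, or some `y i ≠ 0` with `fv_zero`), so `x = l • t` with `t ∈ T`, `l ∈ Lm u y b t`, `fv a x = l ^ m * fv a t = y0` (`fv_smul`) and `fv a t ∈ Y t`.  Apply `bonf` to `X t a = fv a t` (independence by `cnt`, as `3 ≤ m + 1`), the sums by `Lm_sum`, `Lm_card` and `card_image_le`.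
-/

namespace LVH

open Finset

private theorem mem_Lm {p : ℕ} [NeZero p] {τ : Type} {j s : ℕ} {d : τ → ℕ} {u : Fin j → ZMod p} {y : τ → ZMod p}
    {b : (i : τ) → Sym (Vr j s) (d i) → ZMod p} {t : Vr j s → ZMod p} {l : ZMod p} (h1 : l ≠ 0)
    (h2 : ∃ z : Fin s → ZMod p, l • t = Sum.elim u z) (h3 : ∀ i, fv (b i) (l • t) = y i) : l ∈ Lm u y b t := by
  classical
  unfold Lm
  exact mem_filter.2 ⟨mem_univ _, h1, h2, h3⟩

theorem last_form {p : ℕ} [Fact p.Prime] {τ : Type} [Fintype τ] {j s : ℕ} {d : τ → ℕ} (hd : ∀ i, 1 ≤ d i)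
    (u : Fin j → ZMod p) (hu : ∀ l, u l ≠ 0) (y : τ → ZMod p) (hy : ∀ i, y i ≠ 0) (hj : 1 ≤ j ∨ Nonempty τ)
    (b : (i : τ) → Sym (Vr j s) (d i) → ZMod p)
    (hb : (Nat.card {z : Fin s → ZMod p // ∀ i, fv (b i) (Sum.elim u z : Vr j s → ZMod p) = y i} : ℝ) ≤ 3 / 2 * p)
    {m : ℕ} (hm : 2 ≤ m) (y0 : ZMod p) (hy0 : y0 ≠ 0) :
    (Nat.card {a : Sym (Vr j s) m → ZMod p // ∃ z : Fin s → ZMod p,
      (∀ i, fv (b i) (Sum.elim u z : Vr j s → ZMod p) = y i) ∧ fv a (Sum.elim u z : Vr j s → ZMod p) = y0} : ℝ) ≤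
        (15 / 16 + ((1 + ∑ i, d i : ℕ) : ℝ) / p) * (p : ℝ) ^ Fintype.card (Sym (Vr j s) m) := by
  classical
  obtain ⟨T, hT, hcov⟩ := reps p (Vr j s)
  have hΩ : Fintype.card (Sym (Vr j s) m → ZMod p) = p ^ Fintype.card (Sym (Vr j s) m) := by
    rw [Fintype.card_fun, ZMod.card]
  have hYL : ∀ t, ((((Lm u y b t).image (fun l => y0 * (l ^ m)⁻¹)).card : ℕ) : ℝ) ≤ ((Lm u y b t).card : ℝ) :=
    fun t => by exact_mod_cast card_image_le
  have h1 := bonf (Ω := Sym (Vr j s) m → ZMod p) (τ := Vr j s → ZMod p) p (fun t a => fv a t) T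
    (fun U hU hU3 v => by
      rw [hΩ]
      exact cnt m U (fun x hx => ⟨(hT x (hU hx)).1, fun x' hx' => (hT x (hU hx)).2 x' (hU hx')⟩) (by omega) v)
    (fun t => (Lm u y b t).image (fun l => y0 * (l ^ m)⁻¹)) ((1 + ∑ i, d i : ℕ) : ℝ)
    (fun t _ => (hYL t).trans (by exact_mod_cast Lm_card u hu y hy hj b t hd))
    ((sum_le_sum fun t _ => hYL t).trans (by
      refine le_trans ?_ hb
      exact_mod_cast Lm_sum u y b T hT)) (Nat.cast_nonneg _)
  rw [hΩ] at h1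
  push_cast at h1 ⊢
  refine le_trans ?_ h1
  have h2 : Nat.card {a : Sym (Vr j s) m → ZMod p // ∃ z : Fin s → ZMod p,
      (∀ i, fv (b i) (Sum.elim u z : Vr j s → ZMod p) = y i) ∧ fv a (Sum.elim u z : Vr j s → ZMod p) = y0} ≤
      Nat.card {a : Sym (Vr j s) m → ZMod p // ∃ t ∈ T, fv a t ∈ (Lm u y b t).image (fun l => y0 * (l ^ m)⁻¹)} := by
    refine Nat.card_le_card_of_injective (fun a => ⟨a.1, ?_⟩) ?_
    · obtain ⟨z, hz, ha⟩ := a.2
      have hx : (Sum.elim u z : Vr j s → ZMod p) ≠ 0 := by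
        intro h0
        rcases hj with hj | ⟨⟨i⟩⟩
        · have := congrFun h0 (Sum.inl ⟨0, hj⟩)
          exact hu _ this
        · have h3 := hz i
          rw [h0, fv_zero (hd i)] at h3
          exact hy i h3.symm
      obtain ⟨t, ht, l, hl, hlt⟩ := hcov _ hx
      refine ⟨t, ht, mem_image.2 ⟨l, ?_, ?_⟩⟩
      · exact mem_Lm hl ⟨z, hlt⟩ fun i => by rw [hlt]; exact hz i
      · have h5 : l ^ m ≠ 0 := pow_ne_zero _ hl
        have h6 : l ^ m * fv a.1 t = y0 := by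
          rw [← fv_smul, hlt]
          exact ha
        calc y0 * (l ^ m)⁻¹ = (l ^ m * fv a.1 t) * (l ^ m)⁻¹ := by rw [h6]
          _ = fv a.1 t := by rw [mul_comm (l ^ m) _, mul_assoc, mul_inv_cancel₀ h5, mul_one]
    · intro a a' h
      have h7 : a.1 = a'.1 := congrArg (fun q : {a : Sym (Vr j s) m → ZMod p //
        ∃ t ∈ T, fv a t ∈ (Lm u y b t).image (fun l => y0 * (l ^ m)⁻¹)} => q.1) h
      exact Subtype.ext h7
  exact_mod_cast h2

end LVH
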