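import Pool.Agent.Lib.MP_17a322_ntLH.E2

/-!
# LEAF E6: the part at infinity

PROOF.  Count the pairs `(a, z)` with `z ≠ 0` and `Fv a i (0, z) = 0` for all `i`: for each `z ≠ 0` there are `p ^ (card - s)` such `a` by `cnt` with `T = {(0, z)}` for each `i` (`(Mo j d → ZMod p) ≃ ((i : Fin s) → Sym (Vr j s) (d i) → ZMod p)`, `Equiv.piCurry`), altogether at most `p ^ card` pairs; each `a` of the statement is in at least `p - 1` pairs (`l • z`, `l ≠ 0`, `fv_smul`).
-/

namespace LVH

open Finset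

private theorem E6_smul {p j s : ℕ} (l : ZMod p) (z : Fin s → ZMod p) :
    (Sum.elim (fun _ => 0) (l • z) : Vr j s → ZMod p) = l • Sum.elim (fun _ => 0) z := by
  funext x
  rcases x with x | x
  · show (0 : ZMod p) = l • (0 : ZMod p)
    rw [smul_zero]
  · rfl

private theorem E6_N {p : ℕ} [Fact p.Prime] {j s : ℕ} (d : Fin s → ℕ) (x : Vr j s → ZMod p) (hx : x ≠ 0) :
    Nat.card {a : Mo j d → ZMod p // ∀ i, Fv a i x = 0} * p ^ s = p ^ Fintype.card (Mo j d) := by
  have e : {a : Mo j d → ZMod p // ∀ i, Fv a i x = 0} ≃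
      ((i : Fin s) → {a : Sym (Vr j s) (d i) → ZMod p // ∀ y ∈ ({x} : Finset (Vr j s → ZMod p)), fv a y = 0}) :=
    ((Equiv.piCurry fun (i : Fin s) (_ : Sym (Vr j s) (d i)) => ZMod p).subtypeEquiv
      (q := fun b => ∀ i, ∀ y ∈ ({x} : Finset (Vr j s → ZMod p)), fv (b i) y = 0) fun a => by
        constructor
        · intro h i y hy
          rw [Finset.mem_singleton] at hy
          rw [hy]
          exact h i
        · intro h i
          exact h i x (Finset.mem_singleton_self x)).trans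
      (Equiv.subtypePiEquivPi (p := fun {i : Fin s} (b : Sym (Vr j s) (d i) → ZMod p) =>
        ∀ y ∈ ({x} : Finset (Vr j s → ZMod p)), fv b y = 0))
  have hT : NP ({x} : Finset (Vr j s → ZMod p)) := by
    intro y hy
    rw [Finset.mem_singleton] at hy
    refine ⟨hy ▸ hx, fun y' hy' hne => ?_⟩
    rw [Finset.mem_singleton] at hy'
    exact absurd (hy.trans hy'.symm) hne
  have h1 : ∀ i : Fin s, Nat.card {a : Sym (Vr j s) (d i) → ZMod p //
      ∀ y ∈ ({x} : Finset (Vr j s → ZMod p)), fv a y = 0} * p = p ^ Fintype.card (Sym (Vr j s) (d i)) := by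
    intro i
    have h := cnt (p := p) (ι := Vr j s) (d i) {x} hT (by rw [Finset.card_singleton]; omega) fun _ => 0
    rwa [Finset.card_singleton, pow_one] at h
  rw [Nat.card_congr e, Nat.card_pi, Fintype.card_sigma, ← Finset.prod_pow_eq_pow_sum]
  have h2 : p ^ s = ∏ _i : Fin s, p := by
    rw [Finset.prod_const, Finset.card_univ, Fintype.card_fin]
  rw [h2, ← Finset.prod_mul_distrib]
  exact Finset.prod_congr rfl fun i _ => h1 i

theorem inf_part {p : ℕ} [Fact p.Prime] {j s : ℕ} (d : Fin s → ℕ) :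
    Nat.card {a : Mo j d → ZMod p // ∃ z : Fin s → ZMod p, z ≠ 0 ∧ ∀ i, Fv a i (Sum.elim (fun _ => 0) z) = 0} * (p - 1) ≤
      p ^ Fintype.card (Mo j d) := by
  classical
  let Pr : Type := (z : {z : Fin s → ZMod p // z ≠ 0}) × {a : Mo j d → ZMod p // ∀ i, Fv a i (Sum.elim (fun _ => 0) z.1) = 0}
  have hw : ∀ z : Fin s → ZMod p, z ≠ 0 → (Sum.elim (fun _ => 0) z : Vr j s → ZMod p) ≠ 0 := by
    intro z hz h
    refine hz (funext fun k => ?_)
    exact congrFun h (Sum.inr k)
  have hPr : Nat.card Pr ≤ p ^ Fintype.card (Mo j d) := by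
    have hp : 0 < p ^ s := pow_pos (Fact.out : p.Prime).pos s
    refine Nat.le_of_mul_le_mul_right ?_ hp
    have h1 : Nat.card Pr = ∑ z : {z : Fin s → ZMod p // z ≠ 0},
        Nat.card {a : Mo j d → ZMod p // ∀ i, Fv a i (Sum.elim (fun _ => 0) z.1) = 0} := Nat.card_sigma
    rw [h1, Finset.sum_mul, Finset.sum_congr rfl fun z _ => E6_N d _ (hw z.1 z.2), Finset.sum_const, smul_eq_mul,
      mul_comm]
    refine Nat.mul_le_mul_left _ ?_
    rw [Finset.card_univ]
    refine (Fintype.card_subtype_le _).trans ?_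
    rw [Fintype.card_fun, ZMod.card, Fintype.card_fin]
  let Bd : Type := {a : Mo j d → ZMod p // ∃ z : Fin s → ZMod p, z ≠ 0 ∧ ∀ i, Fv a i (Sum.elim (fun _ => 0) z) = 0}
  let f : Bd × (ZMod p)ˣ → Pr := fun q => ⟨⟨(q.2 : ZMod p) • q.1.2.choose, fun h0 => by
      rcases smul_eq_zero.1 h0 with h | h
      · exact q.2.ne_zero h
      · exact q.1.2.choose_spec.1 h⟩, ⟨q.1.1, fun i => by
      show Fv q.1.1 i (Sum.elim (fun _ => 0) ((q.2 : ZMod p) • q.1.2.choose)) = 0
      rw [E6_smul, Fv, fv_smul]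
      have h := q.1.2.choose_spec.2 i
      rw [Fv] at h
      rw [h, mul_zero]⟩⟩
  have hf : Function.Injective f := by
    rintro ⟨⟨a, ha⟩, l⟩ ⟨⟨a', ha'⟩, l'⟩ h
    have h1 : a = a' := by
      have h2 := congrArg (fun q : Pr => q.2.1) h
      exact h2
    subst h1
    have h3 : (l : ZMod p) • ha.choose = (l' : ZMod p) • ha.choose := by
      have h2 := congrArg (fun q : Pr => q.1.1) h
      exact h2
    have h4 : (l : ZMod p) = l' := by
      have h5 : ((l : ZMod p) - l') • ha.choose = 0 := by rw [sub_smul, h3, sub_self]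
      rcases smul_eq_zero.1 h5 with h6 | h6
      · exact sub_eq_zero.1 h6
      · exact absurd h6 ha.choose_spec.1
    rw [Units.ext h4]
  have h1 := Nat.card_le_card_of_injective f hf
  rw [Nat.card_prod, Nat.card_units, Nat.card_zmod] at h1
  exact h1.trans hPr

end LVH
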