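import Pool.Agent.Lib.MP_17a322_ntLH.PDefs
import Pool.Agent.Lib.MP_10e784_agV.VD1

/-! The density in the lattice. -/

namespace LVH

open Finset

theorem cofib {p : ℕ} [Fact p.Prime] {τ : Type} [Fintype τ] [DecidableEq τ] {e : ℕ} (ω : Fin e → ZMod p) (hω : ω ≠ 0)
    (P : Set (τ → ZMod p)) (B : ℝ) (h : (Nat.card P : ℝ) ≤ B * (p : ℝ) ^ Fintype.card τ) :
    (Nat.card {c : τ × Fin e → ZMod p // co ω c ∈ P} : ℝ) ≤ B * (p : ℝ) ^ Fintype.card (τ × Fin e) := by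
  have hp : (0 : ℝ) < p := by exact_mod_cast (Fact.out : p.Prime).pos
  have h1 := MWS.card_fib (κ := τ) ω (Function.ne_iff.1 hω) P
  have h2 : (Nat.card {c : τ × Fin e → ZMod p // co ω c ∈ P} : ℝ) * (p : ℝ) ^ Fintype.card τ =
      (Nat.card P : ℝ) * (p : ℝ) ^ (Fintype.card τ * Fintype.card (Fin e)) := by exact_mod_cast h1
  have h3 : (0 : ℝ) < (p : ℝ) ^ Fintype.card τ := pow_pos hp _
  refine le_of_mul_le_mul_right ?_ h3
  rw [h2, Fintype.card_prod]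
  calc (Nat.card P : ℝ) * (p : ℝ) ^ (Fintype.card τ * Fintype.card (Fin e))
      ≤ B * (p : ℝ) ^ Fintype.card τ * (p : ℝ) ^ (Fintype.card τ * Fintype.card (Fin e)) := by gcongr
    _ = B * (p : ℝ) ^ (Fintype.card τ * Fintype.card (Fin e)) * (p : ℝ) ^ Fintype.card τ := by ring

end LVH
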