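import Pool.Agent.Lib.MP_17a322_ntLH.E5E
import Pool.Agent.Lib.MP_17a322_ntLH.E6
import Pool.Agent.Lib.MP_17a322_ntLH.E7

/-! The density of the local condition. -/

namespace LVH

open Finset

theorem dens {j s : ℕ} (d : Fin s → ℕ) (hd : ∀ i, 1 ≤ d i) (hjs : 2 ≤ j + s) (h2 : ∃ i, 2 ≤ d i) :
    ∃ p0 : ℕ, ∀ p : ℕ, p.Prime → p0 ≤ p → ∀ {e : ℕ} (ω : Fin e → ZMod p), ω ≠ 0 → ∀ u : Fin j → ZMod p,
      (∀ l, u l ≠ 0) → ∀ y : Fin s → ZMod p, (∀ i, y i ≠ 0) →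
        (Nat.card (RR d ω u y) : ℝ) ≤ (1 - 1 / 100) * (p : ℝ) ^ Fintype.card (Mo j d × Fin e) := by
  obtain ⟨i0, hi0⟩ := h2
  set D : ℕ := 1 + ∑ i, d i with hD
  refine ⟨1000 * (D + 1), fun p hp hpp e ω hω u hu y hy => ?_⟩
  have : Fact p.Prime := ⟨hp⟩
  have hp0 : (0 : ℝ) < p := by exact_mod_cast hp.pos
  have hpD : 1000 * ((D : ℝ) + 1) ≤ p := by exact_mod_cast hpp
  have hD0 : (0 : ℝ) ≤ D := Nat.cast_nonneg _
  set P : Set (Mo j d → ZMod p) := {a | ∃ z : Fin s → ZMod p, ∀ i, Fv a i (Sum.elim u z) = y i} with hP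
  set P' : Set (Mo j d → ZMod p) := {a | ∃ z : Fin s → ZMod p, z ≠ 0 ∧ ∀ i, Fv a i (Sum.elim (fun _ => 0) z) = 0} with hP'
  have hX : (0 : ℝ) < (p : ℝ) ^ Fintype.card (Mo j d) := pow_pos hp0 _
  have h1 : (Nat.card P : ℝ) ≤ (1 - 1 / 48 + (D : ℝ) / p) * (p : ℝ) ^ Fintype.card (Mo j d) :=
    fin_part d hd hjs i0 hi0 u hu y hy
  have h2 : (Nat.card P' : ℝ) ≤ 1 / 500 * (p : ℝ) ^ Fintype.card (Mo j d) := by
    have h3 : Nat.card P' * (p - 1) ≤ p ^ Fintype.card (Mo j d) := inf_part d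
    have h4 : (Nat.card P' : ℝ) * ((p : ℝ) - 1) ≤ (p : ℝ) ^ Fintype.card (Mo j d) := by
      have h5 : ((p - 1 : ℕ) : ℝ) = (p : ℝ) - 1 := by rw [Nat.cast_sub hp.one_lt.le, Nat.cast_one]
      rw [← h5]
      exact_mod_cast h3
    have h6 : (500 : ℝ) ≤ (p : ℝ) - 1 := by nlinarith
    have h7 : (0 : ℝ) ≤ Nat.card P' := Nat.cast_nonneg _
    nlinarith
  have h3 : (D : ℝ) / p ≤ 1 / 1000 := by
    rw [div_le_iff₀ hp0]
    linarith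
  have h4 : (Nat.card ((P ∪ P' : Set (Mo j d → ZMod p))) : ℝ) ≤ (1 - 1 / 100) * (p : ℝ) ^ Fintype.card (Mo j d) := by
    have h5 : Nat.card ((P ∪ P' : Set (Mo j d → ZMod p))) ≤ Nat.card P + Nat.card P' := by
      rw [Nat.card_coe_set_eq, Nat.card_coe_set_eq, Nat.card_coe_set_eq]
      exact Set.ncard_union_le _ _
    have h6 : (Nat.card ((P ∪ P' : Set (Mo j d → ZMod p))) : ℝ) ≤ (Nat.card P : ℝ) + (Nat.card P' : ℝ) := by exact_mod_cast h5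
    nlinarith
  exact cofib ω hω (P ∪ P') _ h4

end LVH
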