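import Mathlib

/-!
# LEAF F2: the group of `S`-units is finitely generated

PROOF.  The map `u ↦ (ord_v u)_(v ∈ S0)` from the group of `S`-units to `S0 → ℤ` (or `- log (v u) / log (N v)`) has kernel the units of `𝓞 K` (`v u ≤ 1` for all finite `v` implies integral), a finitely generated group (Dirichlet's unit theorem, in Mathlib); a group with finitely generated subgroup (kernel) and finitely generated quotient (a subgroup of `ℤ ^ S0`) is finitely generated.
-/

namespace LVH

open NumberField

open IsDedekindDomain IsDedekindDomain.HeightOneSpectrum in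
private theorem F2_val {K : Type} [Field K] [NumberField K] (v : HeightOneSpectrum (𝓞 K)) (x : K)
    (h : FinitePlace.mk v x = 1) : v.valuation K x = 1 := by
  rw [FinitePlace.mk_apply, FinitePlace.norm_embedding'] at h
  have h1 : WithZeroMulInt.toNNReal (NumberField.HeightOneSpectrum.absNorm_ne_zero v)
      (v.valuation K x) = 1 := by
    exact_mod_cast h
  exact (WithZeroMulInt.toNNReal_eq_one_iff _ (NumberField.HeightOneSpectrum.absNorm_ne_zero v)
    (NumberField.HeightOneSpectrum.one_lt_absNorm_nnreal v).ne').mp h1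

open IsDedekindDomain IsDedekindDomain.HeightOneSpectrum in
private theorem F2_unit {K : Type} [Field K] [NumberField K] (u : Kˣ)
    (h : ∀ v : HeightOneSpectrum (𝓞 K), v.valuation K (u : K) = 1) :
    ∃ e : (𝓞 K)ˣ, Units.map (algebraMap (𝓞 K) K : 𝓞 K →* K) e = u := by
  obtain ⟨a, ha⟩ := mem_integers_of_valuation_le_one (R := 𝓞 K) K (u : K) fun v => (h v).le
  obtain ⟨b, hb⟩ := mem_integers_of_valuation_le_one (R := 𝓞 K) K ((u⁻¹ : Kˣ) : K) fun v => by
    have h1 : v.valuation K ((u⁻¹ : Kˣ) : K) = 1 := by
      rw [Units.val_inv_eq_inv_val, map_inv₀, h v, inv_one]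
    exact h1.le
  have hab : a * b = 1 := by
    apply FaithfulSMul.algebraMap_injective (𝓞 K) K
    rw [map_mul, ha, hb, map_one, Units.mul_inv]
  exact ⟨⟨a, b, hab, by rw [mul_comm]; exact hab⟩, Units.ext ha⟩

theorem sunit_fg (K : Type) [Field K] [NumberField K] (S0 : Finset (FinitePlace K)) : ∃ (r : ℕ) (g : Fin r → K),
    (∀ m, g m ≠ 0 ∧ ∀ v : FinitePlace K, v ∉ S0 → v (g m) = 1) ∧
      ∀ u : K, u ≠ 0 → (∀ v : FinitePlace K, v ∉ S0 → v u = 1) → ∃ n : Fin r → ℤ, u = ∏ m, g m ^ n m := by
  classical
  let f0 : Additive Kˣ →+ (S0 → ℤ) :=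
    { toFun := fun u v => Multiplicative.toAdd
        (IsDedekindDomain.HeightOneSpectrum.valuationOfNeZero (K := K) v.1.maximalIdeal
          (Additive.toMul u))
      map_zero' := by
        funext v
        show Multiplicative.toAdd (IsDedekindDomain.HeightOneSpectrum.valuationOfNeZero (K := K)
          v.1.maximalIdeal (1 : Kˣ)) = 0
        rw [map_one]
        rfl
      map_add' := fun a b => by
        funext v
        show Multiplicative.toAdd (IsDedekindDomain.HeightOneSpectrum.valuationOfNeZero (K := K)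
          v.1.maximalIdeal (Additive.toMul a * Additive.toMul b)) = _
        rw [map_mul]
        rfl }
  let s : Submodule ℤ (Additive Kˣ) :=
    { carrier := {u | ∀ v : FinitePlace K, v ∉ S0 → v ((Additive.toMul u : Kˣ) : K) = 1}
      zero_mem' := fun v _ => by
        show v ((1 : Kˣ) : K) = 1
        rw [Units.val_one, map_one]
      add_mem' := fun {a b} ha hb v hv => by
        show v ((Additive.toMul a * Additive.toMul b : Kˣ) : K) = 1
        rw [Units.val_mul, map_mul, ha v hv, hb v hv, one_mul]
      smul_mem' := fun n a ha v hv => by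
        show v (((Additive.toMul a : Kˣ) ^ n : Kˣ) : K) = 1
        rw [Units.val_zpow_eq_zpow_val, map_zpow₀, ha v hv, one_zpow] }
  let g0 : Additive (𝓞 K)ˣ →+ Additive Kˣ :=
    MonoidHom.toAdditive (Units.map (algebraMap (𝓞 K) K : 𝓞 K →* K))
  have hfg : s.FG := by
    refine Submodule.fg_of_fg_map_of_fg_inf_ker f0.toIntLinearMap (IsNoetherian.noetherian _) ?_
    have h1 : IsNoetherian ℤ (LinearMap.range g0.toIntLinearMap) := inferInstance
    refine isNoetherian_submodule.mp h1 _ fun u hu => ?_
    obtain ⟨hu1, hu2⟩ := Submodule.mem_inf.mp hu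
    have h2 : ∀ v : IsDedekindDomain.HeightOneSpectrum (𝓞 K),
        v.valuation K ((Additive.toMul u : Kˣ) : K) = 1 := by
      intro v
      by_cases hv : FinitePlace.mk v ∈ S0
      · have h3 : f0 u = 0 := hu2
        have h4 := congrFun h3 ⟨FinitePlace.mk v, hv⟩
        have h5 : IsDedekindDomain.HeightOneSpectrum.valuationOfNeZero (K := K)
            (FinitePlace.mk v).maximalIdeal (Additive.toMul u) = 1 := h4
        rw [FinitePlace.maximalIdeal_mk] at h5
        rw [← IsDedekindDomain.HeightOneSpectrum.valuationOfNeZero_eq, h5]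
        rfl
      · exact F2_val v _ (hu1 _ hv)
    obtain ⟨e, he⟩ := F2_unit (Additive.toMul u) h2
    exact ⟨Additive.ofMul e, he⟩
  obtain ⟨r, g, hg⟩ := Submodule.fg_iff_exists_fin_generating_family.mp hfg
  refine ⟨r, fun m => ((Additive.toMul (g m) : Kˣ) : K), fun m => ⟨Units.ne_zero _, ?_⟩, ?_⟩
  · have h1 : g m ∈ s := hg ▸ Submodule.subset_span ⟨m, rfl⟩
    exact h1
  · intro u hu hS
    have h1 : Additive.ofMul (Units.mk0 u hu) ∈ s := hS
    rw [← hg, Submodule.mem_span_range_iff_exists_fun] at h1
    obtain ⟨c, hc⟩ := h1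
    refine ⟨c, ?_⟩
    have h2 : Units.mk0 u hu = ∏ m, (Additive.toMul (g m) : Kˣ) ^ c m := by
      have h3 := congrArg Additive.toMul hc
      rw [toMul_ofMul, toMul_sum] at h3
      rw [← h3]
      exact Finset.prod_congr rfl fun m _ => (toMul_zsmul _ _).symm
    have h3 := congrArg (fun z : Kˣ => (z : K)) h2
    rw [Units.coe_prod] at h3
    refine (show u = _ from h3).trans (Finset.prod_congr rfl fun m _ => ?_)
    rw [Units.val_zpow_eq_zpow_val]

end LVH
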