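import Pool.Agent.Lib.MP_17a322_ntLH.F5

/-!
# LEAF F6: the components of an almost integral point

PROOF.  By `height_eq` the hypothesis says `∑ᶠ v, lam v - ∑ v ∈ S, lam v ≤ B`, so (all `lam v ≥ 0`, `S ⊆ S0`) `∑ᶠ v, (if v ∈ S0 then 0 else lam v) ≤ B`.  For `v ∉ S0`: `lam v = - log (v (Dv a x)) = ∑ w, - log (v (cmp a x w))` as the supremum is one, and all these terms are `≥ 0` (`v (x w) ≤ 1`, `fv_le`).
-/

namespace LVH

open NumberField

private theorem F6_prod {R : Type} [CommRing R] {j s : ℕ} {d : Fin s → ℕ} (a : Mo j d → R) (x : Vr j s → R) :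
    Dv a x = ∏ w, cmp a x w := by
  rw [Fintype.prod_sum_type]
  rfl

private theorem F6_le {K : Type} [Field K] [NumberField K] {j s : ℕ} {d : Fin s → ℕ} (v : FinitePlace K) (a : Mo j d → K)
    (ha : ∀ t, v (a t) ≤ 1) {x : Vr j s → K} (h1 : (⨆ w, v (x w)) = 1) (w : Vr j s) : v (cmp a x w) ≤ 1 := by
  rcases w with l | i
  · rw [← h1]
    exact le_ciSup (f := fun w => v (x w)) (Set.finite_range _).bddAbove (Sum.inl l)
  · have h := fv_le v (fun α => a ⟨i, α⟩) (fun α => ha ⟨i, α⟩) x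
    rw [h1, one_pow] at h
    exact h

private theorem F6_lam {K : Type} [Field K] [NumberField K] {j s : ℕ} {d : Fin s → ℕ} (v : FinitePlace K) (a : Mo j d → K)
    (ha : ∀ t, v (a t) ≤ 1) {x : Vr j s → K} (hD : Dv a x ≠ 0) (h1 : (⨆ w, v (x w)) = 1) (w : Vr j s) :
    - Real.log (v (cmp a x w)) ≤ lam v.1 a x := by
  have h2 : lam v.1 a x = ∑ w, - Real.log (v (cmp a x w)) := by
    have h3 : (⨆ w, v.1 (x w)) = 1 := h1
    have h4 : v.1 (Dv a x) = ∏ w, v (cmp a x w) := by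
      rw [F6_prod]
      exact map_prod v.1 _ _
    rw [F6_prod] at hD
    rw [Finset.prod_ne_zero_iff] at hD
    rw [lam, h3, Real.log_one, mul_zero, zero_sub, h4, Real.log_prod, Finset.sum_neg_distrib]
    intro w _
    exact (FinitePlace.pos_iff.2 (hD w (Finset.mem_univ w))).ne'
  rw [h2]
  exact Finset.single_le_sum (f := fun w => - Real.log (v (cmp a x w)))
    (fun w' _ => neg_nonneg.2 (Real.log_nonpos (apply_nonneg v _) (F6_le v a ha h1 w'))) (Finset.mem_univ w)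

open Classical in
theorem comps {K : Type} [Field K] [NumberField K] {j s : ℕ} {d : Fin s → ℕ} {S S0 : Finset (FinitePlace K)}
    (hS : S ⊆ S0) (a : Mo j d → K) (ha : ∀ (v : FinitePlace K) (t), v (a t) ≤ 1) {x : Vr j s → K}
    (hx : x ≠ 0) (hD : Dv a x ≠ 0) (h1 : ∀ v : FinitePlace K, v ∉ S0 → (⨆ w, v (x w)) = 1) {B : ℝ}
    (hB : (dg j d : ℝ) * Height.logHeight x ≤ (Module.finrank ℚ K : ℝ) * mS S a x + B) (w : Vr j s) :
    cmp a x w ≠ 0 ∧ (∀ v : FinitePlace K, v ∉ S0 → v (cmp a x w) ≤ 1) ∧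
      (∑ᶠ v : FinitePlace K, if v ∈ S0 then 0 else - Real.log (v (cmp a x w))) ≤ B := by
  have hne : cmp a x w ≠ 0 := by
    rw [F6_prod, Finset.prod_ne_zero_iff] at hD
    exact hD w (Finset.mem_univ w)
  refine ⟨hne, fun v hv => F6_le v a (ha v) (h1 v hv) w, ?_⟩
  obtain ⟨hfin, hH⟩ := height_eq a hx hD
  have hnn : ∀ v : FinitePlace K, 0 ≤ lam v.1 a x := fun v => lam_nonneg v a (ha v) hx hD
  have hK : (Module.finrank ℚ K : ℝ) ≠ 0 := Nat.cast_ne_zero.2 Module.finrank_pos.ne'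
  have hm : (Module.finrank ℚ K : ℝ) * mS S a x =
      ∑ v : InfinitePlace K, (v.mult : ℝ) * lam v.1 a x + ∑ v ∈ S, lam v.1 a x := by
    rw [mS]
    exact mul_div_cancel₀ _ hK
  rw [hH, hm] at hB
  set f : FinitePlace K → ℝ := fun v => if v ∈ S0 then 0 else - Real.log (v (cmp a x w)) with hf
  have hf0 : ∀ v, v ∈ S0 → f v = 0 := fun v hv => if_pos hv
  have hf1 : ∀ v, v ∉ S0 → 0 ≤ f v ∧ f v ≤ lam v.1 a x := by
    intro v hv
    have h2 : f v = - Real.log (v (cmp a x w)) := if_neg hv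
    rw [h2]
    exact ⟨neg_nonneg.2 (Real.log_nonpos (apply_nonneg v _) (F6_le v a (ha v) (h1 v hv) w)),
      F6_lam v a (ha v) hD (h1 v hv) w⟩
  have hs1 : ∑ᶠ v : FinitePlace K, lam v.1 a x = ∑ v ∈ hfin.toFinset ∪ S0, lam v.1 a x := by
    refine finsum_eq_sum_of_support_subset _ fun v hv => ?_
    rw [Finset.mem_coe, Finset.mem_union, Set.Finite.mem_toFinset]
    exact Or.inl hv
  have hs2 : ∑ᶠ v : FinitePlace K, f v = ∑ v ∈ hfin.toFinset ∪ S0, f v := by
    refine finsum_eq_sum_of_support_subset _ fun v hv => ?_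
    rw [Finset.mem_coe, Finset.mem_union, Set.Finite.mem_toFinset]
    by_cases h : v ∈ S0
    · exact Or.inr h
    · left
      intro h2
      have h3 := hf1 v h
      exact hv (le_antisymm (h3.2.trans h2.le) h3.1)
  have hs3 : ∑ v ∈ S, lam v.1 a x = ∑ v ∈ hfin.toFinset ∪ S0, if v ∈ S then lam v.1 a x else 0 := by
    rw [Finset.sum_ite_mem, Finset.inter_eq_right.2 (hS.trans Finset.subset_union_right)]
  have hs4 : ∑ v ∈ hfin.toFinset ∪ S0, f v + (∑ v ∈ hfin.toFinset ∪ S0, if v ∈ S then lam v.1 a x else 0) ≤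
      ∑ v ∈ hfin.toFinset ∪ S0, lam v.1 a x := by
    rw [← Finset.sum_add_distrib]
    refine Finset.sum_le_sum fun v _ => ?_
    by_cases h : v ∈ S
    · rw [hf0 v (hS h), if_pos h, zero_add]
    · rw [if_neg h, add_zero]
      by_cases h2 : v ∈ S0
      · rw [hf0 v h2]
        exact hnn v
      · exact (hf1 v h2).2
  rw [hs1, hs3] at hB
  show ∑ᶠ v : FinitePlace K, f v ≤ B
  rw [hs2]
  linarith

end LVH
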