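import Pool.Agent.Lib.MP_17a322_ntLH.T9B
import Pool.Agent.Lib.MP_17a322_ntLH.F1
import Pool.Agent.Lib.MP_17a322_ntLH.F2U
import Pool.Agent.Lib.MP_17a322_ntLH.F3
import Pool.Agent.Lib.MP_17a322_ntLH.F4
import Pool.Agent.Lib.MP_17a322_ntLH.F6
import Pool.Agent.Lib.MP_17a322_ntLH.F9

/-! Assembly. -/

namespace LVH

open Finset NumberField

/-- the trivial bound -/
private theorem triv {ι : Type} [Fintype ι] [DecidableEq ι] (H : ℕ) (Q : (ι → ℤ) → Prop) :
    (Nat.card {c : ι → ℤ // (∀ t, |c t| ≤ (H : ℤ)) ∧ Q c} : ℝ) ≤ (2 * (H : ℝ) + 1) ^ Fintype.card ι := by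
  classical
  rw [MWS.VM_card]
  have h1 : ((Fintype.piFinset (fun _ : ι => Icc (-(H : ℤ)) H)).filter Q).card ≤ (2 * H + 1) ^ Fintype.card ι := by
    refine (card_filter_le _ _).trans ?_
    rw [Fintype.card_piFinset, prod_const, Int.card_Icc, Finset.card_univ]
    exact Nat.pow_le_pow_left (by omega) _
  exact_mod_cast h1

private theorem x_ne {K : Type} [Field K] {j s : ℕ} {d : Fin s → ℕ} (hd : ∀ i, 1 ≤ d i) (hjs : 2 ≤ j + s)
    (a : Mo j d → K) {x : Vr j s → K} (h : Dv a x ≠ 0) : x ≠ 0 := by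
  rintro rfl
  apply h
  unfold Dv
  rcases Nat.eq_zero_or_pos j with hj | hj
  · have hs : 0 < s := by omega
    have h1 : Fv a ⟨0, hs⟩ (0 : Vr j s → K) = 0 := fv_zero (hd _) _
    rw [prod_eq_zero (mem_univ (⟨0, hs⟩ : Fin s)) h1, mul_zero]
  · rw [prod_eq_zero (mem_univ (⟨0, hj⟩ : Fin j)) (by rfl), zero_mul]

/-- the analysis of the constants -/
private theorem large (η B c1 A1 A2 : ℝ) (hη : 0 < η) (hB : 0 < B) (hc1 : 0 < c1) (h0 : ℕ) (m : ℕ) : ∃ H1 : ℕ,
    ∀ H : ℕ, H1 ≤ H → h0 ≤ H ∧ 2 ≤ Real.log H ^ (η / (2 * (B + 1))) ∧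
      m * (A1 + (Real.log H ^ (η / (2 * (B + 1)))) ^ B) ≤ Real.log H ^ η ∧
      A2 + (Real.log H ^ (η / (2 * (B + 1)))) ^ B * Real.log (Real.log H ^ (η / (2 * (B + 1)))) + m * (c1 * Real.log H) ≤
        Real.log H ^ (1 + η) ∧ (2 : ℝ) ≤ (H : ℝ) ^ c1 := by
  have hcast : Filter.Tendsto (fun H : ℕ => (H : ℝ)) Filter.atTop Filter.atTop := tendsto_natCast_atTop_atTop
  have hlog : Filter.Tendsto (fun H : ℕ => Real.log H) Filter.atTop Filter.atTop := Real.tendsto_log_atTop.comp hcast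
  have hη' : 0 < η / (2 * (B + 1)) := by positivity
  have hη2 : 0 < η / 2 := by positivity
  have e1 : ∀ᶠ H : ℕ in Filter.atTop, (2 : ℝ) ≤ Real.log H ^ (η / (2 * (B + 1))) :=
    ((tendsto_rpow_atTop hη').comp hlog).eventually_ge_atTop _
  have e2 : ∀ᶠ H : ℕ in Filter.atTop, 2 * (|A2| + m * c1) ≤ Real.log H ^ η :=
    ((tendsto_rpow_atTop hη).comp hlog).eventually_ge_atTop _
  have e3 : ∀ᶠ H : ℕ in Filter.atTop, (2 : ℝ) ≤ Real.log H := hlog.eventually_ge_atTop _
  have e4 : ∀ᶠ H : ℕ in Filter.atTop, (2 : ℝ) ≤ (H : ℝ) ^ c1 :=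
    ((tendsto_rpow_atTop hc1).comp hcast).eventually_ge_atTop _
  have e5 : ∀ᶠ H : ℕ in Filter.atTop, m * (|A1| + 1) ≤ Real.log H ^ (η / 2) :=
    ((tendsto_rpow_atTop hη2).comp hlog).eventually_ge_atTop _
  obtain ⟨H1, hH1⟩ := Filter.eventually_atTop.1
    ((Filter.eventually_ge_atTop h0).and (e1.and (e2.and (e3.and (e4.and e5)))))
  refine ⟨H1, fun H hH => ?_⟩
  obtain ⟨a1, a2, a3, a4, a5, a6⟩ := hH1 H hH
  have hl : 0 < Real.log H := by linarith
  have hl1 : 1 ≤ Real.log H := by linarith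
  have hB1 : η / (2 * (B + 1)) * B ≤ η / 2 := by
    rw [div_mul_eq_mul_div, div_le_div_iff₀ (by positivity) (by norm_num)]
    nlinarith
  have hB2 : η / (2 * (B + 1)) ≤ η / 2 := by
    rw [div_le_div_iff₀ (by positivity) (by norm_num)]
    nlinarith
  have h1 : (Real.log H ^ (η / (2 * (B + 1)))) ^ B ≤ Real.log H ^ (η / 2) := by
    rw [← Real.rpow_mul hl.le]
    exact Real.rpow_le_rpow_of_exponent_le hl1 hB1
  have h2 : Real.log (Real.log H ^ (η / (2 * (B + 1)))) ≤ Real.log H ^ (η / 2) :=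
    (Real.log_le_self (by positivity)).trans (Real.rpow_le_rpow_of_exponent_le hl1 hB2)
  have h3 : Real.log H ^ (η / 2) * Real.log H ^ (η / 2) = Real.log H ^ η := by
    rw [← Real.rpow_add hl]
    congr 1
    ring
  have h4 : 1 ≤ Real.log H ^ (η / 2) := Real.one_le_rpow hl1 hη2.le
  have hm : (0 : ℝ) ≤ m := Nat.cast_nonneg _
  refine ⟨a1, a2, ?_, ?_, a5⟩
  · calc m * (A1 + (Real.log H ^ (η / (2 * (B + 1)))) ^ B) ≤ m * (|A1| * Real.log H ^ (η / 2) + Real.log H ^ (η / 2)) := by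
          refine mul_le_mul_of_nonneg_left (add_le_add ?_ h1) hm
          exact (le_abs_self A1).trans (le_mul_of_one_le_right (abs_nonneg A1) h4)
      _ = m * (|A1| + 1) * Real.log H ^ (η / 2) := by ring
      _ ≤ Real.log H ^ (η / 2) * Real.log H ^ (η / 2) := mul_le_mul_of_nonneg_right a6 (by positivity)
      _ = Real.log H ^ η := h3
  · have h5 : (Real.log H ^ (η / (2 * (B + 1)))) ^ B * Real.log (Real.log H ^ (η / (2 * (B + 1)))) ≤ Real.log H ^ η := by
      rw [← h3]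
      refine mul_le_mul h1 h2 (Real.log_nonneg (by linarith)) (by positivity)
    have h6 : A2 ≤ |A2| * Real.log H := (le_abs_self A2).trans (le_mul_of_one_le_right (abs_nonneg A2) hl1)
    rw [Real.rpow_add hl, Real.rpow_one]
    have h7 : (0 : ℝ) ≤ Real.log H ^ η := by positivity
    nlinarith

/-- there are finitely many places of bounded norm -/
private theorem small_fin (K : Type) [Field K] [NumberField K] (y : ℝ) :
    {v : FinitePlace K | (Ideal.absNorm v.maximalIdeal.asIdeal : ℝ) ≤ y}.Finite := by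
  have h1 : {I : Ideal (𝓞 K) | (Ideal.absNorm I : ℝ) ≤ y}.Finite := by
    refine (Ideal.finite_setOfPred_absNorm_le (S := 𝓞 K) ⌊y⌋₊).subset ?_
    intro J hJ
    exact Nat.le_floor hJ
  refine Set.Finite.of_finite_image (f := fun v : FinitePlace K => v.maximalIdeal.asIdeal) (h1.subset ?_) ?_
  · rintro _ ⟨v, hv, rfl⟩
    exact hv
  · intro v _ w _ h
    exact FinitePlace.maximalIdeal_injective (IsDedekindDomain.HeightOneSpectrum.ext h)

private theorem cf_int {K : Type} [Field K] [NumberField K] {τ : Type} {e : ℕ} (ω : Fin e → 𝓞 K)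
    (c : τ × Fin e → ℤ) (v : FinitePlace K) (t : τ) : v (cf ω c t) ≤ 1 := by
  have h1 : cf ω c t = ((∑ k, (c (t, k) : 𝓞 K) * ω k : 𝓞 K) : K) := by
    unfold cf co
    simp
  rw [h1]
  exact place_int K v _

private theorem mS_mono {K : Type} [Field K] [NumberField K] {j s : ℕ} {d : Fin s → ℕ} {S S' : Finset (FinitePlace K)}
    (h : S ⊆ S') (a : Mo j d → K) (ha : ∀ (v : FinitePlace K) (t), v (a t) ≤ 1) {x : Vr j s → K} (hx : x ≠ 0)
    (hD : Dv a x ≠ 0) : mS S a x ≤ mS S' a x := by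
  unfold mS
  refine div_le_div_of_nonneg_right (add_le_add le_rfl ?_) (Nat.cast_nonneg _)
  exact sum_le_sum_of_subset_of_nonneg h fun v _ _ => lam_nonneg v a (ha v) hx hD

open Classical in
theorem main (K : Type) [Field K] [NumberField K] : ∃ δ η : ℝ, 0 < δ ∧ 0 < η ∧ ∀ (S1 : Finset (FinitePlace K)) (j s : ℕ)
    (d : Fin s → ℕ), 2 ≤ j + s → (∀ i, 1 ≤ d i) → (∃ i, 2 ≤ d i) → ∀ (e : ℕ) (ω : Fin e → 𝓞 K), ω ≠ 0 →
      ∃ c0 C : ℝ, 0 < c0 ∧ ∀ H : ℕ, 1 ≤ H →
        (Nat.card {c : Mo j d × Fin e → ℤ // (∀ t, |c t| ≤ (H : ℤ)) ∧ ¬ ∀ S : Finset (FinitePlace K),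
          (∀ v ∈ S, v ∈ S1 ∨ (Ideal.absNorm v.maximalIdeal.asIdeal : ℝ) ≤ Real.log H ^ η) →
            ∀ x : Vr j s → K, Dv (cf ω c) x ≠ 0 →
              mS S (cf ω c) x < dg j d * (Height.logHeight x / Module.finrank ℚ K) - c0 * Real.log H} : ℝ) ≤
                C * (H : ℝ) ^ ((Fintype.card (Mo j d × Fin e) : ℝ) - δ) := by
  obtain ⟨δ, η, hδ, hη, hcl⟩ := one_class K
  obtain ⟨B, hB, hBc, hW⟩ := ideal_reps K
  obtain ⟨r0, hr0⟩ := sunit_rank K
  refine ⟨δ / 2, η / (2 * (B + 1)), by positivity, by positivity, fun S1 j s d hjs hd h2 e ω hω => ?_⟩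
  obtain ⟨k0, hk0⟩ := Function.ne_iff.1 hω
  have hk0' : ((ω k0 : 𝓞 K) : K) ≠ 0 := by
    intro h
    apply hk0
    exact RingOfIntegers.ext h
  obtain ⟨S2, hS2, hsc⟩ := scale K (S1 ∪ (fin_ne K hk0').toFinset)
  obtain ⟨h0, hh0⟩ := hcl d hd hjs h2 e
  have hjs0 : (0 : ℝ) < ((j + s : ℕ) : ℝ) := by
    have : 0 < j + s := by omega
    exact_mod_cast this
  have hn : (0 : ℝ) < (Module.finrank ℚ K : ℝ) := by exact_mod_cast (Module.finrank_pos : 0 < Module.finrank ℚ K)
  obtain ⟨c1, hc1⟩ : ∃ c1 : ℝ, c1 = δ / (2 * B * ((j + s : ℕ) : ℝ)) := ⟨_, rfl⟩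
  have hc10 : 0 < c1 := by rw [hc1]; positivity
  obtain ⟨A2, hA2⟩ : ∃ A2 : ℝ, A2 = ∑ v ∈ S2, Real.log (Ideal.absNorm v.maximalIdeal.asIdeal : ℝ) := ⟨_, rfl⟩
  obtain ⟨H1, hH1⟩ := large η B c1 (r0 + S2.card) A2 hη hB hc10 h0 (j + s)
  obtain ⟨N, hN⟩ : ∃ N : ℕ, N = Fintype.card (Mo j d × Fin e) := ⟨_, rfl⟩
  obtain ⟨C', hC'⟩ : ∃ C' : ℝ, C' = (2 * (H1 : ℝ) + 1) ^ N * ((H1 : ℝ) + 1) ^ (δ / 2) := ⟨_, rfl⟩
  have hC'0 : 0 ≤ C' := by rw [hC']; positivity
  refine ⟨c1 / Module.finrank ℚ K, C' + 1, by positivity, fun H hH => ?_⟩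
  have hHr : (1 : ℝ) ≤ H := by exact_mod_cast hH
  have hHpos : (0 : ℝ) < H := by linarith
  rw [← hN]
  have hpow : (0 : ℝ) < (H : ℝ) ^ ((N : ℝ) - δ / 2) := Real.rpow_pos_of_pos hHpos _
  rcases lt_or_ge H H1 with hlt | hge
  · -- small `H`
    refine (triv H _).trans ?_
    rw [← hN]
    have hlt' : (H : ℝ) ≤ H1 := by exact_mod_cast hlt.le
    calc (2 * (H : ℝ) + 1) ^ N ≤ (2 * (H1 : ℝ) + 1) ^ N := pow_le_pow_left₀ (by positivity) (by linarith) _
      _ = (2 * (H1 : ℝ) + 1) ^ N * 1 := (mul_one _).symm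
      _ ≤ (2 * (H1 : ℝ) + 1) ^ N * (((H1 : ℝ) + 1) ^ (δ / 2) * (H : ℝ) ^ ((N : ℝ) - δ / 2)) := by
          refine mul_le_mul_of_nonneg_left ?_ (by positivity)
          have h3 : (H : ℝ) ^ (-(δ / 2)) ≤ (H : ℝ) ^ ((N : ℝ) - δ / 2) :=
            Real.rpow_le_rpow_of_exponent_le hHr (by have : (0 : ℝ) ≤ N := Nat.cast_nonneg _; linarith)
          have h4 : (H : ℝ) ^ (δ / 2) ≤ ((H1 : ℝ) + 1) ^ (δ / 2) :=
            Real.rpow_le_rpow hHpos.le (by linarith) (by positivity)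
          calc (1 : ℝ) = (H : ℝ) ^ (δ / 2) * (H : ℝ) ^ (-(δ / 2)) := by
                rw [← Real.rpow_add hHpos, add_neg_cancel, Real.rpow_zero]
            _ ≤ ((H1 : ℝ) + 1) ^ (δ / 2) * (H : ℝ) ^ ((N : ℝ) - δ / 2) := by gcongr
      _ = C' * (H : ℝ) ^ ((N : ℝ) - δ / 2) := by rw [hC']; ring
      _ ≤ (C' + 1) * (H : ℝ) ^ ((N : ℝ) - δ / 2) := mul_le_mul_of_nonneg_right (by linarith) hpow.le
  · -- large `H`
    obtain ⟨a1, a2, a3, a4, a5⟩ := hH1 H hge
    obtain ⟨y, hy⟩ : ∃ y : ℝ, y = Real.log H ^ (η / (2 * (B + 1))) := ⟨_, rfl⟩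
    rw [← hy] at a2 a3 a4 ⊢
    obtain ⟨P, hP⟩ : ∃ P : Finset (FinitePlace K), ∀ v, v ∈ P ↔ (Ideal.absNorm v.maximalIdeal.asIdeal : ℝ) ≤ y :=
      ⟨(small_fin K y).toFinset, fun v => (Set.Finite.mem_toFinset _)⟩
    have hPc : (P.card : ℝ) ≤ y ^ B := by
      have h1 := card_places K P y fun v hv => (hP v).1 hv
      exact le_trans (by exact_mod_cast h1) (hBc y a2)
    obtain ⟨S0, hS0⟩ : ∃ S0 : Finset (FinitePlace K), S0 = S2 ∪ P := ⟨_, rfl⟩
    have hS0c : (S0.card : ℝ) ≤ S2.card + y ^ B := by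
      have h1 : S0.card ≤ S2.card + P.card := by rw [hS0]; exact card_union_le _ _
      calc (S0.card : ℝ) ≤ (S2.card : ℝ) + P.card := by exact_mod_cast h1
        _ ≤ S2.card + y ^ B := by linarith
    have hlogn : ∀ v : FinitePlace K, 0 ≤ Real.log (Ideal.absNorm v.maximalIdeal.asIdeal : ℝ) := fun v =>
      Real.log_natCast_nonneg _
    have hS0l : ∑ v ∈ S0, Real.log (Ideal.absNorm v.maximalIdeal.asIdeal : ℝ) ≤ A2 + y ^ B * Real.log y := by
      have hly : 0 ≤ Real.log y := Real.log_nonneg (by linarith)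
      calc ∑ v ∈ S0, Real.log (Ideal.absNorm v.maximalIdeal.asIdeal : ℝ)
          ≤ ∑ v ∈ S2, Real.log (Ideal.absNorm v.maximalIdeal.asIdeal : ℝ) +
            ∑ v ∈ P, Real.log (Ideal.absNorm v.maximalIdeal.asIdeal : ℝ) := by
            rw [hS0, ← sum_union_inter]
            exact le_add_of_nonneg_right (sum_nonneg fun v _ => hlogn v)
        _ ≤ A2 + ∑ _v ∈ P, Real.log y := by
            rw [← hA2]
            refine add_le_add le_rfl (sum_le_sum fun v hv => ?_)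
            have h1 : 0 < Ideal.absNorm v.maximalIdeal.asIdeal :=
              (NumberField.HeightOneSpectrum.one_lt_absNorm v.maximalIdeal).trans' zero_lt_one
            exact Real.log_le_log (by exact_mod_cast h1) ((hP v).1 hv)
        _ = A2 + P.card * Real.log y := by rw [sum_const, nsmul_eq_mul]
        _ ≤ A2 + y ^ B * Real.log y := by gcongr
    obtain ⟨r, g, hrc, hg, hgen⟩ := hr0 S0
    obtain ⟨M0, hM0, hM0', hM0l⟩ := exists_M1 K S0
    obtain ⟨W, hWc, hWm, hWr⟩ := hW S0 ((H : ℝ) ^ c1) a5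
    have hWm' : ∀ w : W, ∃ m : ℕ, m ≠ 0 ∧ (m : ℝ) ≤ (H : ℝ) ^ c1 ∧
        ∀ v : FinitePlace K, v ∉ S0 → v (m : K) = 1 → v (w : K) = 1 := fun w => (hWm w w.2).2
    choose mm hmm0 hmm1 hmm2 using hWm'
    have hcard : Fintype.card (Vr j s → W) = W.card ^ (j + s) := by
      rw [Fintype.card_fun, Fintype.card_sum, Fintype.card_fin, Fintype.card_fin, Fintype.card_coe]
    have ε : Fin (W.card ^ (j + s)) ≃ (Vr j s → W) := by
      rw [← hcard]
      exact (Fintype.equivFin _).symm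
    have hunion := MWS.VM_union (ι := Mo j d × Fin e) (H := H) (N := W.card ^ (j + s))
      (fun c => ¬ ∀ S : Finset (FinitePlace K),
          (∀ v ∈ S, v ∈ S1 ∨ (Ideal.absNorm v.maximalIdeal.asIdeal : ℝ) ≤ y) →
            ∀ x : Vr j s → K, Dv (cf ω c) x ≠ 0 → mS S (cf ω c) x <
              dg j d * (Height.logHeight x / Module.finrank ℚ K) - c1 / Module.finrank ℚ K * Real.log H)
      (fun i c => Ptc (fun k => (ω k : K)) g (fun w => ((ε i w : W) : K)) c)
      (by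
        intro c _ hc
        push Not at hc
        obtain ⟨S, hS, x, hx, hxm⟩ := hc
        have hx0 := x_ne hd hjs (cf ω c) hx
        have hSS : S ⊆ S0 := by
          intro v hv
          rw [hS0, mem_union]
          rcases hS v hv with h | h
          · exact Or.inl (hS2 (mem_union_left _ h))
          · exact Or.inr ((hP v).2 h)
        obtain ⟨l, hl, hls⟩ := hsc (Vr j s) x hx0
        have hx0' : l • x ≠ 0 := smul_ne_zero hl hx0
        have hDx : Dv (cf ω c) (l • x) ≠ 0 := by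
          rw [Dv_smul]
          exact mul_ne_zero (pow_ne_zero _ hl) hx
        have hmS : mS S (cf ω c) (l • x) = mS S (cf ω c) x := by
          unfold mS
          congr 2
          · exact sum_congr rfl fun v _ => by rw [lam_smul v.1 _ hl hx0 hx]
          · exact sum_congr rfl fun v _ => by rw [lam_smul v.1 _ hl hx0 hx]
        have hB' : (dg j d : ℝ) * Height.logHeight (l • x) ≤
            (Module.finrank ℚ K : ℝ) * mS S (cf ω c) (l • x) + Real.log ((H : ℝ) ^ c1) := by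
          rw [hmS, Height.logHeight_smul_eq_logHeight _ hl, Real.log_rpow hHpos]
          have h5 := mul_le_mul_of_nonneg_left hxm hn.le
          have h6 : (Module.finrank ℚ K : ℝ) * (dg j d * (Height.logHeight x / Module.finrank ℚ K) -
              c1 / Module.finrank ℚ K * Real.log H) = dg j d * Height.logHeight x - c1 * Real.log H := by
            field_simp
          rw [h6] at h5
          linarith
        have hcomp := comps (S := S) (S0 := S0) hSS (cf ω c)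
          (fun v t => cf_int ω c v t) hx0' hDx (fun v hv => by
            have h7 : v ∉ S2 := fun h => hv (by rw [hS0]; exact mem_union_left _ h)
            simpa using hls v h7) hB'
        have hex : ∀ w : Vr j s, ∃ (b : W) (n : Fin r → ℤ), cmp (cf ω c) (l • x) w = (b : K) * ∏ m, g m ^ n m := by
          intro w
          obtain ⟨b1, b2, b3⟩ := hcomp w
          obtain ⟨b, hb, hbv⟩ := hWr _ b1 b2 b3
          have hb0 : b ≠ 0 := (hWm b hb).1
          obtain ⟨n, hn'⟩ := hgen (cmp (cf ω c) (l • x) w / b) (div_ne_zero b1 hb0) (fun v hv => by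
            rw [map_div₀, hbv v hv, div_self]
            exact (FinitePlace.pos_iff.2 hb0).ne')
          exact ⟨⟨b, hb⟩, n, by rw [← hn', mul_div_cancel₀ _ hb0]⟩
        choose b n hbn using hex
        refine ⟨ε.symm b, l • x, n, fun i => ?_, fun i => ?_⟩
        · have h7 := hbn (Sum.inl i)
          rw [ε.apply_symm_apply]
          exact h7
        · have h7 := hbn (Sum.inr i)
          rw [ε.apply_symm_apply]
          exact h7)
      1 ((H : ℝ) ^ ((N : ℝ) - δ)) zero_le_one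
      (fun i => by
        rw [mul_one, hN]
        refine hh0 r (M0 * ∏ w : Vr j s, mm (ε i w)) H a1 ?_ ?_ ?_ _ g _ ⟨fun m => (hg m).1, fun w => (hWm _ (ε i w).2).1, ?_⟩
        · exact mul_ne_zero hM0 (prod_ne_zero_iff.2 fun w _ => hmm0 _)
        · refine le_trans ?_ a3
          rw [Nat.cast_mul, mul_comm]
          refine mul_le_mul_of_nonneg_left ?_ hjs0.le
          have h1 : (r : ℝ) ≤ r0 + S0.card := by exact_mod_cast hrc
          linarith
        · refine le_trans ?_ a4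
          rw [Nat.cast_mul, Real.log_mul (by exact_mod_cast hM0) (by
            have : (∏ w : Vr j s, mm (ε i w)) ≠ 0 := prod_ne_zero_iff.2 fun w _ => hmm0 _
            exact_mod_cast this), Nat.cast_prod, Real.log_prod (fun w _ => by exact_mod_cast hmm0 _)]
          have h8 : ∑ w : Vr j s, Real.log (mm (ε i w)) ≤ ∑ _w : Vr j s, c1 * Real.log H := by
            refine sum_le_sum fun w _ => ?_
            rw [← Real.log_rpow hHpos]
            exact Real.log_le_log (by exact_mod_cast Nat.pos_of_ne_zero (hmm0 _)) (hmm1 _)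
          rw [sum_const, card_univ, Fintype.card_sum, Fintype.card_fin, Fintype.card_fin, nsmul_eq_mul] at h8
          linarith
        · intro p hp hpM π
          have hpM0 : ¬ p ∣ M0 := fun h => hpM (h.mul_right _)
          have hpm : ∀ w, ¬ p ∣ mm (ε i w) := fun w h =>
            hpM ((h.trans (dvd_prod_of_mem (fun w => mm (ε i w)) (mem_univ w))).mul_left _)
          obtain ⟨v, hv1, hv2⟩ := pl_place K hp π
          have hvS : v ∉ S0 := by
            intro h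
            have h9 := hM0' v h
            rw [place_coprime K v hp hv1 hpM0] at h9
            exact lt_irrefl _ h9
          have hu : ∀ y : K, v y = 1 → y ∈ π.V ∧ y⁻¹ ∈ π.V := fun y hy =>
            ⟨hv2 y hy.le, hv2 y⁻¹ (by rw [map_inv₀, hy, inv_one])⟩
          refine ⟨fun k => hv2 _ (place_int K v _), ⟨k0, hk0', (hu _ ?_).2⟩, fun m => hu _ ((hg m).2 v hvS), fun w =>
            hu _ (hmm2 _ v hvS (place_coprime K v hp hv1 (hpm w)))⟩
          by_contra hne
          exact hvS (by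
            rw [hS0]
            exact mem_union_left _ (hS2 (mem_union_right _ ((Set.Finite.mem_toFinset _).2 hne)))))
    rw [mul_one] at hunion
    refine hunion.trans ?_
    have h10 : ((W.card ^ (j + s) : ℕ) : ℝ) ≤ (H : ℝ) ^ (δ / 2) := by
      push_cast
      calc ((W.card : ℝ)) ^ (j + s) ≤ (((H : ℝ) ^ c1) ^ B) ^ (j + s) := pow_le_pow_left₀ (Nat.cast_nonneg _) hWc _
        _ = (H : ℝ) ^ (δ / 2) := by
            rw [← Real.rpow_natCast, ← Real.rpow_mul hHpos.le, ← Real.rpow_mul hHpos.le]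
            congr 1
            rw [hc1]
            field_simp
    calc ((W.card ^ (j + s) : ℕ) : ℝ) * (H : ℝ) ^ ((N : ℝ) - δ) ≤ (H : ℝ) ^ (δ / 2) * (H : ℝ) ^ ((N : ℝ) - δ) := by gcongr
      _ = (H : ℝ) ^ ((N : ℝ) - δ / 2) := by
          rw [← Real.rpow_add hHpos]
          congr 1
          ring
      _ ≤ (C' + 1) * (H : ℝ) ^ ((N : ℝ) - δ / 2) := le_mul_of_one_le_left hpow.le (by linarith)

end LVH
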