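import Pool.Agent.Lib.MP_17a322_ntLH.Defs

/-! The divisor, its local heights and the proximity function. -/

namespace LVH

open NumberField

/-- the degree of the divisor `x_1 ⋯ x_j F_1 ⋯ F_s = 0` -/
def dg (j : ℕ) {s : ℕ} (d : Fin s → ℕ) : ℕ := j + ∑ i, d i

/-- the value at `x` of its equation, the product of the first `j` coordinates and of the `s` forms -/
def Dv {R : Type} [CommRing R] {j s : ℕ} {d : Fin s → ℕ} (a : Mo j d → R) (x : Vr j s → R) : R :=
  (∏ l, x (Sum.inl l)) * ∏ i, Fv a i x

/-- the local height of the divisor at the point with coordinates `x` for the absolute value `v`,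
`- log (|D(x)|_v / |x|_v ^ deg D)` -/
noncomputable def lam {K : Type} [Field K] {j s : ℕ} {d : Fin s → ℕ} (v : AbsoluteValue K ℝ) (a : Mo j d → K)
    (x : Vr j s → K) : ℝ :=
  (dg j d : ℝ) * Real.log (⨆ w, v (x w)) - Real.log (v (Dv a x))

/-- the proximity function of the divisor for the set of places consisting of the infinite places and the places
in `S`, at the point with coordinates `x` -/
noncomputable def mS {K : Type} [Field K] [NumberField K] {j s : ℕ} {d : Fin s → ℕ} (S : Finset (FinitePlace K))
    (a : Mo j d → K) (x : Vr j s → K) : ℝ :=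
  (∑ v : InfinitePlace K, (v.mult : ℝ) * lam v.1 a x + ∑ v ∈ S, lam v.1 a x) / Module.finrank ℚ K

/-- the coefficient vector `∑ k, c (t, k) ω k` in `K` -/
noncomputable def cf {K : Type} [Field K] [NumberField K] {τ : Type} {e : ℕ} (ω : Fin e → 𝓞 K) (c : τ × Fin e → ℤ) :
    τ → K := co (fun k => (ω k : K)) fun t => ((c t : ℤ) : K)

/-- the coordinates `x_l` and the values of the forms -/
def cmp {R : Type} [CommRing R] {j s : ℕ} {d : Fin s → ℕ} (a : Mo j d → R) (x : Vr j s → R) : Vr j s → R :=
  Sum.elim (fun l => x (Sum.inl l)) (fun i => Fv a i x)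

end LVH
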