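import Pool.Agent.Lib.MP_17a322_ntLH.PDefs
import Pool.Agent.Lib.MP_10e784_agW.SB1
import Pool.Agent.Lib.MP_42948a_nt.TQ.A2

/-!
# LEAF T1P: the sieve upper bound for the primes `q` with `m q + 1` prime

PROOF.  Copy `Pool/Agent/Lib/MP_10e784_agW/SB1.lean` and `SB.lean` (there `m q - 1`), with `gm`, `fund`, `Adm`, `PP` of `MP_10e784_agW/SA*.lean` (where they are not tied to the sign, import them); the residue classes of `q` modulo `p` are `0` and `- 1 / m`.
-/

namespace LVH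

open Finset MWS

open Pool.Agent.Lib.MP_42948a_nt.OA Pool.Agent.Lib.MP_42948a_nt.AC Pool.Agent.Lib.MP_42948a_nt.TQ

private theorem T1P1_base (N a : ℕ) (hN : 1 ≤ N) (X : ℝ) (hX : 0 ≤ X) :
    |(((Icc 1 ⌊X⌋₊).filter (fun q => q ≡ a [MOD N])).card : ℝ) - X / N| ≤ 1 := by
  have hN' : (0 : ℝ) < N := by exact_mod_cast hN
  have hI : Icc 1 ⌊X⌋₊ = Ioc 0 ⌊X⌋₊ := by
    ext q
    simp only [mem_Icc, mem_Ioc]
    omega
  have h1 := Nat.Ioc_filter_modEq_card (r := N) 0 ⌊X⌋₊ hN a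
  rw [hI]
  have hfl : ⌊X⌋₊ ≤ X := Nat.floor_le hX
  have hlt : X < ⌊X⌋₊ + 1 := Nat.lt_floor_add_one X
  set n : ℕ := ⌊X⌋₊ with hn
  -- integer floors
  have e1 : ∀ b : ℕ, ⌊((b : ℚ) - (a : ℚ)) / (N : ℚ)⌋ = ((b : ℤ) - a) / N := by
    intro b
    have := Rat.floor_intCast_div_natCast ((b : ℤ) - a) N
    push_cast at this
    exact this
  rw [e1, e1] at h1
  push_cast at h1
  have hNz : (0 : ℤ) < N := by exact_mod_cast hN
  -- write n - a = N s + r , - a = N t + r'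
  have s1 := Int.emod_add_mul_ediv ((n : ℤ) - a) N
  have s2 := Int.emod_nonneg ((n : ℤ) - a) hNz.ne'
  have s3 := Int.emod_lt_of_pos ((n : ℤ) - a) hNz
  have t1 := Int.emod_add_mul_ediv (0 - (a : ℤ)) N
  have t2 := Int.emod_nonneg (0 - (a : ℤ)) hNz.ne'
  have t3 := Int.emod_lt_of_pos (0 - (a : ℤ)) hNz
  set s : ℤ := ((n : ℤ) - a) / N
  set t : ℤ := (0 - (a : ℤ)) / N
  set r : ℤ := ((n : ℤ) - a) % N
  set r' : ℤ := (0 - (a : ℤ)) % N
  have hst : 0 ≤ s - t := by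
    by_contra hlt'
    push Not at hlt'
    have h5 : s - t ≤ -1 := by omega
    have h6 : (n : ℤ) = r - r' + N * (s - t) := by linear_combination t1 - s1
    have h7 : (0 : ℤ) ≤ n := Int.natCast_nonneg _
    nlinarith
  rw [max_eq_left hst] at h1
  have h2 : (((Ioc 0 n).filter (fun q => q ≡ a [MOD N])).card : ℝ) = (s : ℝ) - t := by
    have h3 : ((((Ioc 0 n).filter (fun q => q ≡ a [MOD N])).card : ℤ) : ℝ) = ((s - t : ℤ) : ℝ) := by
      rw [h1]
    push_cast at h3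
    exact h3
  rw [h2]
  have h4 : (n : ℝ) = r - r' + N * (s - t) := by
    have h6 : (n : ℤ) = r - r' + N * (s - t) := by linear_combination t1 - s1
    exact_mod_cast h6
  have hs2 : (0 : ℝ) ≤ r := by exact_mod_cast s2
  have hs3 : (r : ℝ) + 1 ≤ N := by exact_mod_cast s3
  have ht2 : (0 : ℝ) ≤ r' := by exact_mod_cast t2
  have ht3 : (r' : ℝ) + 1 ≤ N := by exact_mod_cast t3
  have h5 : (s : ℝ) - t - X / N = (N * (s - t) - X) / N := by
    field_simp
  rw [h5, abs_le]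
  constructor
  · rw [le_div_iff₀ hN']
    linarith
  · rw [div_le_iff₀ hN']
    linarith

/-- the residues -/
private noncomputable def T1P1_S (m p : ℕ) : Finset ℕ :=
  if p ∣ m then {0} else {0, (-(m : ZMod p)⁻¹).val}

private theorem T1P1_S_spec (m p : ℕ) (hm : 1 ≤ m) (hp : p.Prime) :
    (∀ c ∈ T1P1_S m p, c < p) ∧ ((T1P1_S m p).card : ℝ) / p = gm m p ∧ (T1P1_S m p).card ≤ 2 ∧
      ∀ q : ℕ, 1 ≤ q → (p ∣ q * (m * q + 1) ↔ q % p ∈ T1P1_S m p) := by
  have : Fact p.Prime := ⟨hp⟩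
  have hnz : NeZero p := ⟨hp.ne_zero⟩
  have hdiv : ∀ q : ℕ, 1 ≤ q → (p ∣ q * (m * q + 1) ↔ (q : ZMod p) = 0 ∨ (m : ZMod p) * q = -1) := by
    intro q hq
    rw [hp.dvd_mul, ← ZMod.natCast_eq_zero_iff, ← ZMod.natCast_eq_zero_iff]
    push_cast
    rw [eq_neg_iff_add_eq_zero]
  by_cases h : p ∣ m
  · have hS : T1P1_S m p = {0} := by
      unfold T1P1_S
      rw [if_pos h]
    have hm0 : (m : ZMod p) = 0 := (ZMod.natCast_eq_zero_iff m p).2 h
    rw [hS]
    refine ⟨?_, ?_, by simp, ?_⟩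
    · intro c hc
      rw [mem_singleton] at hc
      rw [hc]
      exact hp.pos
    · unfold gm
      rw [if_pos h, card_singleton]
      simp
    · intro q hq
      rw [hdiv q hq, hm0, zero_mul, mem_singleton]
      constructor
      · rintro (h1 | h1)
        · exact Nat.mod_eq_zero_of_dvd ((ZMod.natCast_eq_zero_iff q p).1 h1)
        · exact absurd h1.symm (neg_ne_zero.2 one_ne_zero)
      · intro h1
        left
        exact (ZMod.natCast_eq_zero_iff q p).2 (Nat.dvd_of_mod_eq_zero h1)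
  · have hS : T1P1_S m p = {0, (-(m : ZMod p)⁻¹).val} := by
      unfold T1P1_S
      rw [if_neg h]
    have hm0 : (m : ZMod p) ≠ 0 := fun h1 => h ((ZMod.natCast_eq_zero_iff m p).1 h1)
    have hinv : -(m : ZMod p)⁻¹ ≠ 0 := neg_ne_zero.2 (inv_ne_zero hm0)
    have hv : (0 : ℕ) ≠ (-(m : ZMod p)⁻¹).val := by
      intro h1
      exact hinv ((ZMod.val_eq_zero _).1 h1.symm)
    rw [hS]
    refine ⟨?_, ?_, ?_, ?_⟩
    · intro c hc
      rw [mem_insert, mem_singleton] at hc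
      rcases hc with rfl | rfl
      · exact hp.pos
      · exact ZMod.val_lt _
    · unfold gm
      rw [if_neg h, card_pair hv]
      norm_num
    · rw [card_pair hv]
    · intro q hq
      rw [hdiv q hq, mem_insert, mem_singleton]
      constructor
      · rintro (h1 | h1)
        · left
          exact Nat.mod_eq_zero_of_dvd ((ZMod.natCast_eq_zero_iff q p).1 h1)
        · right
          have h2 : (q : ZMod p) = -(m : ZMod p)⁻¹ := by
            have h3 : (q : ZMod p) = (m : ZMod p)⁻¹ * ((m : ZMod p) * q) := by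
              rw [← mul_assoc, inv_mul_cancel₀ hm0, one_mul]
            rw [h3, h1, mul_neg, mul_one]
          rw [← h2, ZMod.val_natCast]
      · rintro (h1 | h1)
        · left
          exact (ZMod.natCast_eq_zero_iff q p).2 (Nat.dvd_of_mod_eq_zero h1)
        · right
          have h2 : (q : ZMod p) = -(m : ZMod p)⁻¹ := by
            have h3 : ((q % p : ℕ) : ZMod p) = ((-(m : ZMod p)⁻¹).val : ZMod p) := by rw [h1]
            rw [ZMod.natCast_mod, ZMod.natCast_val, ZMod.cast_id] at h3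
            exact h3
          rw [h2, mul_neg, mul_inv_cancel₀ hm0]

private theorem T1P1_ind (m : ℕ) (hm : 1 ≤ m) (T : Finset ℕ) : (∀ p ∈ T, p.Prime) →
    ∀ (N a : ℕ), 1 ≤ N → (∀ p ∈ T, Nat.Coprime N p) → ∀ X : ℝ, 0 ≤ X →
    |(((Icc 1 ⌊X⌋₊).filter (fun q => q ≡ a [MOD N] ∧ ∀ p ∈ T, p ∣ q * (m * q + 1))).card : ℝ) -
      X / N * ∏ p ∈ T, gm m p| ≤ ∏ _p ∈ T, (2 : ℝ) := by
  induction T using Finset.induction_on with
  | empty =>
    intro _ N a hN _ X hX
    have h1 := T1P1_base N a hN X hX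
    simpa using h1
  | insert p T hpT ih =>
    intro hT N a hN hco X hX
    have hp : p.Prime := hT p (mem_insert_self p T)
    have hT' : ∀ p' ∈ T, p'.Prime := fun p' hp' => hT p' (mem_insert_of_mem hp')
    have hNp : Nat.Coprime N p := hco p (mem_insert_self p T)
    obtain ⟨hS1, hS2, hS3, hS4⟩ := T1P1_S_spec m p hm hp
    have hfib := card_eq_sum_card_fiberwise (s := (Icc 1 ⌊X⌋₊).filter
      (fun q => q ≡ a [MOD N] ∧ ∀ p' ∈ insert p T, p' ∣ q * (m * q + 1))) (t := T1P1_S m p)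
      (f := fun q => q % p) (by
        intro q hq
        rw [mem_coe, mem_filter, mem_Icc] at hq
        exact (hS4 q hq.1.1).1 (hq.2.2 p (mem_insert_self p T)))
    have hcl : ∀ c ∈ T1P1_S m p, ((Icc 1 ⌊X⌋₊).filter
        (fun q => q ≡ a [MOD N] ∧ ∀ p' ∈ insert p T, p' ∣ q * (m * q + 1))).filter (fun q => q % p = c) =
        (Icc 1 ⌊X⌋₊).filter (fun q => q ≡ (Nat.chineseRemainder hNp a c : ℕ) [MOD N * p] ∧
          ∀ p' ∈ T, p' ∣ q * (m * q + 1)) := by
      intro c hc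
      have hk := (Nat.chineseRemainder hNp a c).2
      ext q
      rw [mem_filter, mem_filter, mem_filter, mem_Icc]
      constructor
      · rintro ⟨⟨hq, hqa, hqT⟩, hqc⟩
        refine ⟨hq, ?_, fun p' hp' => hqT p' (mem_insert_of_mem hp')⟩
        rw [← Nat.modEq_and_modEq_iff_modEq_mul hNp]
        refine ⟨hqa.trans hk.1.symm, ?_⟩
        have h1 : q ≡ c [MOD p] := by
          unfold Nat.ModEq
          rw [hqc, Nat.mod_eq_of_lt (hS1 c hc)]
        exact h1.trans hk.2.symm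
      · rintro ⟨hq, hqk, hqT⟩
        rw [← Nat.modEq_and_modEq_iff_modEq_mul hNp] at hqk
        have h1 : q ≡ c [MOD p] := hqk.2.trans hk.2
        have h2 : q % p = c := by
          unfold Nat.ModEq at h1
          rw [h1, Nat.mod_eq_of_lt (hS1 c hc)]
        refine ⟨⟨hq, hqk.1.trans hk.1, ?_⟩, h2⟩
        intro p' hp'
        rw [mem_insert] at hp'
        rcases hp' with rfl | hp'
        · rw [hS4 q hq.1, h2]
          exact hc
        · exact hqT p' hp'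
    have hsum : (((Icc 1 ⌊X⌋₊).filter
        (fun q => q ≡ a [MOD N] ∧ ∀ p' ∈ insert p T, p' ∣ q * (m * q + 1))).card : ℝ) =
        ∑ c ∈ T1P1_S m p, (((Icc 1 ⌊X⌋₊).filter (fun q => q ≡ (Nat.chineseRemainder hNp a c : ℕ) [MOD N * p] ∧
          ∀ p' ∈ T, p' ∣ q * (m * q + 1))).card : ℝ) := by
      rw [hfib]
      push_cast
      refine sum_congr rfl fun c hc => ?_
      rw [hcl c hc]
    have hmain : X / N * ∏ p' ∈ insert p T, gm m p' =
        ∑ _c ∈ T1P1_S m p, X / ((N * p : ℕ) : ℝ) * ∏ p' ∈ T, gm m p' := by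
      rw [prod_insert hpT, sum_const, nsmul_eq_mul, ← hS2]
      push_cast
      have hp0 : (p : ℝ) ≠ 0 := by exact_mod_cast hp.ne_zero
      have hN0 : (N : ℝ) ≠ 0 := by
        have : (0 : ℝ) < N := by exact_mod_cast hN
        exact this.ne'
      field_simp
    rw [hsum, hmain, ← sum_sub_distrib, prod_insert hpT]
    refine (abs_sum_le_sum_abs _ _).trans ?_
    have hstep : ∀ c ∈ T1P1_S m p, |(((Icc 1 ⌊X⌋₊).filter
        (fun q => q ≡ (Nat.chineseRemainder hNp a c : ℕ) [MOD N * p] ∧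
          ∀ p' ∈ T, p' ∣ q * (m * q + 1))).card : ℝ) - X / ((N * p : ℕ) : ℝ) * ∏ p' ∈ T, gm m p'| ≤
        ∏ _p ∈ T, (2 : ℝ) := by
      intro c _
      refine ih hT' (N * p) _ (Nat.mul_pos hN hp.pos) ?_ X hX
      intro p' hp'
      refine Nat.Coprime.mul_left (hco p' (mem_insert_of_mem hp')) ?_
      rw [Nat.coprime_primes hp (hT' p' hp')]
      rintro rfl
      exact hpT hp'
    refine (sum_le_sum hstep).trans ?_
    rw [sum_const, nsmul_eq_mul]
    apply mul_le_mul_of_nonneg_right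
    · exact_mod_cast hS3
    · exact prod_nonneg fun _ _ => by norm_num

private theorem T1P_cnt (m : ℕ) (hm : 1 ≤ m) (T : Finset ℕ) (hT : ∀ p ∈ T, p.Prime) (X : ℝ) (hX : 0 ≤ X) :
    |(((Icc 1 ⌊X⌋₊).filter (fun q => ∀ p ∈ T, p ∣ q * (m * q + 1))).card : ℝ) - X * ∏ p ∈ T, gm m p| ≤
      2 * ∏ p ∈ T, (p : ℝ) := by
  have h1 := T1P1_ind m hm T hT 1 0 le_rfl (fun p _ => Nat.coprime_one_left p) X hX
  have h2 : (Icc 1 ⌊X⌋₊).filter (fun q => q ≡ 0 [MOD 1] ∧ ∀ p ∈ T, p ∣ q * (m * q + 1)) =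
      (Icc 1 ⌊X⌋₊).filter (fun q => ∀ p ∈ T, p ∣ q * (m * q + 1)) := by
    ext q
    rw [mem_filter, mem_filter]
    constructor
    · rintro ⟨h3, _, h4⟩
      exact ⟨h3, h4⟩
    · rintro ⟨h3, h4⟩
      exact ⟨h3, Nat.modEq_one, h4⟩
  rw [h2, Nat.cast_one, div_one] at h1
  refine h1.trans ?_
  have h3 : ∏ _p ∈ T, (2 : ℝ) ≤ ∏ p ∈ T, (p : ℝ) := by
    refine prod_le_prod (fun _ _ => by norm_num) fun p hp => ?_
    exact_mod_cast (hT p hp).two_le
  have h4 : (0 : ℝ) ≤ ∏ p ∈ T, (p : ℝ) := prod_nonneg fun _ _ => by positivity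
  linarith

/-! ### Mertens' product, upper bound (copy of `MP_42948a_nt/PS/B2.lean`) -/

private noncomputable def T1P_f : ℕ →* ℝ where
  toFun n := ((n : ℝ))⁻¹
  map_one' := by simp
  map_mul' a b := by
    push_cast
    rw [mul_inv]

private lemma T1P_f_apply (n : ℕ) : T1P_f n = ((n : ℝ))⁻¹ := rfl

private lemma T1P_harmonic (z : ℕ) : Real.log ((z : ℝ) + 1) ≤ ∑ n ∈ Icc 1 z, ((n : ℝ))⁻¹ := by
  have h := log_add_one_le_harmonic z
  rw [harmonic_eq_sum_Icc] at h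
  push_cast at h
  exact h

private lemma T1P_euler (z : ℕ) :
    ∑ n ∈ Icc 1 z, ((n : ℝ))⁻¹ ≤ ∏ p ∈ PP z, (1 - ((p : ℝ))⁻¹)⁻¹ := by
  have h := (EulerProduct.summable_and_hasSum_smoothNumbers_prod_primesBelow_geometric
    (f := T1P_f) (fun {p} hp => by
      rw [T1P_f_apply, norm_inv, Real.norm_natCast]
      exact inv_lt_one_of_one_lt₀ (by exact_mod_cast hp.one_lt)) (z + 1)).2
  have hP : (z + 1).primesBelow = PP z := by
    ext p
    unfold PP
    rw [Nat.mem_primesBelow, mem_filter, mem_Icc]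
    constructor
    · rintro ⟨h1, h2⟩
      exact ⟨⟨h2.one_le, by omega⟩, h2⟩
    · rintro ⟨⟨h1, h2⟩, h3⟩
      exact ⟨by omega, h3⟩
  rw [hP] at h
  have hmem : ∀ n ∈ Icc 1 z, n ∈ (z + 1).smoothNumbers := fun n hn => by
    rw [mem_Icc] at hn
    exact Nat.mem_smoothNumbers_of_lt hn.1 (by omega)
  have h2 : ∑ n ∈ Icc 1 z, ((n : ℝ))⁻¹
      = ∑ m ∈ (Icc 1 z).attach.image (fun n => (⟨n.1, hmem n.1 n.2⟩ : (z + 1).smoothNumbers)),
        T1P_f (m : ℕ) := by
    rw [sum_image]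
    · rw [← sum_attach]
      exact sum_congr rfl fun n _ => rfl
    · intro a _ b _ hab
      have h3 : a.1 = b.1 := congrArg (fun m : (z + 1).smoothNumbers => (m : ℕ)) hab
      exact Subtype.ext h3
  rw [h2]
  exact sum_le_hasSum _ (fun m _ => by
    rw [T1P_f_apply]
    positivity) h

private theorem T1P_harm (z : ℕ) (hz : 2 ≤ z) : ∏ p ∈ PP z, (1 - 1 / (p : ℝ)) ≤ 1 / Real.log z := by
  have hz1 : (1 : ℝ) < z := by
    have : (2 : ℝ) ≤ z := by exact_mod_cast hz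
    linarith
  have hlog : 0 < Real.log z := Real.log_pos hz1
  have h1 : ∏ p ∈ PP z, (1 - 1 / (p : ℝ)) = (∏ p ∈ PP z, (1 - ((p : ℝ))⁻¹)⁻¹)⁻¹ := by
    rw [← prod_inv_distrib]
    refine prod_congr rfl fun p _ => ?_
    rw [inv_inv, one_div]
  rw [h1, one_div]
  refine inv_anti₀ hlog ?_
  have h2 := T1P_harmonic z
  have h3 := T1P_euler z
  have h4 : Real.log z ≤ Real.log ((z : ℝ) + 1) := Real.log_le_log (by linarith) (by linarith)
  linarith

private theorem T1P_PP {z p : ℕ} (hp : p ∈ PP z) : p.Prime ∧ p ≤ z := by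
  unfold PP at hp
  rw [mem_filter, mem_Icc] at hp
  exact ⟨hp.2, hp.1.2⟩

private theorem T1P_adm {m : ℕ} (he : Even m) (z : ℕ) : Adm z (gm m) := by
  intro p hp
  have hp' := (T1P_PP hp).1
  have hp2 : (2 : ℝ) ≤ p := by exact_mod_cast hp'.two_le
  have h0 : (0 : ℝ) < p := by linarith
  unfold gm
  split_ifs with h
  · refine ⟨by positivity, ?_, ?_⟩
    · rw [div_le_iff₀ h0]
      linarith
    · exact div_le_div_of_nonneg_right one_le_two h0.le
  · refine ⟨by positivity, ?_, le_rfl⟩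
    have h3 : (3 : ℝ) ≤ p := by
      have : p ≠ 2 := by
        rintro rfl
        exact h he.two_dvd
      have h4 : 3 ≤ p := by have := hp'.two_le; omega
      exact_mod_cast h4
    rw [div_le_iff₀ h0]
    linarith

/-- the singular series -/
private theorem T1P_prod {m : ℕ} (hm : 1 ≤ m) (z : ℕ) (hz : 2 ≤ z) (he : Even m) :
    ∏ p ∈ PP z, (1 - gm m p) ≤ (m : ℝ) / (Nat.totient m : ℝ) * (1 / Real.log z) ^ 2 := by
  have hf : ∀ p ∈ PP z, 0 < 1 - 1 / (p : ℝ) ∧ 1 - 1 / (p : ℝ) ≤ 1 := fun p hp => by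
    have h2 : (2 : ℝ) ≤ p := by exact_mod_cast (T1P_PP hp).1.two_le
    have h3 : 1 / (p : ℝ) ≤ 1 / 2 := one_div_le_one_div_of_le (by norm_num) h2
    have h4 : 0 ≤ 1 / (p : ℝ) := by positivity
    constructor <;> linarith
  have h1 : ∏ p ∈ PP z, (1 - gm m p) ≤
      ∏ p ∈ PP z, ((1 - 1 / (p : ℝ)) ^ 2 * (if p ∣ m then (1 - 1 / (p : ℝ))⁻¹ else 1)) := by
    refine prod_le_prod (fun p hp => ?_) (fun p hp => ?_)
    · have := (T1P_adm he z p hp).2.1
      linarith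
    · have h2 := hf p hp
      unfold gm
      split_ifs with h
      · rw [sq, mul_assoc, mul_inv_cancel₀ h2.1.ne', mul_one]
      · have e : (2 : ℝ) / p = 2 * (1 / p) := by ring
        rw [mul_one, e]
        nlinarith [sq_nonneg (1 / (p : ℝ))]
  have h2 : ∏ p ∈ PP z, (if p ∣ m then (1 - 1 / (p : ℝ))⁻¹ else 1) ≤ (m : ℝ) / (Nat.totient m : ℝ) := by
    rw [← prod_filter]
    have hsub : (PP z).filter (fun p => p ∣ m) ⊆ m.primeFactors := by
      intro p hp
      rw [mem_filter] at hp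
      exact Nat.mem_primeFactors.2 ⟨(T1P_PP hp.1).1, hp.2, by omega⟩
    have hone : ∀ p ∈ m.primeFactors, 1 ≤ (1 - 1 / (p : ℝ))⁻¹ := by
      intro p hp
      have h2 : (2 : ℝ) ≤ p := by exact_mod_cast (Nat.prime_of_mem_primeFactors hp).two_le
      have h3 : 1 / (p : ℝ) ≤ 1 / 2 := one_div_le_one_div_of_le (by norm_num) h2
      have h4 : 0 ≤ 1 / (p : ℝ) := by positivity
      exact (one_le_inv₀ (by linarith)).2 (by linarith)
    have hmono : ∏ p ∈ (PP z).filter (fun p => p ∣ m), (1 - 1 / (p : ℝ))⁻¹ ≤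
        ∏ p ∈ m.primeFactors, (1 - 1 / (p : ℝ))⁻¹ := by
      rw [← inter_eq_right.2 hsub, ← prod_ite_mem]
      refine prod_le_prod (fun p hp => ?_) (fun p hp => ?_)
      · have := hone p hp
        split_ifs <;> linarith
      · have := hone p hp
        split_ifs <;> linarith
    refine hmono.trans (le_of_eq ?_)
    · have ht := Nat.totient_eq_mul_prod_factors m
      have ht' : (Nat.totient m : ℝ) = m * ∏ p ∈ m.primeFactors, (1 - 1 / (p : ℝ)) := by
        have h5 := congrArg (fun x : ℚ => (x : ℝ)) ht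
        push_cast at h5
        simp only [one_div]
        exact h5
      have hm0 : (m : ℝ) ≠ 0 := by positivity
      rw [ht', prod_inv_distrib, div_mul_eq_div_div, div_self hm0, one_div]
  have hP0 : 0 ≤ ∏ p ∈ PP z, (1 - 1 / (p : ℝ)) := prod_nonneg fun p hp => (hf p hp).1.le
  refine h1.trans ?_
  rw [prod_mul_distrib, prod_pow, mul_comm]
  exact mul_le_mul h2 (pow_le_pow_left₀ hP0 (T1P_harm z hz) 2) (by positivity) (by positivity)

/-- the sieve bound -/
private theorem T1P_sieve {K z : ℕ} {u l : Finset ℕ → ℝ} (hF : Fund 1 K z u l) (hz : 2 ≤ z) {m : ℕ}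
    (hm : 1 ≤ m) (he : Even m) {X : ℝ} (hX : 0 ≤ X) :
    (((Icc 1 ⌊X⌋₊).filter (fun q => q.Prime ∧ (m * q + 1).Prime)).card : ℝ) ≤
      z + 2 * X * ((m : ℝ) / (Nat.totient m : ℝ) * (1 / Real.log z) ^ 2) +
        (z : ℝ) ^ K * (2 * (z : ℝ) ^ K) := by
  have hm2 : 2 ≤ m := by
    obtain ⟨k, hk⟩ := he
    omega
  set R : Finset ℕ := (Icc 1 ⌊X⌋₊).filter (fun q => ∀ p ∈ PP z, ¬ p ∣ q * (m * q + 1)) with hR
  have h1 : (Icc 1 ⌊X⌋₊).filter (fun q => q.Prime ∧ (m * q + 1).Prime) ⊆ Icc 1 z ∪ R := by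
    intro q hq
    rw [mem_filter] at hq
    rw [mem_union]
    by_cases hqz : q ≤ z
    · exact Or.inl (mem_Icc.2 ⟨(mem_Icc.1 hq.1).1, hqz⟩)
    · right
      rw [hR, mem_filter]
      refine ⟨hq.1, fun p hp hd => ?_⟩
      have hp' := T1P_PP hp
      have h2 : 2 * q ≤ m * q := Nat.mul_le_mul_right q hm2
      rcases (Nat.Prime.dvd_mul hp'.1).1 hd with h | h
      · have := (Nat.prime_dvd_prime_iff_eq hp'.1 hq.2.1).1 h
        omega
      · have := (Nat.prime_dvd_prime_iff_eq hp'.1 hq.2.2).1 h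
        omega
  have h2 : (((Icc 1 ⌊X⌋₊).filter (fun q => q.Prime ∧ (m * q + 1).Prime)).card : ℝ) ≤ z + (R.card : ℝ) := by
    have h3 := (card_le_card h1).trans (card_union_le _ _)
    rw [Nat.card_Icc, Nat.add_sub_cancel] at h3
    exact_mod_cast h3
  have h3 : (R.card : ℝ) ≤ ∑ T ∈ (PP z).powerset, u T *
      (((Icc 1 ⌊X⌋₊).filter (fun q => ∀ p ∈ T, p ∣ q * (m * q + 1))).card : ℝ) := by
    have e1 : (R.card : ℝ) = ∑ q ∈ Icc 1 ⌊X⌋₊, (if ∀ p ∈ PP z, ¬ p ∣ q * (m * q + 1) then (1 : ℝ) else 0) := by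
      rw [hR, card_filter]
      push_cast
      rfl
    have e2 : ∀ T ∈ (PP z).powerset, u T *
        (((Icc 1 ⌊X⌋₊).filter (fun q => ∀ p ∈ T, p ∣ q * (m * q + 1))).card : ℝ) =
        ∑ q ∈ Icc 1 ⌊X⌋₊, u T * (if ∀ p ∈ T, p ∣ q * (m * q + 1) then (1 : ℝ) else 0) := by
      intro T _
      rw [card_filter, ← mul_sum]
      push_cast
      rfl
    rw [e1, sum_congr rfl e2, sum_comm]
    exact sum_le_sum fun q _ => hF.u_pt _
  have h4 : ∑ T ∈ (PP z).powerset, u T *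
      (((Icc 1 ⌊X⌋₊).filter (fun q => ∀ p ∈ T, p ∣ q * (m * q + 1))).card : ℝ) ≤
      X * ∑ T ∈ (PP z).powerset, u T * ∏ p ∈ T, gm m p + (z : ℝ) ^ K * (2 * (z : ℝ) ^ K) := by
    have e3 : ∀ T ∈ (PP z).powerset, u T *
        (((Icc 1 ⌊X⌋₊).filter (fun q => ∀ p ∈ T, p ∣ q * (m * q + 1))).card : ℝ) ≤
        X * (u T * ∏ p ∈ T, gm m p) + (if ∏ p ∈ T, p ≤ z ^ K then 2 * (z : ℝ) ^ K else 0) := by
      intro T hT
      have hTs := mem_powerset.1 hT
      by_cases hu : u T = 0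
      · rw [hu, zero_mul, zero_mul, mul_zero, zero_add]
        split_ifs <;> positivity
      · have hs := hF.u_sup T hTs hu
        rw [if_pos hs]
        have hc := T1P_cnt m hm T (fun p hp => (T1P_PP (hTs hp)).1) X hX
        have hsR : ∏ p ∈ T, (p : ℝ) ≤ (z : ℝ) ^ K := by
          have h8 : ((∏ p ∈ T, p : ℕ) : ℝ) ≤ ((z ^ K : ℕ) : ℝ) := Nat.cast_le.2 hs
          rw [Nat.cast_prod, Nat.cast_pow] at h8
          exact h8
        have hu1 := hF.u_abs T
        set c : ℝ := (((Icc 1 ⌊X⌋₊).filter (fun q => ∀ p ∈ T, p ∣ q * (m * q + 1))).card : ℝ)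
        have e4 : u T * c = X * (u T * ∏ p ∈ T, gm m p) + u T * (c - X * ∏ p ∈ T, gm m p) := by ring
        rw [e4]
        have e5 : u T * (c - X * ∏ p ∈ T, gm m p) ≤ 2 * (z : ℝ) ^ K := by
          refine (le_abs_self _).trans ?_
          rw [abs_mul]
          calc |u T| * |c - X * ∏ p ∈ T, gm m p| ≤ 1 * (2 * ∏ p ∈ T, (p : ℝ)) :=
                mul_le_mul hu1 hc (abs_nonneg _) zero_le_one
            _ ≤ 2 * (z : ℝ) ^ K := by linarith
        linarith
    refine (sum_le_sum e3).trans ?_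
    rw [sum_add_distrib, ← mul_sum, ← sum_filter, sum_const, nsmul_eq_mul]
    have hcs : (((PP z).powerset.filter (fun T => ∏ p ∈ T, p ≤ z ^ K)).card : ℝ) ≤ (z : ℝ) ^ K := by
      exact_mod_cast count_sets z (z ^ K)
    have := mul_le_mul_of_nonneg_right hcs (by positivity : (0 : ℝ) ≤ 2 * (z : ℝ) ^ K)
    linarith
  have h5 := hF.u_sum (gm m) (T1P_adm he z)
  have h6 := T1P_prod hm z hz he
  have h7 : X * ∑ T ∈ (PP z).powerset, u T * ∏ p ∈ T, gm m p ≤
      2 * X * ((m : ℝ) / (Nat.totient m : ℝ) * (1 / Real.log z) ^ 2) := by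
    have h8 : ∑ T ∈ (PP z).powerset, u T * ∏ p ∈ T, gm m p ≤
        2 * ((m : ℝ) / (Nat.totient m : ℝ) * (1 / Real.log z) ^ 2) := by
      linarith
    have := mul_le_mul_of_nonneg_left h8 hX
    linarith
  linarith

theorem pairsP : ∃ C : ℝ, 0 < C ∧ ∀ m : ℕ, 1 ≤ m → Even m → ∀ X : ℝ, 2 ≤ X →
    (((Icc 1 ⌊X⌋₊).filter (fun q => q.Prime ∧ (m * q + 1).Prime)).card : ℝ) ≤
      C * ((m : ℝ) / (Nat.totient m : ℝ)) * X / (Real.log X) ^ 2 := by
  obtain ⟨K, hK⟩ := fund 1 one_pos le_rfl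
  obtain ⟨K0, hK0⟩ : ∃ K0 : ℕ, K0 = K + 1 := ⟨_, rfl⟩
  have hK0R : (1 : ℝ) ≤ K0 := by
    have : 1 ≤ K0 := by omega
    exact_mod_cast this
  set X0 : ℝ := 4 ^ (4 * K0) with hX0
  have hX01 : 1 < X0 := by
    rw [hX0]
    exact one_lt_pow₀ (by norm_num) (by omega)
  have hlX0 : 0 < Real.log X0 := Real.log_pos hX01
  refine ⟨(Real.log X0) ^ 2 + 48 + 128 * (K0 : ℝ) ^ 2, by positivity, fun m hm he X hX => ?_⟩
  have hX1 : 1 < X := by linarith
  have hXp : 0 < X := by linarith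
  have hlX : 0 < Real.log X := Real.log_pos hX1
  have hφ0 : (0 : ℝ) < (Nat.totient m : ℝ) := by exact_mod_cast Nat.totient_pos.2 hm
  have hφ1 : 1 ≤ (m : ℝ) / (Nat.totient m : ℝ) := by
    rw [one_le_div hφ0]
    exact_mod_cast Nat.totient_le m
  set F : ℝ := (m : ℝ) / (Nat.totient m : ℝ) with hF
  have hFX : 0 ≤ F * X / (Real.log X) ^ 2 := by positivity
  by_cases hc : X < X0
  · have h1 : (((Icc 1 ⌊X⌋₊).filter (fun q => q.Prime ∧ (m * q + 1).Prime)).card : ℝ) ≤ X := by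
      have h2 : ((Icc 1 ⌊X⌋₊).filter (fun q => q.Prime ∧ (m * q + 1).Prime)).card ≤ ⌊X⌋₊ := by
        refine (card_filter_le _ _).trans ?_
        rw [Nat.card_Icc, Nat.add_sub_cancel]
      exact (by exact_mod_cast h2 : _ ≤ ((⌊X⌋₊ : ℕ) : ℝ)).trans (Nat.floor_le hXp.le)
    have h3 : X ≤ (Real.log X0) ^ 2 * (F * X / (Real.log X) ^ 2) := by
      have h4 : (Real.log X) ^ 2 ≤ (Real.log X0) ^ 2 :=
        pow_le_pow_left₀ hlX.le (Real.log_le_log hXp hc.le) 2
      have h5 : 0 < (Real.log X) ^ 2 := by positivity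
      have h6 : X * (Real.log X) ^ 2 ≤ (Real.log X0) ^ 2 * (F * X) := by
        have h7 : X * (Real.log X) ^ 2 ≤ X * (Real.log X0) ^ 2 := mul_le_mul_of_nonneg_left h4 hXp.le
        have h8 : (Real.log X0) ^ 2 * (1 * X) ≤ (Real.log X0) ^ 2 * (F * X) :=
          mul_le_mul_of_nonneg_left (mul_le_mul_of_nonneg_right hφ1 hXp.le) (by positivity)
        linarith
      rw [← mul_div_assoc, le_div_iff₀ h5]
      exact h6
    have h9 : ((Real.log X0) ^ 2 + 48 + 128 * (K0 : ℝ) ^ 2) * F * X / (Real.log X) ^ 2 =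
        (Real.log X0) ^ 2 * (F * X / (Real.log X) ^ 2) +
          (48 + 128 * (K0 : ℝ) ^ 2) * (F * X / (Real.log X) ^ 2) := by ring
    rw [h9]
    have h10 : 0 ≤ (48 + 128 * (K0 : ℝ) ^ 2) * (F * X / (Real.log X) ^ 2) := by positivity
    linarith
  · push Not at hc
    have hK04 : (0 : ℝ) < 4 * K0 := by linarith
    set Y : ℝ := X ^ (1 / (4 * K0 : ℝ)) with hY
    have hY4 : 4 ≤ Y := by
      have h1 : X0 ^ (1 / (4 * K0 : ℝ)) ≤ Y := Real.rpow_le_rpow (by linarith) hc (by positivity)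
      have h2 : X0 ^ (1 / (4 * K0 : ℝ)) = 4 := by
        rw [hX0, ← Real.rpow_natCast, ← Real.rpow_mul (by norm_num)]
        push_cast
        rw [mul_one_div_cancel hK04.ne', Real.rpow_one]
      linarith
    have hYp : 0 < Y := by linarith
    set z : ℕ := ⌊Y⌋₊ with hzdef
    have hzY : (z : ℝ) ≤ Y := Nat.floor_le hYp.le
    have hzY' : Y < z + 1 := Nat.lt_floor_add_one Y
    have hz2 : 2 ≤ z := by
      have : (2 : ℝ) ≤ (z : ℝ) := by linarith
      exact_mod_cast this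
    have hzR : (2 : ℝ) ≤ z := by exact_mod_cast hz2
    have hlogY : Real.log Y = Real.log X / (4 * K0) := by
      rw [hY, Real.log_rpow hXp]
      ring
    have hlz : Real.log X / (8 * K0) ≤ Real.log z := by
      have h1 : Real.log Y ≤ 2 * Real.log z := by
        have h2 : Y ≤ (z : ℝ) ^ 2 := by nlinarith
        have h3 := Real.log_le_log hYp h2
        rw [Real.log_pow] at h3
        exact_mod_cast h3
      rw [hlogY] at h1
      have h2 : Real.log X / (8 * K0) = Real.log X / (4 * K0) / 2 := by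
        rw [div_div]
        ring
      rw [h2]
      linarith
    have hlz0 : 0 < Real.log X / (8 * K0) := by positivity
    have hlzp : 0 < Real.log z := hlz0.trans_le hlz
    obtain ⟨u, l, hFd⟩ := hK z hz2
    have hs := T1P_sieve hFd hz2 hm he hXp.le
    have hmain : (1 / Real.log z) ^ 2 ≤ 64 * (K0 : ℝ) ^ 2 / (Real.log X) ^ 2 := by
      have h1 : 1 / Real.log z ≤ 1 / (Real.log X / (8 * K0)) := one_div_le_one_div_of_le hlz0 hlz
      have h2 : 1 / (Real.log X / (8 * K0)) = 8 * K0 / Real.log X := by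
        rw [one_div_div]
      have h3 := pow_le_pow_left₀ (by positivity) (h1.trans (le_of_eq h2)) 2
      refine h3.trans (le_of_eq ?_)
      rw [div_pow]
      ring
    have hsq : Y ^ (2 * K0) = X ^ (1 / 2 : ℝ) := by
      rw [hY, ← Real.rpow_natCast, ← Real.rpow_mul hXp.le]
      congr 1
      push_cast
      field_simp
      norm_num
    have hzK : (z : ℝ) ^ K * (2 * (z : ℝ) ^ K) + z ≤ 3 * X ^ (1 / 2 : ℝ) := by
      have h1 : (z : ℝ) ^ K ≤ Y ^ K0 := by
        refine (pow_le_pow_left₀ (by linarith) hzY K).trans ?_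
        exact pow_le_pow_right₀ (by linarith) (by omega)
      have h2 : (z : ℝ) ≤ Y ^ (2 * K0) := by
        refine hzY.trans ?_
        calc Y = Y ^ 1 := (pow_one Y).symm
          _ ≤ Y ^ (2 * K0) := pow_le_pow_right₀ (by linarith) (by omega)
      have h3 : (z : ℝ) ^ K * (z : ℝ) ^ K ≤ Y ^ (2 * K0) := by
        calc (z : ℝ) ^ K * (z : ℝ) ^ K ≤ Y ^ K0 * Y ^ K0 :=
              mul_le_mul h1 h1 (by positivity) (by positivity)
          _ = Y ^ (2 * K0) := by rw [← pow_add, two_mul]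
      rw [← hsq]
      linarith
    have hroot : X ^ (1 / 2 : ℝ) ≤ 16 * (X / (Real.log X) ^ 2) := by
      have h1 := Real.log_le_rpow_div hXp.le (by norm_num : (0 : ℝ) < 1 / 4)
      have h2 : Real.log X ≤ 4 * X ^ (1 / 4 : ℝ) := by linarith
      have h3 : (Real.log X) ^ 2 ≤ 16 * X ^ (1 / 2 : ℝ) := by
        have h4 := pow_le_pow_left₀ hlX.le h2 2
        have h5 : (4 * X ^ (1 / 4 : ℝ)) ^ 2 = 16 * X ^ (1 / 2 : ℝ) := by
          rw [mul_pow, ← Real.rpow_natCast (X ^ (1 / 4 : ℝ)) 2, ← Real.rpow_mul hXp.le]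
          norm_num
        rwa [h5] at h4
      have h6 : X ^ (1 / 2 : ℝ) * X ^ (1 / 2 : ℝ) = X := by
        rw [← Real.rpow_add hXp]
        norm_num
      rw [← mul_div_assoc, le_div_iff₀ (by positivity)]
      calc X ^ (1 / 2 : ℝ) * (Real.log X) ^ 2 ≤ X ^ (1 / 2 : ℝ) * (16 * X ^ (1 / 2 : ℝ)) :=
            mul_le_mul_of_nonneg_left h3 (by positivity)
        _ = 16 * (X ^ (1 / 2 : ℝ) * X ^ (1 / 2 : ℝ)) := by ring
        _ = 16 * X := by rw [h6]
    have hXF : X / (Real.log X) ^ 2 ≤ F * X / (Real.log X) ^ 2 := by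
      refine div_le_div_of_nonneg_right ?_ (by positivity)
      nlinarith
    have hA : 2 * X * (F * (1 / Real.log z) ^ 2) ≤ 128 * (K0 : ℝ) ^ 2 * (F * X / (Real.log X) ^ 2) := by
      have h1 : 2 * X * (F * (1 / Real.log z) ^ 2) ≤
          2 * X * (F * (64 * (K0 : ℝ) ^ 2 / (Real.log X) ^ 2)) := by
        refine mul_le_mul_of_nonneg_left (mul_le_mul_of_nonneg_left hmain ?_) (by positivity)
        linarith
      refine h1.trans (le_of_eq (by ring))
    have h9 : ((Real.log X0) ^ 2 + 48 + 128 * (K0 : ℝ) ^ 2) * F * X / (Real.log X) ^ 2 =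
        (Real.log X0) ^ 2 * (F * X / (Real.log X) ^ 2) + 48 * (F * X / (Real.log X) ^ 2) +
          128 * (K0 : ℝ) ^ 2 * (F * X / (Real.log X) ^ 2) := by ring
    rw [h9]
    have h10 : 0 ≤ (Real.log X0) ^ 2 * (F * X / (Real.log X) ^ 2) := by positivity
    linarith

end LVH
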