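import Pool.Agent.Lib.MP_17a322_ntLH.T1P
import Pool.Agent.Lib.MP_10e784_agW.SC1

/-!
# LEAF T2B: few primes `p` with a large prime factor of `p - 1`

PROOF.  Copy `Pool/Agent/Lib/MP_10e784_agW/SC.lean` (there `p + 1`), with `phi_sum` of `SC1.lean` and `pairsP` (now `p = m q + 1`; `m` is even for `p`, `q` odd).
-/

namespace LVH

open Finset

theorem badm_card : ∃ C : ℝ, 0 < C ∧ ∀ A : ℝ, 1 < A → A ≤ 2 → ∀ Q : ℝ, 1 ≤ Q → ∃ x0 : ℝ, 2 ≤ x0 ∧ ∀ x : ℝ, x0 ≤ x →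
    ∀ t : ℝ, x / Q ≤ t → t ≤ x → ((badm A x t).card : ℝ) ≤ C * (1 - 1 / A) * t / Real.log x := by
  classical
  obtain ⟨C₁, hC₁, h1⟩ := pairsP
  obtain ⟨C₂, hC₂, h2⟩ := MWS.phi_sum
  refine ⟨64 * C₁ * C₂, by positivity, fun A hA hA2 Q hK => ?_⟩
  have hA0 : 0 < A := by linarith
  have hinv : 1 / 2 ≤ 1 / A := one_div_le_one_div_of_le hA0 hA2
  have hinv1 : 1 / A < 1 := by
    rw [div_lt_one hA0]
    exact hA
  set θ : ℝ := 1 - 1 / A with hθ
  have hθ0 : 0 < θ := by rw [hθ]; linarith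
  have hθ1 : θ ≤ 1 / 2 := by rw [hθ]; linarith
  refine ⟨max 16 (max ((2 * Q) ^ 4) (Real.exp (2 / θ))), le_trans (by norm_num) (le_max_left _ _), fun x hx t ht1 ht2 => ?_⟩
  have hx16 : 16 ≤ x := le_trans (le_max_left _ _) hx
  have hxK : (2 * Q) ^ 4 ≤ x := le_trans ((le_max_left _ _).trans (le_max_right _ _)) hx
  have hxe : Real.exp (2 / θ) ≤ x := le_trans ((le_max_right _ _).trans (le_max_right _ _)) hx
  have hx0 : 0 < x := by linarith
  have hx1 : 1 ≤ x := by linarith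
  have hlog : 0 < Real.log x := Real.log_pos (by linarith)
  have hlogθ : 2 ≤ θ * Real.log x := by
    have h3 : 2 / θ ≤ Real.log x := by
      rw [Real.le_log_iff_exp_le hx0]
      exact hxe
    rwa [div_le_iff₀ hθ0, mul_comm] at h3
  have hx4 : 2 * Q ≤ x ^ (1 / 4 : ℝ) := by
    have h3 : ((2 * Q) ^ 4 : ℝ) ^ (1 / 4 : ℝ) ≤ x ^ (1 / 4 : ℝ) := Real.rpow_le_rpow (by positivity) hxK (by norm_num)
    have h4 : ((2 * Q) ^ 4 : ℝ) ^ (1 / 4 : ℝ) = 2 * Q := by
      rw [← Real.rpow_natCast, ← Real.rpow_mul (by positivity)]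
      norm_num
    rwa [h4] at h3
  have hx42 : 2 ≤ x ^ (1 / 4 : ℝ) := by linarith
  have hxq : 0 < x ^ (1 / 4 : ℝ) := by linarith
  have ht1' : 1 ≤ t := by
    refine le_trans ?_ ht1
    rw [le_div_iff₀ (by linarith), one_mul]
    have h3 : 2 * Q ≤ (2 * Q) ^ 4 := le_self_pow₀ (by linarith) (by norm_num)
    linarith
  set M : ℝ := 2 * x ^ θ with hM
  have hxθ : 1 ≤ x ^ θ := Real.one_le_rpow hx1 hθ0.le
  have hM1 : 1 ≤ M := by rw [hM]; linarith
  have hMlog : 1 + Real.log M ≤ 2 * θ * Real.log x := by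
    have h3 : Real.log M = Real.log 2 + θ * Real.log x := by
      rw [hM, Real.log_mul (by norm_num) (by positivity), Real.log_rpow hx0]
    have h4 : Real.log 2 ≤ 1 := by
      have := Real.log_two_lt_d9
      linarith
    rw [h3]
    linarith
  -- size of the range of `q`
  have hsize : ∀ m : ℕ, 1 ≤ m → (m : ℝ) ≤ M → x ^ (1 / 4 : ℝ) ≤ (t + 1) / m := by
    intro m hm hmM
    have hm0 : (0 : ℝ) < m := by exact_mod_cast hm
    rw [le_div_iff₀ hm0]
    have h3 : 2 * Q * (x ^ (1 / 4 : ℝ) * x ^ θ) ≤ x := by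
      calc 2 * Q * (x ^ (1 / 4 : ℝ) * x ^ θ) ≤ x ^ (1 / 4 : ℝ) * (x ^ (1 / 4 : ℝ) * x ^ θ) := by gcongr
        _ = x ^ (1 / 4 + (1 / 4 + θ)) := by
            rw [← Real.rpow_add hx0, ← Real.rpow_add hx0]
        _ ≤ x ^ (1 : ℝ) := Real.rpow_le_rpow_of_exponent_le hx1 (by linarith)
        _ = x := Real.rpow_one x
    have h4 : x ^ (1 / 4 : ℝ) * (2 * x ^ θ) ≤ x / Q := by
      rw [le_div_iff₀ (by linarith)]
      calc x ^ (1 / 4 : ℝ) * (2 * x ^ θ) * Q = 2 * Q * (x ^ (1 / 4 : ℝ) * x ^ θ) := by ring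
        _ ≤ x := h3
    calc x ^ (1 / 4 : ℝ) * m ≤ x ^ (1 / 4 : ℝ) * (2 * x ^ θ) := by
          rw [← hM]
          gcongr
      _ ≤ x / Q := h4
      _ ≤ t + 1 := by linarith
  -- the covering
  have hcov : badm A x t ⊆ ((Icc 1 ⌊M⌋₊).filter (fun m => Even m)).biUnion (fun m =>
      ((Icc 1 ⌊(t + 1) / (m : ℝ)⌋₊).filter (fun q => q.Prime ∧ (m * q + 1).Prime)).image (fun q => m * q + 1)) := by
    intro p hp
    unfold badm at hp
    rw [mem_filter, mem_Icc] at hp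
    obtain ⟨⟨hp1, hpt⟩, hpp, q, hq, ⟨m, hm⟩, hqx⟩ := hp
    have hpt' : (p : ℝ) ≤ t := (Nat.le_floor_iff (by linarith)).1 hpt
    have hq0 : (0 : ℝ) < q := by exact_mod_cast hq.pos
    have hqx' : x ^ (1 / A) < q := by
      have h3 : x ^ (1 / A) < ((q : ℝ) ^ A) ^ (1 / A) := Real.rpow_lt_rpow hx0.le hqx (by positivity)
      rwa [← Real.rpow_mul hq0.le, mul_one_div_cancel hA0.ne', Real.rpow_one] at h3
    have hq4 : (4 : ℝ) < q := by
      have h3 : (16 : ℝ) ^ (1 / 2 : ℝ) ≤ x ^ (1 / A) := by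
        calc (16 : ℝ) ^ (1 / 2 : ℝ) ≤ x ^ (1 / 2 : ℝ) := Real.rpow_le_rpow (by norm_num) hx16 (by norm_num)
          _ ≤ x ^ (1 / A) := Real.rpow_le_rpow_of_exponent_le hx1 hinv
      have h4 : (16 : ℝ) ^ (1 / 2 : ℝ) = 4 := by
        rw [show (16 : ℝ) = 4 ^ (2 : ℝ) by norm_num, ← Real.rpow_mul (by norm_num)]
        norm_num
      rw [h4] at h3
      linarith
    have hq4' : 4 < q := by exact_mod_cast hq4
    have hm0 : 0 < m := by
      apply Nat.pos_of_ne_zero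
      intro h
      rw [h, mul_zero] at hm
      have := hpp.two_le
      omega
    have hpq : q ≤ p - 1 := by
      rw [hm]
      exact Nat.le_mul_of_pos_right q hm0
    have hqodd : q % 2 = 1 := by
      rcases hq.eq_two_or_odd with h | h
      · omega
      · exact h
    have hpodd : p % 2 = 1 := by
      rcases hpp.eq_two_or_odd with h | h
      · omega
      · exact h
    have hmeven : Even m := by
      by_contra hcon
      rw [Nat.not_even_iff] at hcon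
      have h3 : (q * m) % 2 = 1 := by
        rw [Nat.mul_mod, hqodd, hcon]
      omega
    have hmq : (m : ℝ) * q = p - 1 := by
      have h3 : ((p - 1 : ℕ) : ℝ) = ((q * m : ℕ) : ℝ) := by rw [hm]
      rw [Nat.cast_sub hpp.one_le, Nat.cast_one, Nat.cast_mul] at h3
      linarith
    have hm0r : (0 : ℝ) < m := by exact_mod_cast hm0
    have hmM : (m : ℝ) ≤ M := by
      have h3 : (m : ℝ) * x ^ (1 / A) ≤ 2 * x := by
        calc (m : ℝ) * x ^ (1 / A) ≤ m * q := by gcongr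
          _ = p - 1 := hmq
          _ ≤ 2 * x := by linarith
      have h4 : x ^ θ * x ^ (1 / A) = x := by
        rw [← Real.rpow_add hx0, hθ]
        norm_num
      have h5 : 0 < x ^ (1 / A) := Real.rpow_pos_of_pos hx0 _
      have h6 : (m : ℝ) * x ^ (1 / A) ≤ M * x ^ (1 / A) := by
        rw [hM, mul_assoc, h4]
        exact h3
      exact le_of_mul_le_mul_right h6 h5
    have hpeq : m * q + 1 = p := by
      rw [mul_comm, ← hm]
      omega
    rw [mem_biUnion]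
    refine ⟨m, mem_filter.mpr ⟨mem_Icc.mpr ⟨hm0, Nat.le_floor hmM⟩, hmeven⟩, ?_⟩
    rw [mem_image]
    refine ⟨q, mem_filter.mpr ⟨mem_Icc.mpr ⟨hq.pos, Nat.le_floor ?_⟩, hq, ?_⟩, hpeq⟩
    · rw [le_div_iff₀ hm0r, mul_comm, hmq]
      linarith
    · rw [hpeq]
      exact hpp
  have hcard : ((badm A x t).card : ℝ) ≤ ∑ m ∈ (Icc 1 ⌊M⌋₊).filter (fun m => Even m),
      (((Icc 1 ⌊(t + 1) / (m : ℝ)⌋₊).filter (fun q => q.Prime ∧ (m * q + 1).Prime)).card : ℝ) := by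
    have h3 := (card_le_card hcov).trans card_biUnion_le
    have h4 : ∑ m ∈ (Icc 1 ⌊M⌋₊).filter (fun m => Even m),
        (((Icc 1 ⌊(t + 1) / (m : ℝ)⌋₊).filter (fun q => q.Prime ∧ (m * q + 1).Prime)).image (fun q => m * q + 1)).card ≤
        ∑ m ∈ (Icc 1 ⌊M⌋₊).filter (fun m => Even m),
        ((Icc 1 ⌊(t + 1) / (m : ℝ)⌋₊).filter (fun q => q.Prime ∧ (m * q + 1).Prime)).card :=
      sum_le_sum fun _ _ => card_image_le
    exact_mod_cast h3.trans h4
  have hterm : ∀ m ∈ (Icc 1 ⌊M⌋₊).filter (fun m => Even m),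
      (((Icc 1 ⌊(t + 1) / (m : ℝ)⌋₊).filter (fun q => q.Prime ∧ (m * q + 1).Prime)).card : ℝ) ≤
      32 * C₁ * t / Real.log x ^ 2 * (1 / (Nat.totient m : ℝ)) := by
    intro m hm
    rw [mem_filter, mem_Icc] at hm
    have hmM : (m : ℝ) ≤ M := (Nat.le_floor_iff (by linarith)).1 hm.1.2
    have hs := hsize m hm.1.1 hmM
    have hm0 : (0 : ℝ) < m := by exact_mod_cast hm.1.1
    have hphi : (0 : ℝ) < (Nat.totient m : ℝ) := by exact_mod_cast Nat.totient_pos.mpr hm.1.1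
    refine (h1 m hm.1.1 hm.2 ((t + 1) / m) (by linarith)).trans ?_
    have hl : Real.log x / 4 ≤ Real.log ((t + 1) / m) := by
      calc Real.log x / 4 = Real.log (x ^ (1 / 4 : ℝ)) := by rw [Real.log_rpow hx0]; ring
        _ ≤ Real.log ((t + 1) / m) := Real.log_le_log hxq hs
    have hl2 : Real.log x ^ 2 / 16 ≤ Real.log ((t + 1) / m) ^ 2 := by
      calc Real.log x ^ 2 / 16 = (Real.log x / 4) ^ 2 := by ring
        _ ≤ Real.log ((t + 1) / m) ^ 2 := by gcongr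
    have e1 : C₁ * ((m : ℝ) / (Nat.totient m : ℝ)) * ((t + 1) / m) = C₁ * (t + 1) * (1 / (Nat.totient m : ℝ)) := by
      field_simp
    rw [e1]
    calc C₁ * (t + 1) * (1 / (Nat.totient m : ℝ)) / Real.log ((t + 1) / m) ^ 2
        ≤ C₁ * (2 * t) * (1 / (Nat.totient m : ℝ)) / (Real.log x ^ 2 / 16) := by
          gcongr
          linarith
      _ = 32 * C₁ * t / Real.log x ^ 2 * (1 / (Nat.totient m : ℝ)) := by
          field_simp
          ring
  have hphi := h2 M hM1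
  calc ((badm A x t).card : ℝ) ≤ ∑ m ∈ (Icc 1 ⌊M⌋₊).filter (fun m => Even m),
        32 * C₁ * t / Real.log x ^ 2 * (1 / (Nat.totient m : ℝ)) := hcard.trans (sum_le_sum hterm)
    _ ≤ ∑ m ∈ Icc 1 ⌊M⌋₊, 32 * C₁ * t / Real.log x ^ 2 * (1 / (Nat.totient m : ℝ)) :=
        sum_le_sum_of_subset_of_nonneg (filter_subset _ _) fun _ _ _ => by positivity
    _ = 32 * C₁ * t / Real.log x ^ 2 * ∑ m ∈ Icc 1 ⌊M⌋₊, (1 / (Nat.totient m : ℝ)) := by rw [mul_sum]
    _ ≤ 32 * C₁ * t / Real.log x ^ 2 * (C₂ * (2 * θ * Real.log x)) := by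
        gcongr
        exact hphi.trans (mul_le_mul_of_nonneg_left hMlog hC₂.le)
    _ = 64 * C₁ * C₂ * θ * t / Real.log x := by
        field_simp
        ring

end LVH
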