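import Pool.Agent.Lib.MP_17a322_ntLH.T3B
import Pool.Agent.Lib.MP_10e784_agV.VM

/-!
# LEAF T6: the sieve

PROOF.  As `MWS.sieve` of `Pool/Agent/Lib/MP_10e784_agV/VM.lean`, with `params2` (of `VP`), `momentN` (of `VA3`), `VM_union`, `VM_div` (of `VM`): `A, Q` from `smoothK`; the primes are those of `SP K A Q x` not dividing `M` (all are `≥ p0` if `x / Q ≥ p0`, take `max x0 (Q * (p0 + 2))` in `params2`); `p - 1 ∣ L` by the property of `L` in `params2` with `n = p - 1`.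
-/

namespace LVH

open Finset NumberField

theorem tsieve (K : Type) [Field K] [NumberField K] : ∃ δ η : ℝ, 0 < δ ∧ 0 < η ∧ ∀ (N : ℕ) (κ : ℝ), 0 < κ → κ ≤ 1 →
    ∀ p0 : ℕ, ∃ H0 : ℕ, ∀ t M H : ℕ, H0 ≤ H → M ≠ 0 → (t : ℝ) ≤ (Real.log H) ^ η →
      Real.log M ≤ (Real.log H) ^ (1 + η) →
      ∀ (ι : Type) [Fintype ι] [DecidableEq ι], Fintype.card ι = N →
      ∀ (Q : (ι → ℤ) → Prop) (R : (L : ℕ) → Fin (L ^ t) → (p : ℕ) → Set (ι → ZMod p)),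
        (∀ L : ℕ, 1 ≤ L → ∀ i, ∀ p : ℕ, p.Prime → p0 ≤ p → ¬ p ∣ M → D1 K p → p - 1 ∣ L →
          (Nat.card (R L i p) : ℝ) ≤ (1 - κ) * (p : ℝ) ^ N) →
        (∀ L : ℕ, 1 ≤ L → ∀ c : ι → ℤ, Q c → ∃ i, ∀ p : ℕ, p.Prime → p0 ≤ p → ¬ p ∣ M → D1 K p → p - 1 ∣ L →
          (fun k => ((c k : ℤ) : ZMod p)) ∈ R L i p) →
        (Nat.card {c : ι → ℤ // (∀ k, |c k| ≤ (H : ℤ)) ∧ Q c} : ℝ) ≤ (H : ℝ) ^ ((N : ℝ) - δ) := by
  classical
  obtain ⟨A, hA1, hA2, Q, hQ, x0, hx0, hS⟩ := smoothK K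
  obtain ⟨δ, η, hδ, hη, hpar⟩ := MWS.params2 A hA1 hA2
  refine ⟨δ, η, hδ, hη, fun N κ hκ hκ1 p0 => ?_⟩
  obtain ⟨H0, hH0⟩ := hpar Q (max x0 (Q * ((p0 : ℝ) + 2))) κ N hQ hκ hκ1
  refine ⟨max H0 1, fun t M H hH hM0 ht hM ι _ _ hι Qp R hR hC => ?_⟩
  have hH1 : 1 ≤ H := (le_max_right _ _).trans hH
  have hHr : (1 : ℝ) ≤ H := by exact_mod_cast hH1
  have hHpos : (0 : ℝ) < H := by linarith
  obtain ⟨x, k, L, hx, hXk, hL, hdvd, hch⟩ := hH0 H ((le_max_left _ _).trans hH)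
  have hx0' : x0 ≤ x := (le_max_left _ _).trans hx
  have hx2 : (2 : ℝ) ≤ x := hx0.trans hx0'
  have hQpos : (0 : ℝ) < Q := by linarith
  have hxQ : (p0 : ℝ) + 2 ≤ x / Q := by
    rw [le_div_iff₀ hQpos]
    have := (le_max_right _ _).trans hx
    linarith
  have hp00 : (0 : ℝ) ≤ p0 := Nat.cast_nonneg _
  have hmem : ∀ p ∈ SP K A Q x, p.Prime ∧ x / Q < (p : ℝ) ∧ p ≤ ⌊x⌋₊ ∧ D1 K p ∧
      ∀ q : ℕ, q.Prime → q ∣ p - 1 → (q : ℝ) ^ A ≤ x := by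
    intro p hp
    rw [SP, mem_filter, mem_Ioc] at hp
    exact ⟨hp.2.1, Nat.lt_of_floor_lt hp.1.1, hp.1.2, hp.2.2.1, hp.2.2.2⟩
  have hp0 : ∀ p ∈ SP K A Q x, p0 ≤ p := by
    intro p hp
    have h1 := (hmem p hp).2.1
    have h2 : (p0 : ℝ) ≤ p := by linarith
    exact_mod_cast h2
  obtain ⟨T, hT⟩ : ∃ T, T = (SP K A Q x).filter (fun p => p ∣ M) := ⟨_, rfl⟩
  obtain ⟨S, hSdef⟩ : ∃ S, S = (SP K A Q x).filter (fun p => ¬ p ∣ M) := ⟨_, rfl⟩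
  have hSm : ∀ p ∈ S, p ∈ SP K A Q x ∧ ¬ p ∣ M := by
    intro p hp
    rw [hSdef, mem_filter] at hp
    exact hp
  have hTm : ∀ p ∈ T, p ∈ SP K A Q x ∧ p ∣ M := by
    intro p hp
    rw [hT, mem_filter] at hp
    exact hp
  have hTlog : (T.card : ℝ) * Real.log (x / Q) ≤ (Real.log H) ^ (1 + η) := by
    refine (MWS.VM_div T ?_ hM0 (by linarith) ?_ ?_).trans hM
    · intro p hp
      exact (hmem p (hTm p hp).1).1
    · intro p hp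
      exact (hmem p (hTm p hp).1).2.1.le
    · intro p hp
      exact (hTm p hp).2
  have hcard : T.card + S.card = (SP K A Q x).card := by
    rw [hT, hSdef]
    exact card_filter_add_card_filter_not _
  obtain ⟨hn1, hn2⟩ := hch t (SP K A Q x).card T.card ht (hS x hx0') hTlog
  have hcard' : (SP K A Q x).card - T.card = S.card := by omega
  rw [hcard'] at hn1 hn2
  have hpL : ∀ p ∈ S, p - 1 ∣ L := by
    intro p hp
    obtain ⟨h1, h2, h3, h4, h5⟩ := hmem p (hSm p hp).1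
    have h6 : 1 ≤ p - 1 := by
      have := h1.two_le
      omega
    refine hdvd (p - 1) h6 ?_ h5
    have h7 : (p : ℝ) ≤ x := (Nat.cast_le.2 h3).trans (Nat.floor_le (by linarith))
    have h8 : ((p - 1 : ℕ) : ℝ) ≤ (p : ℝ) := by exact_mod_cast Nat.sub_le p 1
    linarith
  have hunion := MWS.VM_union (ι := ι) (H := H) (N := L ^ t) Qp
    (fun i c => ∀ p ∈ S, (fun k => ((c k : ℤ) : ZMod p)) ∈ R L i p)
    (by
      intro c _ hc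
      obtain ⟨i, hi⟩ := hC L hL c hc
      refine ⟨i, fun p hp => ?_⟩
      obtain ⟨h1, h2, h3, h4, h5⟩ := hmem p (hSm p hp).1
      exact hi p h1 (hp0 p (hSm p hp).1) (hSm p hp).2 h4 (hpL p hp))
    (κ ^ (2 * k) * (S.card.choose k : ℝ)) (((N : ℝ) + 1) * (2 * (H : ℝ) + 1) ^ N) (by positivity)
    (fun i => by
      have h := MWS.momentN (ι := ι) S ⌊x⌋₊ k H κ hκ hκ1 (fun p => R L i p)
        (fun p hp => ⟨(hmem p (hSm p hp).1).1, (hmem p (hSm p hp).1).2.2.1⟩)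
        (fun p hp => by
          rw [hι]
          exact hR L hL i p (hmem p (hSm p hp).1).1 (hp0 p (hSm p hp).1) (hSm p hp).2
            (hmem p (hSm p hp).1).2.2.2.1 (hpL p hp)) hXk hH1
      rw [hι, mul_assoc] at h
      exact h)
  have hLpos : (0 : ℝ) < (L : ℝ) ^ t := by
    have : (0 : ℝ) < L := by exact_mod_cast hL
    positivity
  obtain ⟨W, hW⟩ : ∃ W : ℝ, W = (Nat.card {c : ι → ℤ // (∀ k, |c k| ≤ (H : ℤ)) ∧ Qp c} : ℝ) := ⟨_, rfl⟩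
  rw [← hW] at hunion ⊢
  have hW0 : 0 ≤ W := by rw [hW]; exact Nat.cast_nonneg _
  have hpos2 : (0 : ℝ) < (H : ℝ) ^ δ := Real.rpow_pos_of_pos hHpos _
  have hE : (0 : ℝ) < (L : ℝ) ^ t * (((N : ℝ) + 1) * 3 ^ N) := by positivity
  have h3 : ((L : ℝ) ^ t * (((N : ℝ) + 1) * 3 ^ N)) * (W * (H : ℝ) ^ δ) ≤
      ((L : ℝ) ^ t * (((N : ℝ) + 1) * 3 ^ N)) * (H : ℝ) ^ N := by
    calc ((L : ℝ) ^ t * (((N : ℝ) + 1) * 3 ^ N)) * (W * (H : ℝ) ^ δ)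
        = W * ((L : ℝ) ^ t * (((N : ℝ) + 1) * 3 ^ N) * (H : ℝ) ^ δ) := by ring
      _ ≤ W * (κ ^ (2 * k) * (S.card.choose k : ℝ)) := mul_le_mul_of_nonneg_left hn2 hW0
      _ ≤ ((L ^ t : ℕ) : ℝ) * (((N : ℝ) + 1) * (2 * (H : ℝ) + 1) ^ N) := hunion
      _ ≤ (L : ℝ) ^ t * (((N : ℝ) + 1) * (3 * (H : ℝ)) ^ N) := by
          push_cast
          refine mul_le_mul_of_nonneg_left ?_ hLpos.le
          refine mul_le_mul_of_nonneg_left ?_ (by positivity)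
          exact pow_le_pow_left₀ (by positivity) (by linarith) _
      _ = ((L : ℝ) ^ t * (((N : ℝ) + 1) * 3 ^ N)) * (H : ℝ) ^ N := by rw [mul_pow]; ring
  have h4 := le_of_mul_le_mul_left h3 hE
  have h5 : (H : ℝ) ^ N = (H : ℝ) ^ ((N : ℝ) - δ) * (H : ℝ) ^ δ := by
    rw [← Real.rpow_add hHpos, sub_add_cancel, Real.rpow_natCast]
  rw [h5] at h4
  exact le_of_mul_le_mul_right h4 hpos2

end LVH
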