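import Pool.Agent.Lib.MP_17a322_ntLH.T4R
import Pool.Agent.Lib.MP_17a322_ntLH.E1

/-!
# LEAF T7: the reduction of a point

PROOF.  If all `z i` are in `V`, reduce (`Rd.sum`, `Rd.mul`, ...).  Otherwise let `z k` be one of maximal size (`z i / z k ∈ V` for all `i`; `V` is a valuation ring and `Fin s` is finite), then `z k ∉ V`, so `(z k)⁻¹ ∈ V` has residue `0` (`π.ker`); `x' = (z k)⁻¹ • (u, z)` is in `V` with residues `(0, z')`, `z' k = 1`, and `Fv a i x' = (z k)⁻¹ ^ d i * y i` (`fv_smul`) has residue `0` as `d i ≥ 1`.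
-/

namespace LVH

open Finset

private theorem T7_Fv {K : Type} [Field K] {p : ℕ} {π : Pl K p} {j s e : ℕ} {d : Fin s → ℕ}
    {ω : Fin e → K} {ω' : Fin e → ZMod p} (hω : ∀ k, Rd π (ω k) (ω' k))
    {c : Mo j d × Fin e → K} {c' : Mo j d × Fin e → ZMod p} (hc : ∀ t, Rd π (c t) (c' t))
    {x : Vr j s → K} {x' : Vr j s → ZMod p} (hx : ∀ t, Rd π (x t) (x' t)) (i : Fin s) :
    Rd π (Fv (co ω c) i x) (Fv (co ω' c') i x') := by
  unfold Fv fv co
  exact Rd.sum _ fun α _ => (Rd.sum _ fun k _ => (hc (⟨i, α⟩, k)).mul (hω k)).mul (Rd.mon hx α)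

private theorem T7_max {K : Type} [Field K] {p : ℕ} (π : Pl K p) {s : ℕ} (z : Fin s → K)
    (h : ¬ ∀ i, z i ∈ π.V) : ∃ k, z k ∉ π.V ∧ ∀ i, (z k)⁻¹ * z i ∈ π.V := by
  obtain ⟨i0, hi0⟩ := not_forall.1 h
  have hne : Nonempty (Fin s) := ⟨i0⟩
  obtain ⟨k, hk⟩ := Finite.exists_max fun i => π.V.valuation (z i)
  have h1 : z k ∉ π.V := by
    intro h2
    rw [← ValuationSubring.valuation_le_one_iff] at h2
    exact hi0 ((ValuationSubring.valuation_le_one_iff _ _).1 ((hk i0).trans h2))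
  have h0 : z k ≠ 0 := fun h2 => h1 (h2 ▸ π.V.zero_mem)
  refine ⟨k, h1, fun i => ?_⟩
  rw [← ValuationSubring.valuation_le_one_iff, map_mul, map_inv₀]
  have h3 : π.V.valuation (z k) ≠ 0 := (map_ne_zero _).2 h0
  calc (π.V.valuation (z k))⁻¹ * π.V.valuation (z i)
      ≤ (π.V.valuation (z k))⁻¹ * π.V.valuation (z k) := mul_le_mul_right (hk i) _
    _ = 1 := inv_mul_cancel₀ h3

theorem local_RR {K : Type} [Field K] {p : ℕ} [Fact p.Prime] (π : Pl K p) {j s e : ℕ} (d : Fin s → ℕ)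
    (hd : ∀ i, 1 ≤ d i) (ω : Fin e → K) (ω' : Fin e → ZMod p) (hω : ∀ k, Rd π (ω k) (ω' k))
    (u : Fin j → K) (u' : Fin j → ZMod p) (hu : ∀ l, Rd π (u l) (u' l))
    (y : Fin s → K) (y' : Fin s → ZMod p) (hy : ∀ i, Rd π (y i) (y' i)) (z : Fin s → K)
    (c : Mo j d × Fin e → ℤ) (hz : ∀ i, Fv (co ω (fun t => ((c t : ℤ) : K))) i (Sum.elim u z) = y i) :
    (fun t => ((c t : ℤ) : ZMod p)) ∈ RR d ω' u' y' := by
  have hc : ∀ t : Mo j d × Fin e, Rd π ((c t : ℤ) : K) ((c t : ℤ) : ZMod p) := fun t => Rd.int _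
  by_cases hall : ∀ i, z i ∈ π.V
  · refine Or.inl ⟨fun i => π.ρ ⟨z i, hall i⟩, fun i => ?_⟩
    have hx : ∀ t : Vr j s, Rd π (Sum.elim u z t)
        (Sum.elim u' (fun i => π.ρ ⟨z i, hall i⟩) t) := by
      intro t
      cases t with
      | inl l => exact hu l
      | inr i => exact ⟨hall i, rfl⟩
    have h1 := T7_Fv (d := d) hω hc hx i
    rw [hz i] at h1
    exact h1.unique (hy i)
  · obtain ⟨k, hk, hki⟩ := T7_max π z hall
    have h0 : z k ≠ 0 := fun h2 => hk (h2 ▸ π.V.zero_mem)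
    have hw : (z k)⁻¹ ∈ π.V := (π.V.mem_or_inv_mem (z k)).resolve_left hk
    have hw0 : Rd π (z k)⁻¹ 0 := by
      refine ⟨hw, π.ker _ ?_⟩
      show ((z k)⁻¹)⁻¹ ∉ π.V
      rw [inv_inv]
      exact hk
    refine Or.inr ⟨fun i => π.ρ ⟨(z k)⁻¹ * z i, hki i⟩, ?_, fun i => ?_⟩
    · intro h3
      have h4 : π.ρ ⟨(z k)⁻¹ * z k, hki k⟩ = 0 := congrFun h3 k
      have h5 : Rd π (1 : K) 0 := by
        have h6 : Rd π ((z k)⁻¹ * z k) 0 := ⟨hki k, h4⟩
        rwa [inv_mul_cancel₀ h0] at h6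
      exact one_ne_zero (Rd.one.unique h5 : (1 : ZMod p) = 0)
    · have hx : ∀ t : Vr j s, Rd π (((z k)⁻¹ • (Sum.elim u z : Vr j s → K)) t)
          (Sum.elim (fun _ : Fin j => (0 : ZMod p)) (fun i => π.ρ ⟨(z k)⁻¹ * z i, hki i⟩) t) := by
        intro t
        cases t with
        | inl l =>
          have h7 := hw0.mul (hu l)
          rw [zero_mul] at h7
          exact h7
        | inr i => exact ⟨hki i, rfl⟩
      have h1 := T7_Fv (d := d) hω hc hx i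
      have h8 : Fv (co ω (fun t => ((c t : ℤ) : K))) i ((z k)⁻¹ • (Sum.elim u z : Vr j s → K)) =
          (z k)⁻¹ ^ d i * y i := by
        rw [← hz i]
        exact fv_smul _ _ _
      have h9 := (hw0.pow (d i)).mul (hy i)
      rw [zero_pow (Nat.one_le_iff_ne_zero.1 (hd i)), zero_mul] at h9
      rw [h8] at h1
      exact h1.unique h9

end LVH
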